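import Pool.Agent.Helper667_QS.Set

/-!
# The construction, for given scales and given sets
-/

set_option autoImplicit false

namespace Pool.Agent.Helper667_QS

open Finset Pool.Agent.H125R2.ET Pool.Agent.Helper667_AS

/-- all `N ≥ N0` are sums of two not too small elements -/
def CovP (A : Set ℕ) (N0 : ℕ) : Prop :=
  ∀ N ≥ N0, ∃ a ∈ A, ∃ b ∈ A, a + b = N ∧ N ≤ a ^ 2 ∧ N ≤ b ^ 2

theorem cut_rep' {B : Set ℕ} {c : ℕ} (h : ∀ n, rA B n ≤ c * (Nat.log 2 n + 1)) (u n : ℕ) :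
    repF (cut B u) (cut B u) n ≤ c * (u + 2) := by
  by_cases hn : n < 2 ^ (u + 1)
  · have e1 : repF (cut B u) (cut B u) n ≤ rA B n := repF_le_rA (fun b hb => (mem_cut.1 hb).2) n
    have e2 : Nat.log 2 n ≤ u := by
      rcases Nat.eq_zero_or_pos n with h0 | h0
      · rw [h0]; simp
      · exact Nat.lt_succ_iff.1 ((Nat.log_lt_iff_lt_pow (by norm_num) (by omega)).2 hn)
    exact e1.trans ((h n).trans (Nat.mul_le_mul_left _ (by omega)))
  · have h0 : repF (cut B u) (cut B u) n = 0 := by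
      unfold repF
      rw [card_eq_zero, filter_eq_empty_iff]
      rintro x hx hxn
      rw [mem_product, mem_cut, mem_cut] at hx
      have : 2 ^ (u + 1) = 2 ^ u + 2 ^ u := by ring
      omega
    rw [h0]
    exact Nat.zero_le _

theorem build (N0 : ℕ) : ∃ C4 K0 : ℕ, ∀ (κ u w c : ℕ → ℕ) (B : ℕ → Set ℕ), K0 ≤ κ 0 →
    (∀ i, κ i + K0 ≤ κ (i + 1)) → (∀ i, 8 * κ i + u i = 8 * κ (i + 1) + (N0 + 80)) →
    Monotone u → Monotone c → (∀ i n, rA (B i) n ≤ c i * (Nat.log 2 n + 1)) →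
    (∀ i, 32 * u i ≤ κ i) → (∀ i, 2 ^ w i * ((Lg (u i)) ^ 2 * (c i * (u i + 2))) ≤ κ i) →
    (∀ i, 64 * w i ≤ κ i ∧ 2 ^ w i ≤ κ i) → (∀ i, CovP (B i) N0) → ∃ A : Set ℕ,
      (∀ n, rA A n = 0 ∨ ∃ i, 2 ^ (8 * κ i) ≤ n ∧
        (rA A n : ℝ) ≤ C4 * (κ i / ((w i + 1 : ℕ) : ℝ))) ∧
      (∀ i l n ρ : ℕ, 2 ^ (8 * κ i + l) ≤ n → n < 2 ^ (8 * κ i + l + 1) →
        8 * κ i + l < 8 * κ (i + 1) → K0 ≤ l →
        (∀ x, 2 ^ (l - 10) ≤ x → x < 2 ^ (l + 1) → rA (B i) x ≤ ρ) →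
        (rA A n : ℝ) ≤ C4 * ((Lg (u i)) ^ 2 * ρ + κ i / l)) ∧
      ∃ N1, CovP A N1 := by
  obtain ⟨C, hC⟩ := base_exists
  have hM : BlockMom C := block_mom C
  have hR : BlockRange C := block_range C
  obtain ⟨a0, ha0⟩ : ∃ a0, a0 = N0 + 80 := ⟨_, rfl⟩
  obtain ⟨J, hJ⟩ : ∃ J, J = a0 + C + 13 := ⟨_, rfl⟩
  obtain ⟨C4, K0, hmain⟩ := tw_set C J hM hR (reg_prob C hM hR)
  refine ⟨C4, K0 + C + J + 32, ?_⟩
  intro κ u w c B hκ0 hκs hu humono hcmono hrepB hule hρle hwle hcov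
  rw [← ha0] at hu
  have hκlow : ∀ i, K0 + C + J + 32 + i ≤ κ i := by
    intro i
    induction i with
    | zero => exact hκ0
    | succ i ih =>
      have := hκs i
      omega
  have hκmono : Monotone κ := monotone_nat_of_le_succ (fun i => by have := hκs i; omega)
  -- primes
  have h1 : ∀ i : ℕ, ∃ p : ℕ, p.Prime ∧ 2 ^ (κ i) < p ∧ p ≤ 2 ^ (κ i + 1) := by
    intro i
    obtain ⟨p, hp, h1, h2⟩ := Nat.exists_prime_lt_and_le_two_mul (2 ^ (κ i))
      (pow_ne_zero _ two_ne_zero)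
    exact ⟨p, hp, h1, by rw [pow_succ 2]; omega⟩
  choose p hp hlo hhi using h1
  have h7 : ∀ i, 7 < p i := by
    intro i
    have h2 := hκlow i
    have h3 : 2 ^ 3 ≤ 2 ^ (κ i) := Nat.pow_le_pow_right (by norm_num) (by omega)
    have := hlo i
    omega
  have h2 : ∀ i, ∃ D : Finset ℕ, IsBase C (p i) D := fun i => hC (p i) (hp i) (h7 i)
  choose D hD using h2
  obtain ⟨s, hsB, hsκ, hsu, hsw⟩ : ∃ s : TSys C J, (∀ i, s.B i = cut (B i) (u i)) ∧
      (∀ i, s.κ i = κ i) ∧ (∀ i, s.u i = u i) ∧ (∀ i, s.w i = w i) := by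
    refine ⟨⟨p, D, fun i => cut (B i) (u i), κ, u, fun i => c i * (u i + 2), w, hp, hlo, hhi, hD,
      ?_, ?_, ?_, humono, ?_, ?_, hule, hρle, hwle, ?_, ?_⟩, fun i => rfl, fun i => rfl,
      fun i => rfl, fun i => rfl⟩
    · intro i b hb
      exact (mem_cut.1 hb).1
    · intro i n
      exact cut_rep' (hrepB i) _ n
    · intro i j hij
      exact Nat.mul_le_mul (hcmono hij) (Nat.add_le_add_right (humono hij) _)
    · intro i
      have := hκs i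
      omega
    · intro i
      have := hu i
      omega
    · intro i
      have := hκlow i
      omega
    · intro i
      have := hκlow i
      omega
  obtain ⟨A, hA1, hA2, hA3⟩ := hmain s (fun i => by
      rw [hsκ i]
      have := hκlow i
      omega)
  refine ⟨A, ?_, ?_, ?_⟩
  · intro n
    rcases hA1 n with h | ⟨i, hi1, hi2⟩
    · exact Or.inl h
    · rw [hsκ i] at hi1 hi2
      rw [hsw i] at hi2
      exact Or.inr ⟨i, hi1, hi2⟩
  · intro i l n ρ hn1 hn2 hl hl0 hρ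
    have hb := hA2 i l n ρ (by rw [hsκ i]; exact hn1) (by rw [hsκ i]; exact hn2)
      (by rw [hsκ i, hsκ (i + 1)]; exact hl) (by omega) (fun x hx1 hx2 => by
        rw [hsB i]
        exact (repF_le_rA (fun b hb => (mem_cut.1 hb).2) x).trans (hρ x hx1 hx2))
    rw [hsu i, hsκ i] at hb
    exact hb
  · refine ⟨2 ^ (8 * κ 0 + a0), fun n hn => ?_⟩
    have hn0 : n ≠ 0 := by
      have : 0 < 2 ^ (8 * κ 0 + a0) := by positivity
      omega
    have hex : ∃ i, n < 2 ^ (8 * κ i + a0) := by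
      refine ⟨n, lt_of_lt_of_le Nat.lt_two_pow_self (Nat.pow_le_pow_right (by norm_num) ?_)⟩
      have := hκlow n
      omega
    classical
    obtain ⟨m, hm, hmin⟩ : ∃ m, n < 2 ^ (8 * κ m + a0) ∧ ∀ i < m, ¬ n < 2 ^ (8 * κ i + a0) :=
      ⟨Nat.find hex, Nat.find_spec hex, fun i hi => Nat.find_min hex hi⟩
    have hm0 : m ≠ 0 := by
      rintro rfl
      omega
    obtain ⟨i, rfl⟩ := Nat.exists_eq_succ_of_ne_zero hm0
    have hi : 2 ^ (8 * κ i + a0) ≤ n := not_lt.1 (hmin i (Nat.lt_succ_self i))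
    have hpm := s.pow_le i
    rw [hsκ i] at hpm
    have hp0 : 0 < (s.p i) ^ 8 := pow_pos (s.prime i).pos 8
    have hm' : n < 2 ^ (8 * κ i + u i) := by
      rw [hu i]
      exact hm
    obtain ⟨a, ha, b, hb, hab, ha2, hb2⟩ := hA3 i n N0 (B i) (by rw [hsB i, hsu i]) (hcov i) (by
      rw [Nat.le_div_iff_mul_le hp0]
      have e1 : 2 ^ 64 + 2 * N0 + 11 ≤ 2 ^ (N0 + 72) := by
        have f1 : N0 < 2 ^ N0 := Nat.lt_two_pow_self
        have f2 : 2 ^ (N0 + 72) = 2 ^ 72 * 2 ^ N0 := by ring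
        rw [f2]
        norm_num
        omega
      calc (2 ^ 64 + 2 * N0 + 11) * (s.p i) ^ 8
          ≤ 2 ^ (N0 + 72) * 2 ^ (8 * κ i + 8) := Nat.mul_le_mul e1 hpm.2
        _ = 2 ^ (8 * κ i + a0) := by rw [← pow_add, ha0]; congr 1; omega
        _ ≤ n := hi) (by
      rw [Nat.div_lt_iff_lt_mul hp0, hsu i]
      calc n < 2 ^ (8 * κ i + u i) := hm'
        _ = 2 ^ u i * 2 ^ (8 * κ i) := by rw [← pow_add]; congr 1; omega
        _ ≤ 2 ^ u i * (s.p i) ^ 8 := Nat.mul_le_mul_left _ hpm.1)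
    rw [hsκ i] at ha2 hb2
    have hsq : ∀ y, 2 ^ (8 * κ i) ≤ y → n ≤ y ^ 2 := by
      intro y hy
      have e1 := hule i
      calc n ≤ 2 ^ (8 * κ i + u i) := hm'.le
        _ ≤ 2 ^ (8 * κ i * 2) := Nat.pow_le_pow_right (by norm_num) (by omega)
        _ = (2 ^ (8 * κ i)) ^ 2 := pow_mul _ _ _
        _ ≤ y ^ 2 := Nat.pow_le_pow_left hy 2
    exact ⟨a, ha, b, hb, hab, hsq a ha2, hsq b hb2⟩

end Pool.Agent.Helper667_QS
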