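import Pool.Agent.Helper667_QS.Fin

/-!
# Residue classes of twisted wide blocks
-/

set_option autoImplicit false

namespace Pool.Agent.Helper667_QS

open Finset Pool.Agent.H125R2.ET Pool.Agent.Helper667_AS

theorem card_of_modEq {S T : Finset ℕ} {M N : ℕ} (hN : ∀ c, (S.filter (fun s => s % M = c)).card ≤ N)
    (hT : T ⊆ S) (h : ∀ s ∈ T, ∀ s' ∈ T, s ≡ s' [MOD M]) : T.card ≤ N := by
  rcases T.eq_empty_or_nonempty with he | ⟨s0, hs0⟩
  · rw [he]; simp
  · refine (card_le_card ?_).trans (hN (s0 % M))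
    intro s hs
    exact mem_filter.2 ⟨hT hs, h s hs s0 hs0⟩

theorem coprime_pow_three {P t : ℕ} (hP : Nat.Coprime P 3) : Nat.Coprime P (3 ^ t) :=
  Nat.Coprime.pow_right t hP

/-- the elements `s` of a block for which `s + m (b + (s mod 3 ^ t))` is in a given class -/
theorem fib_class {m P e t b c0 N : ℕ} {S : Finset ℕ} (hm : m % 3 = 1) (hP : Nat.Coprime P 3)
    (hN : ∀ c, (S.filter (fun s => s % (P * 3 ^ (max t e)) = c)).card ≤ N) :
    (S.filter (fun s => (s + m * (b + s % 3 ^ t)) % (P * 3 ^ e) = c0)).card ≤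
      2 * 3 ^ (t - e) * N := by
  classical
  set F := S.filter (fun s => (s + m * (b + s % 3 ^ t)) % (P * 3 ^ e) = c0) with hF
  set R := F.image (fun s => s % 3 ^ t) with hR
  have h3t : 0 < 3 ^ t := by positivity
  have hmin : min t e ≤ t := min_le_left _ _
  have hmod : ∀ r ∈ R, ∀ r' ∈ R, r % 3 ^ (min t e) = r' % 3 ^ (min t e) := by
    intro r hr r' hr'
    rw [hR, mem_image] at hr hr'
    obtain ⟨s, hs, rfl⟩ := hr
    obtain ⟨s', hs', rfl⟩ := hr'
    rw [hF, mem_filter] at hs hs'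
    have e1 : s + m * (b + s % 3 ^ t) ≡ s' + m * (b + s' % 3 ^ t) [MOD P * 3 ^ e] :=
      hs.2.trans hs'.2.symm
    have e2 : s + m * (b + s % 3 ^ t) ≡ s' + m * (b + s' % 3 ^ t) [MOD 3 ^ (min t e)] :=
      e1.of_dvd (Dvd.dvd.mul_left (pow_dvd_pow 3 (min_le_right _ _)) P)
    have e3 : s % 3 ^ t ≡ s [MOD 3 ^ (min t e)] :=
      (Nat.mod_modEq s (3 ^ t)).of_dvd (pow_dvd_pow 3 hmin)
    have e4 : s' % 3 ^ t ≡ s' [MOD 3 ^ (min t e)] :=
      (Nat.mod_modEq s' (3 ^ t)).of_dvd (pow_dvd_pow 3 hmin)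
    have e5 : (1 + m) * (s % 3 ^ t) + m * b ≡ (1 + m) * (s' % 3 ^ t) + m * b
        [MOD 3 ^ (min t e)] := by
      have f1 : (1 + m) * (s % 3 ^ t) + m * b = s % 3 ^ t + m * (b + s % 3 ^ t) := by ring
      have f2 : (1 + m) * (s' % 3 ^ t) + m * b = s' % 3 ^ t + m * (b + s' % 3 ^ t) := by ring
      rw [f1, f2]
      exact (e3.add_right _).trans (e2.trans (e4.symm.add_right _))
    have e6 := Nat.ModEq.add_right_cancel' _ e5
    refine Nat.ModEq.cancel_left_of_coprime ?_ e6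
    have f3 : Nat.Coprime 3 (1 + m) := (Nat.Prime.coprime_iff_not_dvd Nat.prime_three).2 (by omega)
    exact Nat.Coprime.pow_left _ f3
  have hRc : R.card ≤ 2 * 3 ^ (t - e) := by
    have h1 : R.card ≤ 3 ^ t / 3 ^ (min t e) + 1 := by
      refine card_le_of_modEq (N := 3 ^ t) (M := 3 ^ (min t e)) ?_ hmod
      intro v hv
      rw [hR, mem_image] at hv
      obtain ⟨s, -, rfl⟩ := hv
      exact Nat.mod_lt _ h3t
    rw [Nat.pow_div hmin (by norm_num)] at h1
    have h2 : t - min t e = t - e := by omega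
    rw [h2] at h1
    have h3 : 1 ≤ 3 ^ (t - e) := Nat.one_le_pow _ _ (by norm_num)
    omega
  have hsub : F ⊆ R.biUnion (fun r => F.filter (fun s => s % 3 ^ t = r)) := by
    intro s hs
    rw [mem_biUnion]
    exact ⟨s % 3 ^ t, mem_image.2 ⟨s, hs, rfl⟩, mem_filter.2 ⟨hs, rfl⟩⟩
  refine (card_le_card hsub).trans ((card_biUnion_le_card_mul _ _ N (fun r _ => ?_)).trans
    (Nat.mul_le_mul_right _ hRc))
  refine card_of_modEq hN ((filter_subset _ _).trans (filter_subset _ _)) ?_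
  intro s hs s' hs'
  rw [mem_filter, hF, mem_filter] at hs hs'
  have e1 : s + m * (b + s % 3 ^ t) ≡ s' + m * (b + s' % 3 ^ t) [MOD P * 3 ^ e] :=
    hs.1.2.trans hs'.1.2.symm
  rw [hs.2, hs'.2] at e1
  have e2 : s ≡ s' [MOD P * 3 ^ e] := Nat.ModEq.add_right_cancel' _ e1
  have e3 : s ≡ s' [MOD 3 ^ t] := hs.2.trans hs'.2.symm
  rcases le_total t e with hte | hte
  · rw [max_eq_right hte]
    exact e2
  · rw [max_eq_left hte]
    exact (Nat.modEq_and_modEq_iff_modEq_mul (coprime_pow_three hP)).1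
      ⟨e2.of_dvd (Dvd.intro _ rfl), e3⟩

theorem tw_class {m u P e L : ℕ} {B S : Finset ℕ} (N : ℕ → ℕ) (hm : m % 3 = 1)
    (hP : Nat.Coprime P 3)
    (hN : ∀ M c, (S.filter (fun s => s % (P * 3 ^ M) = c)).card ≤ N M)
    (hL : ∀ c, 16 * 2 ^ c < u → 2 * 3 ^ (2 * 2 ^ c - e) * N (max (2 * 2 ^ c) e) ≤ L) (c0 : ℕ) :
    ((tw m u B S).filter (fun v => v % (P * 3 ^ e) = c0)).card ≤ Lg u * (B.card * L) := by
  classical
  have hsub : (tw m u B S).filter (fun v => v % (P * 3 ^ e) = c0) ⊆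
      ((range (Lg u)).filter (fun c => 16 * 2 ^ c < u)).biUnion (fun c => B.biUnion (fun b =>
        (S.filter (fun s => (s + m * (b + s % 3 ^ (2 * 2 ^ c))) % (P * 3 ^ e) = c0)).image
          (fun s => s + m * (b + s % 3 ^ (2 * 2 ^ c))))) := by
    intro v hv
    rw [mem_filter, mem_tw] at hv
    obtain ⟨⟨c, hc, b, hb, s, hs, h1, h2, h3, rfl⟩, h4⟩ := hv
    rw [mem_biUnion]
    refine ⟨c, mem_filter.2 ⟨mem_range.2 hc, (TT_le_of h1 (by omega)).1⟩, ?_⟩
    rw [mem_biUnion]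
    refine ⟨b, hb, mem_image.2 ⟨s, mem_filter.2 ⟨hs, ?_⟩, ?_⟩⟩
    · rw [← TT_eq]; exact h4
    · rw [← TT_eq]
  refine (card_le_card hsub).trans ((card_biUnion_le_card_mul _ _ (B.card * L)
    (fun c hc => ?_)).trans (Nat.mul_le_mul_right _ ?_))
  · refine card_biUnion_le_card_mul _ _ _ (fun b _ => card_image_le.trans ?_)
    exact (fib_class hm hP (hN _)).trans (hL c (mem_filter.1 hc).2)
  · exact (card_filter_le _ _).trans (card_range _).le

/-- the class count of a regular block -/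
theorem tw_class_reg {C C1 p k u P e : ℕ} {B S : Finset ℕ} (hp : p.Prime) (hp3 : 3 < p)
    (hk : 0 < k) (hR : Reg C1 p k S) (hS : ∀ s ∈ S, s < (C + 4) * p ^ 8) (hP0 : 0 < P)
    (hP : Nat.Coprime P 3) (hpP : ¬ p ∣ P) (c0 : ℕ) :
    ((tw (p ^ 8) u B S).filter (fun v => v % (P * 3 ^ e) = c0)).card ≤
      Lg u * (B.card * (2 * (C1 * ((C + 4) * p ^ 4 / (P * 3 ^ e) + 2 ^ u * k)))) := by
  have hm : p ^ 8 % 3 = 1 := by
    have h1 : p % 3 ≠ 0 := by
      intro h
      have h2 : 3 ∣ p := Nat.dvd_of_mod_eq_zero h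
      have h3 := (Nat.prime_dvd_prime_iff_eq Nat.prime_three hp).1 h2
      omega
    have h2 : p % 3 < 3 := Nat.mod_lt _ (by norm_num)
    rw [Nat.pow_mod]
    interval_cases h : p % 3
    · exact absurd rfl h1
    · norm_num
    · norm_num
  refine tw_class (fun M => C1 * ((C + 4) * p ^ 4 / (P * 3 ^ M) + k)) hm hP ?_ ?_ c0
  · intro M c
    refine reg_class hR hS hp.pos hk (by positivity) ?_ c
    intro h
    rcases (Nat.Prime.dvd_mul hp).1 h with h | h
    · exact hpP h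
    · have h1 := hp.dvd_of_dvd_pow h
      have h2 := (Nat.prime_dvd_prime_iff_eq hp Nat.prime_three).1 h1
      omega
  · intro c hc
    obtain ⟨t, ht⟩ : ∃ t, t = 2 * 2 ^ c := ⟨_, rfl⟩
    have hTu : 3 ^ (t - e) ≤ 2 ^ u := by
      calc 3 ^ (t - e) ≤ 3 ^ t := Nat.pow_le_pow_right (by norm_num) (Nat.sub_le _ _)
        _ = TT c := by rw [ht, TT_eq]
        _ ≤ 2 ^ (4 * 2 ^ c) := TT_le c
        _ ≤ 2 ^ u := Nat.pow_le_pow_right (by norm_num) (by omega)
    rw [← ht]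
    have h1 : 3 ^ (t - e) * ((C + 4) * p ^ 4 / (P * 3 ^ (max t e))) ≤
        (C + 4) * p ^ 4 / (P * 3 ^ e) := by
      have e1 : P * 3 ^ (max t e) = P * 3 ^ e * 3 ^ (t - e) := by
        rw [mul_assoc, ← pow_add]
        congr 2
        omega
      rw [e1, ← Nat.div_div_eq_div_mul, mul_comm]
      exact Nat.div_mul_le_self _ _
    have h2 : 3 ^ (t - e) * k ≤ 2 ^ u * k := Nat.mul_le_mul_right _ hTu
    calc 2 * 3 ^ (t - e) * (C1 * ((C + 4) * p ^ 4 / (P * 3 ^ (max t e)) + k))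
        = 2 * (C1 * (3 ^ (t - e) * ((C + 4) * p ^ 4 / (P * 3 ^ (max t e))) + 3 ^ (t - e) * k)) := by
          ring
      _ ≤ 2 * (C1 * ((C + 4) * p ^ 4 / (P * 3 ^ e) + 2 ^ u * k)) :=
          Nat.mul_le_mul_left _ (Nat.mul_le_mul_left _ (Nat.add_le_add h1 h2))

/-- the number of elements in a class of the union of the lower wide blocks -/
def lowT {C J : ℕ} (s : TSys C J) (C1 d i : ℕ) : ℕ :=
  ∑ j ∈ range i, Lg (s.u j) * ((s.B j).card *
    (2 * (C1 * ((C + 4) * (s.p j) ^ 4 / d + 2 ^ s.u j * s.κ j))))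

theorem low_cls' {C J : ℕ} (s : TSys C J) {C1 P e i : ℕ} (S : ℕ → Finset ℕ) (hP0 : 0 < P)
    (hP : Nat.Coprime P 3) (hpd : ∀ j < i, ¬ s.p j ∣ P)
    (hlt : ∀ j < i, ∀ x ∈ S j, x < (C + 4) * (s.p j) ^ 8)
    (hreg : ∀ j < i, Reg C1 (s.p j) (s.κ j) (S j)) :
    ClsLE (P * 3 ^ e) ((range i).biUnion (fun j => tw ((s.p j) ^ 8) (s.u j) (s.B j) (S j)))
      (lowT s C1 (P * 3 ^ e) i) := by
  intro c
  have hsub : ((range i).biUnion (fun j => tw ((s.p j) ^ 8) (s.u j) (s.B j) (S j))).filter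
      (fun x => x % (P * 3 ^ e) = c) ⊆
      (range i).biUnion (fun j => (tw ((s.p j) ^ 8) (s.u j) (s.B j) (S j)).filter
        (fun x => x % (P * 3 ^ e) = c)) := by
    intro x hx
    rw [mem_filter, mem_biUnion] at hx
    obtain ⟨⟨j, hj, hx1⟩, hx2⟩ := hx
    rw [mem_biUnion]
    exact ⟨j, hj, mem_filter.2 ⟨hx1, hx2⟩⟩
  refine (card_le_card hsub).trans (card_biUnion_le.trans (sum_le_sum fun j hj => ?_))
  have hj' : j < i := mem_range.1 hj
  exact tw_class_reg (s.prime j) (by have := s.Cp j; omega) (by have := s.Cκ j; omega)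
    (hreg j hj') (hlt j hj') hP0 hP (hpd j hj') c

/-- the elements of `n - V` with the right residue modulo the modulus of the twist -/
def Zs (V B : Finset ℕ) (n z c : ℕ) : Finset ℕ :=
  (refl n V).filter (fun y => y % TT c ≤ z ∧ z - y % TT c ∈ B)

theorem cls_filter {M g : ℕ} {V : Finset ℕ} (Q : ℕ → Prop) [DecidablePred Q] (h : ClsLE M V g) :
    ClsLE M (V.filter Q) g := by
  intro c
  refine (card_le_card ?_).trans (h c)
  exact filter_subset_filter _ (filter_subset _ _)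

theorem cls_Zs {V B : Finset ℕ} {P n z c g : ℕ} (hP : Nat.Coprime P 3)
    (hV : ClsLE (P * TT c) V g) : ClsLE P (Zs V B n z c)
      (((range (TT c)).filter (fun t => t ≤ z ∧ z - t ∈ B)).card * g) := by
  classical
  intro a
  have hsub : (Zs V B n z c).filter (fun y => y % P = a) ⊆
      ((range (TT c)).filter (fun t => t ≤ z ∧ z - t ∈ B)).biUnion (fun t =>
        (refl n V).filter (fun y => y % P = a ∧ y % TT c = t)) := by
    intro y hy
    unfold Zs at hy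
    rw [mem_filter, mem_filter] at hy
    rw [mem_biUnion]
    exact ⟨y % TT c, mem_filter.2 ⟨mem_range.2 (Nat.mod_lt _ (TT_pos c)), hy.1.2⟩,
      mem_filter.2 ⟨hy.1.1, hy.2, rfl⟩⟩
  refine (card_le_card hsub).trans (card_biUnion_le_card_mul _ _ _ (fun t _ => ?_))
  refine card_of_modEq (T15_cls_refl hV n) (filter_subset _ _) ?_
  intro y hy y' hy'
  rw [mem_filter] at hy hy'
  have hcop : Nat.Coprime P (TT c) := by
    rw [TT_eq]
    exact coprime_pow_three hP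
  exact (Nat.modEq_and_modEq_iff_modEq_mul hcop).1
    ⟨hy.2.1.trans hy'.2.1.symm, hy.2.2.trans hy'.2.2.symm⟩

end Pool.Agent.Helper667_QS
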