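import Pool.Agent.Helper667_QS.Step2

/-!
# Preparations for the diagonal construction
-/

set_option autoImplicit false

namespace Pool.Agent.Helper667_QS

open Finset Pool.Agent.H125R2.ET Pool.Agent.Helper667_AS

theorem rA_union (A : Set ℕ) (M n : ℕ) :
    rA (A ∪ {x | x ≤ M}) n ≤ rA A n + 2 * (M + 1) := by
  classical
  unfold rA
  have hsub : {x : ℕ × ℕ | x.1 ∈ A ∪ {x | x ≤ M} ∧ x.2 ∈ A ∪ {x | x ≤ M} ∧ x.1 + x.2 = n} ⊆
      {x : ℕ × ℕ | x.1 ∈ A ∧ x.2 ∈ A ∧ x.1 + x.2 = n} ∪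
      (((fun k => ((k, n - k) : ℕ × ℕ)) '' (↑(range (M + 1)) : Set ℕ)) ∪
       ((fun k => ((n - k, k) : ℕ × ℕ)) '' (↑(range (M + 1)) : Set ℕ))) := by
    rintro ⟨a, b⟩ ⟨h1, h2, h3⟩
    have h3' : a + b = n := h3
    rcases h1 with h1 | h1
    · rcases h2 with h2 | h2
      · exact Or.inl ⟨h1, h2, h3⟩
      · have hb : b ≤ M := h2
        refine Or.inr (Or.inr ⟨b, ?_, ?_⟩)
        · rw [mem_coe, mem_range]
          omega
        · have : n - b = a := by omega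
          simp only [this]
    · have ha : a ≤ M := h1
      refine Or.inr (Or.inl ⟨a, ?_, ?_⟩)
      · rw [mem_coe, mem_range]
        omega
      · have : n - a = b := by omega
        simp only [this]
  have f1 : (((fun k => ((k, n - k) : ℕ × ℕ)) '' (↑(range (M + 1)) : Set ℕ))).Finite :=
    (range (M + 1)).finite_toSet.image _
  have f2 : (((fun k => ((n - k, k) : ℕ × ℕ)) '' (↑(range (M + 1)) : Set ℕ))).Finite :=
    (range (M + 1)).finite_toSet.image _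
  have hfin := (repset_finite A n).union (f1.union f2)
  have e0 := Set.ncard_le_ncard hsub hfin
  have e1 := Set.ncard_union_le {x : ℕ × ℕ | x.1 ∈ A ∧ x.2 ∈ A ∧ x.1 + x.2 = n}
    (((fun k => ((k, n - k) : ℕ × ℕ)) '' (↑(range (M + 1)) : Set ℕ)) ∪
       ((fun k => ((n - k, k) : ℕ × ℕ)) '' (↑(range (M + 1)) : Set ℕ)))
  have e2 := Set.ncard_union_le ((fun k => ((k, n - k) : ℕ × ℕ)) '' (↑(range (M + 1)) : Set ℕ))
       ((fun k => ((n - k, k) : ℕ × ℕ)) '' (↑(range (M + 1)) : Set ℕ))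
  have e3 : ((fun k => ((k, n - k) : ℕ × ℕ)) '' (↑(range (M + 1)) : Set ℕ)).ncard ≤ M + 1 := by
    refine (Set.ncard_image_le (range (M + 1)).finite_toSet).trans ?_
    rw [Set.ncard_coe_finset, card_range]
  have e4 : ((fun k => ((n - k, k) : ℕ × ℕ)) '' (↑(range (M + 1)) : Set ℕ)).ncard ≤ M + 1 := by
    refine (Set.ncard_image_le (range (M + 1)).finite_toSet).trans ?_
    rw [Set.ncard_coe_finset, card_range]
  omega

theorem lc_le_lc {a g f c f' c' : ℕ} {A B : Set ℕ}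
    (h : ∀ k, Loud a g f' c' B k → Loud a g f c A k) (K : ℕ) :
    lc a g f' c' B K ≤ lc a g f c A K := by
  classical
  unfold lc
  refine card_le_card (fun k hk => ?_)
  rw [mem_filter] at hk ⊢
  exact ⟨hk.1, h k hk.2⟩

theorem add_pow_le2 (x y D : ℕ) : (x + y) ^ D ≤ 2 ^ D * (x ^ D + y ^ D) := by
  rcases le_total x y with h | h
  · calc (x + y) ^ D ≤ (2 * y) ^ D := Nat.pow_le_pow_left (by omega) D
      _ = 2 ^ D * y ^ D := mul_pow _ _ _
      _ ≤ _ := Nat.mul_le_mul_left _ (Nat.le_add_left _ _)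
  · calc (x + y) ^ D ≤ (2 * x) ^ D := Nat.pow_le_pow_left (by omega) D
      _ = 2 ^ D * x ^ D := mul_pow _ _ _
      _ ≤ _ := Nat.mul_le_mul_left _ (Nat.le_add_right _ _)

theorem qall_zero (d : ℕ) (hd : 2 ≤ d) : ∃ (B : Set ℕ) (c F : ℕ),
    (∀ n, rA B n ≤ c * (Nat.log 2 n + 1)) ∧ CovP B 6 ∧
    (∀ a g, 2 ≤ a → a + g = d → ∀ K, (lc a g F c B K) ^ d ≤ c * K ^ (g + 1)) := by
  classical
  obtain ⟨A, c, hA⟩ := qall_exists d hd
  obtain ⟨N0, hN0⟩ := hA.cov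
  have h : ∀ a, ∃ f c, 2 ≤ a → a ≤ d →
      ∀ K, (lc a (d - a) f c A K) ^ d ≤ c * K ^ (d - a + 1) := by
    intro a
    by_cases h : 2 ≤ a ∧ a ≤ d
    · obtain ⟨f, c', h'⟩ := hA.few a (d - a) h.1 (by omega)
      refine ⟨f, c', fun _ _ K => ?_⟩
      have := h' K
      rwa [show a + (d - a) = d by omega] at this
    · exact ⟨0, 0, fun h1 h2 => absurd ⟨h1, h2⟩ h⟩
  choose ff cc hfc using h
  obtain ⟨F, hF⟩ : ∃ F, F = ∑ a ∈ range (d + 1), ff a := ⟨_, rfl⟩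
  obtain ⟨C, hC⟩ : ∃ C, C = ∑ a ∈ range (d + 1), cc a := ⟨_, rfl⟩
  obtain ⟨E, hE⟩ : ∃ E, E = 2 * (N0 + 1) := ⟨_, rfl⟩
  obtain ⟨C', hC'⟩ : ∃ C', C' = 2 ^ d * (C + E ^ d) + (c + E) := ⟨_, rfl⟩
  have hrep : ∀ n, rA (A ∪ {x | x ≤ N0}) n ≤ rA A n + E := by
    intro n
    rw [hE]
    exact rA_union A N0 n
  refine ⟨A ∪ {x | x ≤ N0}, C', F, ?_, ?_, ?_⟩
  · intro n
    have h1 := hA.rep' n
    have h2 := hrep n
    calc rA (A ∪ {x | x ≤ N0}) n ≤ c * (Nat.log 2 n + 1) + E := by omega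
      _ ≤ c * (Nat.log 2 n + 1) + E * (Nat.log 2 n + 1) :=
          Nat.add_le_add_left (Nat.le_mul_of_pos_right _ (by omega)) _
      _ = (c + E) * (Nat.log 2 n + 1) := by ring
      _ ≤ C' * (Nat.log 2 n + 1) := Nat.mul_le_mul_right _ (by omega)
  · intro N hN
    by_cases h : N0 ≤ N
    · obtain ⟨a, ha, b, hb, h'⟩ := hN0 N h
      exact ⟨a, Or.inl ha, b, Or.inl hb, h'⟩
    · refine ⟨N / 2, Or.inr (show N / 2 ≤ N0 by omega), N - N / 2,
        Or.inr (show N - N / 2 ≤ N0 by omega), by omega, ?_, ?_⟩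
      · obtain ⟨q, hq⟩ : ∃ q, q = N / 2 := ⟨_, rfl⟩
        rw [← hq]
        have h1 : 3 ≤ q := by omega
        have h2 : N ≤ 3 * q := by omega
        nlinarith
      · obtain ⟨q, hq⟩ : ∃ q, q = N - N / 2 := ⟨_, rfl⟩
        rw [← hq]
        have h1 : 3 ≤ q := by omega
        have h2 : N ≤ 3 * q := by omega
        nlinarith
  · intro a g ha hag K
    have hgd : g = d - a := by omega
    have hff : ff a ≤ F := by
      rw [hF]
      exact single_le_sum (f := ff) (fun _ _ => Nat.zero_le _) (mem_range.2 (by omega))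
    have hcc : cc a ≤ C := by
      rw [hC]
      exact single_le_sum (f := cc) (fun _ _ => Nat.zero_le _) (mem_range.2 (by omega))
    have hstep : lc a g F C' (A ∪ {x | x ≤ N0}) K ≤ lc a g (ff a) (cc a) A K := by
      refine lc_le_lc (fun k hk => ?_) K
      obtain ⟨n, hn1, hn2, hn3⟩ := hk
      refine ⟨n, hn1, hn2, ?_⟩
      rw [hag] at hn3 ⊢
      obtain ⟨X, hX⟩ : ∃ X, X = (Lg k) ^ F * (k + 1) ^ a := ⟨_, rfl⟩
      have hL := one_le_Lg k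
      have hX1 : 1 ≤ X := by
        rw [hX]
        exact Nat.succ_le_of_lt (Nat.mul_pos (pow_pos hL _) (by positivity))
      have hYX : (Lg k) ^ (ff a) * (k + 1) ^ a ≤ X := by
        rw [hX]
        exact Nat.mul_le_mul_right _ (Nat.pow_le_pow_right hL hff)
      rw [← hX] at hn3
      have e1 : (rA (A ∪ {x | x ≤ N0}) n) ^ d ≤ 2 ^ d * ((rA A n) ^ d + E ^ d) :=
        (Nat.pow_le_pow_left (hrep n) d).trans (add_pow_le2 _ _ _)
      have e2 : 2 ^ d * ((C + E ^ d) * X) < 2 ^ d * ((rA A n) ^ d + E ^ d) := by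
        refine lt_of_le_of_lt ?_ (lt_of_lt_of_le hn3 e1)
        rw [← mul_assoc]
        exact Nat.mul_le_mul_right _ (by omega)
      have e3 : (C + E ^ d) * X < (rA A n) ^ d + E ^ d := Nat.lt_of_mul_lt_mul_left e2
      have e4 : E ^ d * 1 ≤ E ^ d * X := Nat.mul_le_mul_left _ hX1
      have e5 : (C + E ^ d) * X = C * X + E ^ d * X := by ring
      have e6 : cc a * ((Lg k) ^ (ff a) * (k + 1) ^ a) ≤ C * X := Nat.mul_le_mul hcc hYX
      omega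
    calc (lc a g F C' (A ∪ {x | x ≤ N0}) K) ^ d ≤ (lc a g (ff a) (cc a) A K) ^ d :=
          Nat.pow_le_pow_left hstep d
      _ ≤ cc a * K ^ (g + 1) := by
          rw [hgd]
          exact hfc a ha (by omega) K
      _ ≤ C' * K ^ (g + 1) := by
          refine Nat.mul_le_mul_right _ ?_
          have h1 : C ≤ 2 ^ d * (C + E ^ d) := by
            calc C ≤ C + E ^ d := Nat.le_add_right _ _
              _ ≤ 2 ^ d * (C + E ^ d) := Nat.le_mul_of_pos_left _ (by positivity)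
          omega

/-! ### roots -/

theorem exists_root (X M : ℕ) (hM : 1 ≤ M) : ∃ z, X ≤ z ^ M ∧ z ^ M ≤ 2 ^ M * (X + 1) := by
  classical
  have hex : ∃ z, X ≤ z ^ M := ⟨X, Nat.le_self_pow (by omega) X⟩
  obtain ⟨z, hz, hmin⟩ : ∃ z, X ≤ z ^ M ∧ ∀ y < z, ¬ X ≤ y ^ M :=
    ⟨Nat.find hex, Nat.find_spec hex, fun y hy => Nat.find_min hex hy⟩
  refine ⟨z, hz, ?_⟩
  rcases Nat.eq_zero_or_pos z with h0 | h0
  · subst h0
    rw [zero_pow (by omega)]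
    exact Nat.zero_le _
  · obtain ⟨y, rfl⟩ : ∃ y, z = y + 1 := ⟨z - 1, by omega⟩
    have h1 := hmin y (by omega)
    have h2 := add_pow_le2 y 1 M
    rw [one_pow] at h2
    exact h2.trans (Nat.mul_le_mul_left _ (by omega))

theorem exists_floor_root (R d : ℕ) (hd : 1 ≤ d) : ∃ ρ, ρ ^ d ≤ R ∧ ∀ r, r ^ d ≤ R → r ≤ ρ := by
  classical
  refine ⟨Nat.findGreatest (fun r => r ^ d ≤ R) R, ?_, ?_⟩
  · refine Nat.findGreatest_spec (P := fun r => r ^ d ≤ R) (Nat.zero_le R) ?_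
    rw [zero_pow (by omega)]
    exact Nat.zero_le _
  · intro r hr
    exact Nat.le_findGreatest ((Nat.le_self_pow (by omega) r).trans hr) hr

theorem pow_succ_diff (e n : ℕ) : (e + 1) ^ (n + 1) ≤ e ^ (n + 1) + (n + 1) * (e + 1) ^ n := by
  induction n with
  | zero => simp
  | succ n ih =>
    have h1 : (e + 1) ^ (n + 1 + 1) = e * (e + 1) ^ (n + 1) + (e + 1) ^ (n + 1) := by ring
    have h2 : e * (e + 1) ^ (n + 1) ≤ e * (e ^ (n + 1) + (n + 1) * (e + 1) ^ n) :=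
      Nat.mul_le_mul_left _ ih
    have h3 : e * (e ^ (n + 1) + (n + 1) * (e + 1) ^ n) =
        e ^ (n + 1 + 1) + (n + 1) * (e * (e + 1) ^ n) := by ring
    have h4 : e * (e + 1) ^ n ≤ (e + 1) * (e + 1) ^ n := Nat.mul_le_mul_right _ (by omega)
    have h5 : (n + 1) * (e * (e + 1) ^ n) ≤ (n + 1) * ((e + 1) * (e + 1) ^ n) :=
      Nat.mul_le_mul_left _ h4
    have h6 : (n + 1) * ((e + 1) * (e + 1) ^ n) + (e + 1) ^ (n + 1) =
        (n + 1 + 1) * (e + 1) ^ (n + 1) := by ring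
    omega

/-! ### the widths -/

/-- the square root of the logarithm -/
def sa (κ : ℕ) : ℕ := Nat.sqrt (Nat.log 2 κ)

/-- the width -/
def Dd (κ : ℕ) : ℕ := 2 ^ (Nat.log 2 κ - sa κ)

theorem sa_le (κ : ℕ) : sa κ ≤ Nat.log 2 κ := Nat.sqrt_le_self _

theorem sa_mono {x y : ℕ} (h : x ≤ y) : sa x ≤ sa y :=
  Nat.sqrt_le_sqrt (Nat.log_mono_right h)

theorem sqrt_sub_mono (a : ℕ) : a - Nat.sqrt a ≤ (a + 1) - Nat.sqrt (a + 1) := by
  have h : Nat.sqrt (a + 1) ≤ Nat.sqrt a + 1 := by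
    rw [← Nat.lt_succ_iff, Nat.sqrt_lt']
    have := Nat.sqrt_lt' (m := a) (n := Nat.sqrt a + 1)
    have h2 : a < (Nat.sqrt a + 1) ^ 2 := this.1 (Nat.lt_succ_self _)
    have h3 : (Nat.sqrt a + 1 + 1) ^ 2 = (Nat.sqrt a + 1) ^ 2 + 2 * (Nat.sqrt a + 1) + 1 := by ring
    show a + 1 < (Nat.sqrt a + 1 + 1) ^ 2
    omega
  have h1 := Nat.sqrt_le_self a
  omega

theorem Dd_mono {x y : ℕ} (h : x ≤ y) : Dd x ≤ Dd y := by
  have hm : Monotone (fun a => a - Nat.sqrt a) := monotone_nat_of_le_succ sqrt_sub_mono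
  unfold Dd sa
  exact Nat.pow_le_pow_right (by norm_num) (hm (Nat.log_mono_right h))

theorem Dd_mul (κ : ℕ) : Dd κ * 2 ^ sa κ = 2 ^ Nat.log 2 κ := by
  unfold Dd
  rw [← pow_add]
  congr 1
  have := sa_le κ
  omega

theorem Dd_mul_le {κ : ℕ} (h : κ ≠ 0) : Dd κ * 2 ^ sa κ ≤ κ := by
  rw [Dd_mul]
  exact Nat.pow_log_le_self 2 h

theorem Dd_pos (κ : ℕ) : 1 ≤ Dd κ := Nat.one_le_pow _ _ (by norm_num)

theorem lt_Dd_mul (κ : ℕ) : κ < 2 * (Dd κ * 2 ^ sa κ) := by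
  rw [Dd_mul]
  have := Nat.lt_pow_succ_log_self (b := 2) (by norm_num) κ
  rw [pow_succ] at this
  omega

theorem two_pow_sa_sq {κ : ℕ} (h : κ ≠ 0) : 2 ^ (sa κ * sa κ) ≤ κ := by
  refine le_trans (Nat.pow_le_pow_right (by norm_num) ?_) (Nat.pow_log_le_self 2 h)
  exact Nat.sqrt_le _

theorem Lg_le_sa (κ : ℕ) : Lg κ ≤ (sa κ + 1) ^ 2 := by
  unfold Lg sa
  have := Nat.lt_succ_sqrt (Nat.log 2 κ)
  have h : (Nat.sqrt (Nat.log 2 κ) + 1) ^ 2 =
    (Nat.sqrt (Nat.log 2 κ)).succ * (Nat.sqrt (Nat.log 2 κ)).succ := by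
    rw [Nat.succ_eq_add_one]; ring
  omega

theorem le_sa {S κ : ℕ} (h : 2 ^ (S * S) ≤ κ) : S ≤ sa κ := by
  unfold sa
  rw [Nat.le_sqrt]
  exact Nat.le_log_of_pow_le (by norm_num) h

theorem poly_le_sa (X f : ℕ) : ∃ N, ∀ s ≥ N, X * (s + 1) ^ f ≤ 2 ^ (s / 2) := by
  obtain ⟨N, hN⟩ := pow_le_two_pow (f + 2)
  refine ⟨2 * (N + X * 2 ^ (f + 1) + 4), fun s hs => ?_⟩
  obtain ⟨t, ht⟩ : ∃ t, t = s / 2 := ⟨_, rfl⟩
  rw [← ht]
  have h1 : N + X * 2 ^ (f + 1) + 4 ≤ t := by omega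
  have h2 : s + 1 ≤ 2 * (t + 1) := by omega
  have h3 : (t + 1) ^ (f + 2) ≤ 2 ^ (t + 1) := hN (t + 1) (by omega)
  have h4 : 2 * (X * (s + 1) ^ f) ≤ 2 * 2 ^ t := by
    calc 2 * (X * (s + 1) ^ f) ≤ 2 * (X * (2 * (t + 1)) ^ f) :=
          Nat.mul_le_mul_left _ (Nat.mul_le_mul_left _ (Nat.pow_le_pow_left h2 f))
      _ = (X * 2 ^ (f + 1)) * 1 * (t + 1) ^ f := by rw [mul_pow]; ring
      _ ≤ (t + 1) * (t + 1) * (t + 1) ^ f :=
          Nat.mul_le_mul_right _ (Nat.mul_le_mul (by omega) (by omega))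
      _ = (t + 1) ^ (f + 2) := by ring
      _ ≤ 2 ^ (t + 1) := h3
      _ = 2 * 2 ^ t := by ring
  omega

end Pool.Agent.Helper667_QS
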