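import Pool.Agent.Helper667_QS.Diag1

/-!
# The thresholds and the bounds of one window
-/

set_option autoImplicit false

namespace Pool.Agent.Helper667_QS

open Finset Pool.Agent.H125R2.ET Pool.Agent.Helper667_AS

theorem thresholds (C4 : ℕ) (cb cc F : ℕ → ℕ) : ∃ μ : ℕ → ℕ, Monotone μ ∧
    (∀ m, ∃ S, ∀ s ≥ S, m ≤ μ s) ∧
    ∃ S0, ∀ s ≥ S0, 96 * cb (μ s) * (s + 1) ^ 4 ≤ 2 ^ (s / 2) ∧
      cc (μ s) * (s + 1) ^ (2 * F (μ s)) ≤ 2 ^ (s / 2) ∧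
      (4 * C4) ^ (μ s + 2) * (s + 1) ^ (4 * (μ s + 2)) ≤ 2 ^ (s / 2) := by
  have h1 : ∀ m, ∃ N, ∀ s ≥ N, 96 * cb m * (s + 1) ^ 4 ≤ 2 ^ (s / 2) := fun m => poly_le_sa _ _
  have h2 : ∀ m, ∃ N, ∀ s ≥ N, cc m * (s + 1) ^ (2 * F m) ≤ 2 ^ (s / 2) := fun m => poly_le_sa _ _
  have h3 : ∀ m, ∃ N, ∀ s ≥ N, (4 * C4) ^ (m + 2) * (s + 1) ^ (4 * (m + 2)) ≤ 2 ^ (s / 2) :=
    fun m => poly_le_sa _ _
  choose N1 hN1 using h1
  choose N2 hN2 using h2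
  choose N3 hN3 using h3
  obtain ⟨Th, hTh⟩ : ∃ Th : ℕ → ℕ, ∀ m, Th m = ∑ k ∈ range (m + 1), (N1 k + N2 k + N3 k) :=
    ⟨_, fun _ => rfl⟩
  have hle : ∀ m, N1 m + N2 m + N3 m ≤ Th m := by
    intro m
    rw [hTh]
    exact single_le_sum (f := fun k => N1 k + N2 k + N3 k) (fun _ _ => Nat.zero_le _)
      (mem_range.2 (Nat.lt_succ_self m))
  refine ⟨fun s => Nat.findGreatest (fun m => Th m ≤ s) s, ?_, ?_, Th 0, ?_⟩
  · intro s s' h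
    exact Nat.findGreatest_mono (fun m (hm : Th m ≤ s) => hm.trans h) h
  · intro m
    refine ⟨m + Th m, fun s hs => ?_⟩
    exact Nat.le_findGreatest (by omega) (show Th m ≤ s by omega)
  · intro s hs
    have h := Nat.findGreatest_spec (P := fun m => Th m ≤ s) (Nat.zero_le s) hs
    have h' : Th (Nat.findGreatest (fun m => Th m ≤ s) s) ≤ s := h
    have h'' := hle (Nat.findGreatest (fun m => Th m ≤ s) s)
    exact ⟨hN1 (Nat.findGreatest (fun m => Th m ≤ s) s) s (by omega),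
      hN2 (Nat.findGreatest (fun m => Th m ≤ s) s) s (by omega),
      hN3 (Nat.findGreatest (fun m => Th m ≤ s) s) s (by omega)⟩

theorem quiet_bound {C4 κ u s d F c M j q ρ r l Z : ℕ} (hj : 1 ≤ j) (hjM : j ≤ M) (hd : 1 ≤ d)
    (hκ : 1 ≤ κ) (hq1 : 1 ≤ q) (hq : q * M ≤ j * d) (hLu : Lg u ≤ (s + 1) ^ 2)
    (hs : 2 ^ (s / 2) * 2 ^ (s / 2) ≤ κ)
    (hT2 : c * (s + 1) ^ (2 * F) ≤ 2 ^ (s / 2))
    (hT3 : (4 * C4) ^ d * (s + 1) ^ (4 * d) ≤ 2 ^ (s / 2))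
    (hρ : ρ ^ d ≤ c * ((s + 1) ^ (2 * F) * κ ^ (q - 1)))
    (hl : 1 ≤ l) (hZl : Z ≤ l) (hZ : (2 * C4) ^ M * κ ^ (M - j) ≤ Z ^ M)
    (hr : (r : ℝ) ≤ C4 * ((Lg u : ℝ) ^ 2 * ρ + κ / l)) : r ^ M ≤ κ ^ j := by
  have hM : 1 ≤ M := by omega
  rcases le_total ((κ : ℝ) / l) ((Lg u : ℝ) ^ 2 * ρ) with h | h
  · have e1 : r ≤ 2 * C4 * ((Lg u) ^ 2 * ρ) := by
      have : (r : ℝ) ≤ 2 * C4 * ((Lg u : ℝ) ^ 2 * ρ) := by
        calc (r : ℝ) ≤ C4 * ((Lg u : ℝ) ^ 2 * ρ + κ / l) := hr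
          _ ≤ C4 * ((Lg u : ℝ) ^ 2 * ρ + (Lg u : ℝ) ^ 2 * ρ) :=
              mul_le_mul_of_nonneg_left (by linarith) (Nat.cast_nonneg _)
          _ = _ := by ring
      exact_mod_cast this
    have e2 : r ≤ (4 * C4 * (s + 1) ^ 4) * ρ := by
      calc r ≤ 2 * C4 * ((Lg u) ^ 2 * ρ) := e1
        _ ≤ 2 * C4 * (((s + 1) ^ 2) ^ 2 * ρ) :=
            Nat.mul_le_mul_left _ (Nat.mul_le_mul_right _ (Nat.pow_le_pow_left hLu 2))
        _ = 2 * C4 * (s + 1) ^ 4 * ρ := by ring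
        _ ≤ _ := Nat.mul_le_mul_right _ (Nat.mul_le_mul_right _ (by omega))
    have e3 : r ^ d ≤ κ ^ q := by
      calc r ^ d ≤ ((4 * C4 * (s + 1) ^ 4) * ρ) ^ d := Nat.pow_le_pow_left e2 d
        _ = ((4 * C4) ^ d * (s + 1) ^ (4 * d)) * ρ ^ d := by rw [mul_pow, mul_pow, ← pow_mul]
        _ ≤ 2 ^ (s / 2) * (c * ((s + 1) ^ (2 * F) * κ ^ (q - 1))) := Nat.mul_le_mul hT3 hρ
        _ = 2 ^ (s / 2) * (c * (s + 1) ^ (2 * F)) * κ ^ (q - 1) := by ring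
        _ ≤ 2 ^ (s / 2) * 2 ^ (s / 2) * κ ^ (q - 1) :=
            Nat.mul_le_mul_right _ (Nat.mul_le_mul_left _ hT2)
        _ ≤ κ * κ ^ (q - 1) := Nat.mul_le_mul_right _ hs
        _ = κ ^ q := by
            rw [← pow_succ']
            congr 1
            omega
    refine (Nat.pow_le_pow_iff_left (show d ≠ 0 by omega)).1 ?_
    calc (r ^ M) ^ d = (r ^ d) ^ M := by rw [← pow_mul, ← pow_mul, mul_comm]
      _ ≤ (κ ^ q) ^ M := Nat.pow_le_pow_left e3 M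
      _ = κ ^ (q * M) := (pow_mul _ _ _).symm
      _ ≤ κ ^ (j * d) := Nat.pow_le_pow_right hκ hq
      _ = (κ ^ j) ^ d := pow_mul _ _ _
  · have hl0 : (0 : ℝ) < l := by exact_mod_cast (by omega : 0 < l)
    have e1 : r * l ≤ 2 * C4 * κ := by
      have : (r : ℝ) * l ≤ 2 * C4 * κ := by
        have f1 : (r : ℝ) ≤ 2 * C4 * (κ / l) := by
          calc (r : ℝ) ≤ C4 * ((Lg u : ℝ) ^ 2 * ρ + κ / l) := hr
            _ ≤ C4 * (κ / l + κ / l) :=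
                mul_le_mul_of_nonneg_left (by linarith) (Nat.cast_nonneg _)
            _ = _ := by ring
        calc (r : ℝ) * l ≤ (2 * C4 * (κ / l)) * l := mul_le_mul_of_nonneg_right f1 hl0.le
          _ = 2 * C4 * κ := by field_simp
      exact_mod_cast this
    have e2 : r ^ M * l ^ M ≤ κ ^ j * l ^ M := by
      calc r ^ M * l ^ M = (r * l) ^ M := (mul_pow _ _ _).symm
        _ ≤ (2 * C4 * κ) ^ M := Nat.pow_le_pow_left e1 M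
        _ = ((2 * C4) ^ M * κ ^ (M - j)) * κ ^ j := by
            rw [mul_pow, mul_assoc, ← pow_add]
            congr 2
            omega
        _ ≤ Z ^ M * κ ^ j := Nat.mul_le_mul_right _ hZ
        _ ≤ l ^ M * κ ^ j := Nat.mul_le_mul_right _ (Nat.pow_le_pow_left hZl M)
        _ = κ ^ j * l ^ M := mul_comm _ _
    exact Nat.le_of_mul_le_mul_right e2 (by positivity)

theorem window_count {κ u d c M j q n1 : ℕ} (hjM : j ≤ M) (hd : 4 * M ≤ d) (hd1 : 1 ≤ d)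
    (hκ : 1 ≤ κ) (hcκ : c ≤ κ) (hu : u ≤ κ) (hq1 : 1 ≤ q) (hqd : q ≤ d)
    (hq : j * d < (q + 1) * M) (hn : n1 ^ d ≤ c * u ^ (d - (q - 1) + 1)) :
    n1 ^ M ≤ κ ^ (M - j + 1) := by
  obtain ⟨x, rfl⟩ : ∃ x, d = q + x := ⟨d - q, by omega⟩
  obtain ⟨y, rfl⟩ : ∃ y, M = j + y := ⟨M - j, by omega⟩
  have e0 : q + x - (q - 1) + 1 = x + 2 := by omega
  have e1 : j + y - j + 1 = y + 1 := by omega
  rw [e0] at hn
  rw [e1]
  have e2 : n1 ^ (q + x) ≤ κ ^ (x + 3) := by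
    calc n1 ^ (q + x) ≤ c * u ^ (x + 2) := hn
      _ ≤ κ * κ ^ (x + 2) := Nat.mul_le_mul hcκ (Nat.pow_le_pow_left hu _)
      _ = κ ^ (x + 3) := by ring
  have e3 : (x + 3) * (j + y) ≤ (y + 1) * (q + x) := by
    nlinarith
  refine (Nat.pow_le_pow_iff_left (show q + x ≠ 0 by omega)).1 ?_
  calc (n1 ^ (j + y)) ^ (q + x) = (n1 ^ (q + x)) ^ (j + y) := by
        rw [← pow_mul, ← pow_mul, mul_comm]
    _ ≤ (κ ^ (x + 3)) ^ (j + y) := Nat.pow_le_pow_left e2 _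
    _ = κ ^ ((x + 3) * (j + y)) := (pow_mul _ _ _).symm
    _ ≤ κ ^ ((y + 1) * (q + x)) := Nat.pow_le_pow_right hκ e3
    _ = (κ ^ (y + 1)) ^ (q + x) := pow_mul _ _ _

/-- the constant of the windows -/
def cw (C4 K0 M : ℕ) : ℕ := 2 ^ M * (2 ^ M * (K0 ^ M + 2 ^ M * ((2 * C4) ^ M + 1)) + 11 ^ M)

theorem window_total {C4 K0 κ M j Z n1 : ℕ} (hκ : 1 ≤ κ)
    (hZ : Z ^ M ≤ 2 ^ M * ((2 * C4) ^ M * κ ^ (M - j) + 1)) (hn : n1 ^ M ≤ κ ^ (M - j + 1)) :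
    (K0 + Z + 11 * n1) ^ M ≤ cw C4 K0 M * κ ^ (M - j + 1) := by
  obtain ⟨X, hX⟩ : ∃ X, X = κ ^ (M - j + 1) := ⟨_, rfl⟩
  have hX1 : 1 ≤ X := by rw [hX]; exact Nat.one_le_pow _ _ hκ
  have hX2 : κ ^ (M - j) ≤ X := by rw [hX]; exact Nat.pow_le_pow_right hκ (by omega)
  rw [← hX] at hn ⊢
  have e1 : Z ^ M ≤ 2 ^ M * ((2 * C4) ^ M + 1) * X := by
    refine hZ.trans ?_
    rw [mul_assoc]
    refine Nat.mul_le_mul_left _ ?_
    calc (2 * C4) ^ M * κ ^ (M - j) + 1 ≤ (2 * C4) ^ M * X + X :=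
          Nat.add_le_add (Nat.mul_le_mul_left _ hX2) hX1
      _ = ((2 * C4) ^ M + 1) * X := by ring
  have e2 : K0 ^ M ≤ K0 ^ M * X := Nat.le_mul_of_pos_right _ (by omega)
  calc (K0 + Z + 11 * n1) ^ M ≤ 2 ^ M * ((K0 + Z) ^ M + (11 * n1) ^ M) := add_pow_le2 _ _ _
    _ ≤ 2 ^ M * (2 ^ M * (K0 ^ M + Z ^ M) + 11 ^ M * n1 ^ M) := by
        rw [mul_pow 11]
        exact Nat.mul_le_mul_left _ (Nat.add_le_add_right (add_pow_le2 _ _ _) _)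
    _ ≤ 2 ^ M * (2 ^ M * (K0 ^ M * X + 2 ^ M * ((2 * C4) ^ M + 1) * X) + 11 ^ M * X) :=
        Nat.mul_le_mul_left _ (Nat.add_le_add
          (Nat.mul_le_mul_left _ (Nat.add_le_add e2 e1)) (Nat.mul_le_mul_left _ hn))
    _ = cw C4 K0 M * X := by unfold cw; ring

/-- the number of windows -/
theorem cnt_step {κ M e : ℕ} (hM : 1 ≤ M) (hκ : 1 ≤ κ) (hs : 3 * M + 1 ≤ sa κ)
    (he : e ^ M ≤ κ) : (e + 1) ^ M ≤ κ + Dd κ := by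
  obtain ⟨n, rfl⟩ : ∃ n, M = n + 1 := ⟨M - 1, by omega⟩
  obtain ⟨s, hsd⟩ : ∃ s, s = sa κ := ⟨_, rfl⟩
  obtain ⟨D, hD⟩ : ∃ D, D = Dd κ := ⟨_, rfl⟩
  have h1 := lt_Dd_mul κ
  have h2 := two_pow_sa_sq (κ := κ) (by omega)
  rw [← hsd] at h1 h2 hs
  rw [← hD] at h1 ⊢
  have h3 := pow_succ_diff e n
  have h4 : (n + 1) * (e + 1) ^ n ≤ D := by
    refine (Nat.pow_le_pow_iff_left (show n + 1 ≠ 0 by omega)).1 ?_
    refine Nat.le_of_mul_le_mul_right ?_ (show 0 < κ by omega)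
    have g1 : (e + 1) ^ (n + 1) ≤ 2 ^ (n + 2) * κ := by
      calc (e + 1) ^ (n + 1) ≤ 2 ^ (n + 1) * (e ^ (n + 1) + 1 ^ (n + 1)) := add_pow_le2 _ _ _
        _ ≤ 2 ^ (n + 1) * (κ + κ) := Nat.mul_le_mul_left _ (by rw [one_pow]; omega)
        _ = 2 ^ (n + 2) * κ := by ring
    have g2 : (n + 1) ^ (n + 1) ≤ 2 ^ ((n + 1) * (n + 1)) := by
      rw [pow_mul]
      exact Nat.pow_le_pow_left (Nat.lt_two_pow_self).le _
    calc ((n + 1) * (e + 1) ^ n) ^ (n + 1) * κ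
        = (n + 1) ^ (n + 1) * ((e + 1) ^ (n + 1)) ^ n * κ := by
          rw [mul_pow, ← pow_mul, ← pow_mul, mul_comm n (n + 1)]
      _ ≤ 2 ^ ((n + 1) * (n + 1)) * (2 ^ (n + 2) * κ) ^ n * κ :=
          Nat.mul_le_mul_right _ (Nat.mul_le_mul g2 (Nat.pow_le_pow_left g1 n))
      _ = 2 ^ ((n + 1) * (n + 1)) * 2 ^ ((n + 2) * n) * κ ^ (n + 1) := by
          rw [mul_pow, ← pow_mul]; ring
      _ ≤ 2 ^ ((n + 1) * (n + 1)) * 2 ^ ((n + 2) * n) * (2 * (D * 2 ^ s)) ^ (n + 1) :=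
          Nat.mul_le_mul_left _ (Nat.pow_le_pow_left h1.le _)
      _ = 2 ^ ((n + 1) * (n + 1) + (n + 2) * n + (n + 1) + s * (n + 1)) * D ^ (n + 1) := by
          rw [mul_pow, mul_pow, ← pow_mul, pow_add, pow_add, pow_add]; ring
      _ ≤ 2 ^ (s * s) * D ^ (n + 1) := by
          refine Nat.mul_le_mul_right _ (Nat.pow_le_pow_right (by norm_num) ?_)
          nlinarith
      _ ≤ κ * D ^ (n + 1) := Nat.mul_le_mul_right _ h2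
      _ = D ^ (n + 1) * κ := mul_comm _ _
  omega

end Pool.Agent.Helper667_QS
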