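import Pool.Agent.Helper667_QS.Diag2

/-!
# The diagonal construction: one basis for all exponents
-/

set_option autoImplicit false

namespace Pool.Agent.Helper667_QS

open Finset Pool.Agent.H125R2.ET Pool.Agent.Helper667_AS

theorem Dd_ge {κ : ℕ} (h : 2 ≤ sa κ) : 2 ^ sa κ ≤ Dd κ := by
  unfold Dd
  refine Nat.pow_le_pow_right (by norm_num) ?_
  have h1 : sa κ * sa κ ≤ Nat.log 2 κ := Nat.sqrt_le _
  have h2 : 2 * sa κ ≤ sa κ * sa κ := Nat.mul_le_mul_right _ h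
  omega

/-- summing the windows -/
theorem sum_windows {A : Set ℕ} {κ : ℕ → ℕ} {i0 M j Cst : ℕ} (hj : 1 ≤ j) (hjM : j ≤ M)
    (hκ1 : ∀ i, 1 ≤ κ i) (hκi : ∀ i, i ≤ κ i)
    (hκs : ∀ i, κ (i + 1) = κ i + Dd (κ i)) (hsa : ∀ i, i0 ≤ i → 3 * M + 1 ≤ sa (κ i))
    (hstep : ∀ i, i0 ≤ i → ∃ N, N ^ M ≤ Cst * (κ i) ^ (M - j + 1) ∧
      lc j (M - j) 0 1 A (8 * κ (i + 1)) ≤ lc j (M - j) 0 1 A (8 * κ i) + N) :
    ∃ c, ∀ K, (lc j (M - j) 0 1 A K) ^ M ≤ c * K ^ (M - j + 2) := by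
  classical
  have hM : 1 ≤ M := by omega
  have hκmono : Monotone κ := monotone_nat_of_le_succ (fun i => by rw [hκs]; omega)
  have hD : ∀ i, Dd (κ i) ≤ κ i := by
    intro i
    have h1 := Dd_mul_le (κ := κ i) (by have := hκ1 i; omega)
    calc Dd (κ i) ≤ Dd (κ i) * 2 ^ sa (κ i) := Nat.le_mul_of_pos_right _ (by positivity)
      _ ≤ κ i := h1
  have hcnt : ∀ e, e ^ M ≤ κ (i0 + e) := by
    intro e
    induction e with
    | zero => rw [zero_pow (by omega)]; exact Nat.zero_le _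
    | succ e ih =>
      have h1 : i0 + (e + 1) = (i0 + e) + 1 := by omega
      rw [h1, hκs]
      exact cnt_step hM (hκ1 _) (hsa _ (by omega)) ih
  have hroot : ∀ i, ∃ ρ, ρ ^ M ≤ Cst * (κ i) ^ (M - j + 1) ∧
      ∀ r, r ^ M ≤ Cst * (κ i) ^ (M - j + 1) → r ≤ ρ := fun i => exists_floor_root _ _ hM
  choose ρ hρ1 hρ2 using hroot
  have hρmono : ∀ i, ρ i ≤ ρ (i + 1) := by
    intro i
    refine hρ2 (i + 1) _ ((hρ1 i).trans ?_)
    exact Nat.mul_le_mul_left _ (Nat.pow_le_pow_left (hκmono (Nat.le_succ i)) _)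
  obtain ⟨T, hT⟩ : ∃ T, T = 8 * κ i0 := ⟨_, rfl⟩
  have hsum : ∀ e, lc j (M - j) 0 1 A (8 * κ (i0 + e)) ≤ T + e * ρ (i0 + e) := by
    intro e
    induction e with
    | zero =>
      rw [Nat.zero_mul, hT]
      exact lc_le _ _ _ _ _ _
    | succ e ih =>
      have h1 : i0 + (e + 1) = (i0 + e) + 1 := by omega
      obtain ⟨N, hN1, hN2⟩ := hstep (i0 + e) (by omega)
      have h2 : N ≤ ρ (i0 + e) := hρ2 _ _ hN1
      have h3 := hρmono (i0 + e)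
      rw [h1]
      have h4 : e * ρ (i0 + e) ≤ e * ρ (i0 + e + 1) := Nat.mul_le_mul_left _ h3
      have h5 : (e + 1) * ρ (i0 + e + 1) = e * ρ (i0 + e + 1) + ρ (i0 + e + 1) := by ring
      omega
  have hbd : ∀ e, (lc j (M - j) 0 1 A (8 * κ (i0 + e))) ^ M ≤
      2 ^ M * (T ^ M + Cst) * (κ (i0 + e)) ^ (M - j + 2) := by
    intro e
    have h1 : 1 ≤ (κ (i0 + e)) ^ (M - j + 2) := Nat.one_le_pow _ _ (hκ1 _)
    calc (lc j (M - j) 0 1 A (8 * κ (i0 + e))) ^ M ≤ (T + e * ρ (i0 + e)) ^ M :=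
          Nat.pow_le_pow_left (hsum e) M
      _ ≤ 2 ^ M * (T ^ M + (e * ρ (i0 + e)) ^ M) := add_pow_le2 _ _ _
      _ = 2 ^ M * (T ^ M * 1 + e ^ M * (ρ (i0 + e)) ^ M) := by rw [mul_pow, mul_one]
      _ ≤ 2 ^ M * (T ^ M * (κ (i0 + e)) ^ (M - j + 2) +
            κ (i0 + e) * (Cst * (κ (i0 + e)) ^ (M - j + 1))) :=
          Nat.mul_le_mul_left _ (Nat.add_le_add (Nat.mul_le_mul_left _ h1)
            (Nat.mul_le_mul (hcnt e) (hρ1 _)))
      _ = 2 ^ M * (T ^ M + Cst) * (κ (i0 + e)) ^ (M - j + 2) := by ring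
  refine ⟨2 ^ M * (T ^ M + Cst), fun K => ?_⟩
  by_cases hK : K ≤ T
  · rcases Nat.eq_zero_or_pos K with h0 | h0
    · have : lc j (M - j) 0 1 A K = 0 := by
        have := lc_le j (M - j) 0 1 A K
        omega
      rw [this, zero_pow (by omega)]
      exact Nat.zero_le _
    · have h1 : 1 ≤ K ^ (M - j + 2) := Nat.one_le_pow _ _ h0
      calc (lc j (M - j) 0 1 A K) ^ M ≤ T ^ M :=
            Nat.pow_le_pow_left ((lc_le _ _ _ _ _ _).trans hK) M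
        _ ≤ T ^ M + Cst := Nat.le_add_right _ _
        _ ≤ 2 ^ M * (T ^ M + Cst) := Nat.le_mul_of_pos_left _ (by positivity)
        _ ≤ 2 ^ M * (T ^ M + Cst) * K ^ (M - j + 2) := Nat.le_mul_of_pos_right _ h1
  · push Not at hK
    have hex : ∃ e, K ≤ 8 * κ (i0 + e) := by
      refine ⟨K, ?_⟩
      have := hκi (i0 + K)
      omega
    obtain ⟨m, hm, hmin⟩ : ∃ m, K ≤ 8 * κ (i0 + m) ∧ ∀ e < m, ¬ K ≤ 8 * κ (i0 + e) :=
      ⟨Nat.find hex, Nat.find_spec hex, fun e he => Nat.find_min hex he⟩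
    have hm0 : m ≠ 0 := by
      rintro rfl
      rw [Nat.add_zero] at hm
      omega
    obtain ⟨e, rfl⟩ := Nat.exists_eq_succ_of_ne_zero hm0
    have he : 8 * κ (i0 + e) < K := not_le.1 (hmin e (Nat.lt_succ_self e))
    have h1 : κ (i0 + (e + 1)) ≤ K := by
      have h2 : i0 + (e + 1) = (i0 + e) + 1 := by omega
      have h3 := hD (i0 + e)
      rw [h2, hκs]
      omega
    calc (lc j (M - j) 0 1 A K) ^ M ≤ (lc j (M - j) 0 1 A (8 * κ (i0 + (e + 1)))) ^ M :=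
          Nat.pow_le_pow_left (lc_mono _ _ _ _ _ hm) M
      _ ≤ 2 ^ M * (T ^ M + Cst) * (κ (i0 + (e + 1))) ^ (M - j + 2) := hbd (e + 1)
      _ ≤ 2 ^ M * (T ^ M + Cst) * K ^ (M - j + 2) :=
          Nat.mul_le_mul_left _ (Nat.pow_le_pow_left h1 _)

/-- one window -/
theorem one_window {A B : Set ℕ} {C4 K0 κ κ' u s c F d M j : ℕ} (hj : 1 ≤ j) (hjM : j ≤ M)
    (hd : 4 * M ≤ d) (hκ : 1 ≤ κ) (hκu : 8 * κ' ≤ 8 * κ + u) (huκ : u ≤ κ)
    (hLκ : Lg κ ≤ (s + 1) ^ 2) (hs : 2 ^ (s / 2) * 2 ^ (s / 2) ≤ κ)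
    (hT2 : c * (s + 1) ^ (2 * F) ≤ 2 ^ (s / 2))
    (hT3 : (4 * C4) ^ d * (s + 1) ^ (4 * d) ≤ 2 ^ (s / 2))
    (hfew : ∀ a g, 2 ≤ a → a + g = d → ∀ K, (lc a g F c B K) ^ d ≤ c * K ^ (g + 1))
    (hA2 : ∀ l n ρ : ℕ, 2 ^ (8 * κ + l) ≤ n → n < 2 ^ (8 * κ + l + 1) →
        8 * κ + l < 8 * κ' → K0 ≤ l →
        (∀ x, 2 ^ (l - 10) ≤ x → x < 2 ^ (l + 1) → rA B x ≤ ρ) →
        (rA A n : ℝ) ≤ C4 * ((Lg u) ^ 2 * ρ + κ / l)) :
    ∃ N, N ^ M ≤ cw C4 (K0 + 1) M * κ ^ (M - j + 1) ∧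
      lc j (M - j) 0 1 A (8 * κ') ≤ lc j (M - j) 0 1 A (8 * κ) + N := by
  have hM : 1 ≤ M := by omega
  have hd1 : 1 ≤ d := by omega
  obtain ⟨q, hq⟩ : ∃ q, q = j * d / M := ⟨_, rfl⟩
  have hq1 : q * M ≤ j * d := by rw [hq]; exact Nat.div_mul_le_self _ _
  have hq2 : j * d < (q + 1) * M := by
    rw [hq]
    have := Nat.lt_div_mul_add (a := j * d) (b := M) (by omega)
    rw [Nat.add_mul, Nat.one_mul]
    exact this
  have hq3 : 4 ≤ q := by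
    rw [hq, Nat.le_div_iff_mul_le (by omega)]
    nlinarith
  have hqd : q ≤ d := by
    rw [hq]
    refine Nat.div_le_of_le_mul ?_
    exact Nat.mul_le_mul_right _ hjM
  have hLu : Lg u ≤ (s + 1) ^ 2 := (Lg_mono huκ).trans hLκ
  obtain ⟨Z, hZ1, hZ2⟩ := exists_root ((2 * C4) ^ M * κ ^ (M - j)) M hM
  have hs1 : 1 ≤ (s + 1) ^ (2 * F) := Nat.one_le_pow _ _ (by omega)
  have hcκ : c ≤ κ := by
    have h1 : c ≤ c * (s + 1) ^ (2 * F) := Nat.le_mul_of_pos_right _ (by omega)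
    have h2 : 2 ^ (s / 2) ≤ 2 ^ (s / 2) * 2 ^ (s / 2) := Nat.le_mul_of_pos_right _ (by positivity)
    omega
  obtain ⟨ρ, hρ1, hρ2⟩ := exists_floor_root (c * ((s + 1) ^ (2 * F) * κ ^ (q - 1))) d hd1
  refine ⟨K0 + 1 + Z + 11 * lc (q - 1) (d - (q - 1)) F c B u, ?_, ?_⟩
  · refine window_total hκ hZ2 ?_
    exact window_count hjM hd hd1 hκ hcκ huκ (by omega) hqd hq2
      (hfew (q - 1) (d - (q - 1)) (by omega) (by omega) u)
  · refine lc_window (L1 := K0 + 1 + Z) hκu ?_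
    rintro l hl1 hl2 hB1 ⟨n, hn1, hn2, hn3⟩
    have hρB : ∀ y, 2 ^ (l - 10) ≤ y → y < 2 ^ (l + 1) → rA B y ≤ ρ := by
      intro y hy1 hy2
      have hy0 : y ≠ 0 := by
        have : 0 < 2 ^ (l - 10) := by positivity
        omega
      obtain ⟨t', ht'⟩ : ∃ t', t' = Nat.log 2 y := ⟨_, rfl⟩
      have g1 : 2 ^ t' ≤ y := by rw [ht']; exact Nat.pow_log_le_self 2 hy0
      have g2 : y < 2 ^ (t' + 1) := by rw [ht']; exact Nat.lt_pow_succ_log_self (by norm_num) y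
      have g3 : t' < l + 1 := by
        rw [ht']; exact (Nat.log_lt_iff_lt_pow (by norm_num) hy0).2 hy2
      have g4 : l - 10 < t' + 1 := (Nat.pow_lt_pow_iff_right (by norm_num)).1 (lt_of_le_of_lt hy1 g2)
      have g5 := hB1 (l - t') (by omega)
      have g6 : l - (l - t') = t' := by omega
      rw [g6] at g5
      unfold Loud at g5
      push Not at g5
      have g7 := g5 y g1 g2
      rw [show q - 1 + (d - (q - 1)) = d by omega] at g7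
      refine hρ2 _ (g7.trans (Nat.mul_le_mul_left _ (Nat.mul_le_mul ?_ ?_)))
      · rw [pow_mul]
        exact Nat.pow_le_pow_left ((Lg_mono (by omega)).trans hLκ) F
      · exact Nat.pow_le_pow_left (by omega) _
    have hb := hA2 l n ρ hn1 hn2 hl2 (by omega) hρB
    have hfin := quiet_bound (Z := Z) hj hjM hd1 hκ (by omega : 1 ≤ q) hq1 hLu hs hT2 hT3 hρ1
      (by omega : 1 ≤ l) (by omega) hZ1 hb
    have hk : κ ^ j ≤ (8 * κ + l + 1) ^ j := Nat.pow_le_pow_left (by omega) j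
    rw [pow_zero, one_mul, one_mul, show j + (M - j) = M by omega] at hn3
    omega

end Pool.Agent.Helper667_QS
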