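import Pool.Agent.Helper667_QS.Diag3

/-!
# One basis for all exponents
-/

set_option autoImplicit false

namespace Pool.Agent.Helper667_QS

open Finset Pool.Agent.H125R2.ET Pool.Agent.Helper667_AS

theorem diag : ∃ A : Set ℕ, (∃ N1, CovP A N1) ∧
    (∃ c, ∀ n, (rA A n) ^ 2 * Lg (Nat.log 2 n + 1) ≤ c * (Nat.log 2 n + 1) ^ 2) ∧
    ∀ M j, 1 ≤ j → j ≤ M → ∃ c, ∀ K, (lc j (M - j) 0 1 A K) ^ M ≤ c * K ^ (M - j + 2) := by
  classical
  obtain ⟨C4, K0, hmain⟩ := build 6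
  have h : ∀ m : ℕ, ∃ (B : Set ℕ) (c F : ℕ),
      (∀ n, rA B n ≤ c * (Nat.log 2 n + 1)) ∧ CovP B 6 ∧
      (∀ a g, 2 ≤ a → a + g = m + 2 → ∀ K, (lc a g F c B K) ^ (m + 2) ≤ c * K ^ (g + 1)) :=
    fun m => qall_zero (m + 2) (by omega)
  choose Bs cc F hrep hcov hfew using h
  obtain ⟨cb, hcb⟩ : ∃ cb : ℕ → ℕ, ∀ m, cb m = ∑ k ∈ range (m + 1), cc k := ⟨_, fun _ => rfl⟩
  have hcble : ∀ m, cc m ≤ cb m := by
    intro m
    rw [hcb]
    exact single_le_sum (f := cc) (fun _ _ => Nat.zero_le _) (mem_range.2 (Nat.lt_succ_self m))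
  have hcbmono : Monotone cb := by
    refine monotone_nat_of_le_succ (fun m => ?_)
    rw [hcb, hcb, sum_range_succ cc (m + 1)]
    exact Nat.le_add_right _ _
  obtain ⟨μ, hμmono, hμtop, S0, hS0⟩ := thresholds C4 cb cc F
  obtain ⟨S1, hS1⟩ : ∃ S1, S1 = S0 + K0 + 20 := ⟨_, rfl⟩
  obtain ⟨κ, hκ0, hκs⟩ : ∃ κ : ℕ → ℕ, κ 0 = 2 ^ (S1 * S1) ∧ ∀ i, κ (i + 1) = κ i + Dd (κ i) :=
    ⟨fun i => Nat.rec (2 ^ (S1 * S1)) (fun _ x => x + Dd x) i, rfl, fun _ => rfl⟩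
  have hκge : ∀ i, 2 ^ (S1 * S1) + i ≤ κ i := by
    intro i
    induction i with
    | zero => rw [hκ0, Nat.add_zero]
    | succ i ih =>
      have := Dd_pos (κ i)
      rw [hκs]
      omega
  have hκmono : Monotone κ := monotone_nat_of_le_succ (fun i => by rw [hκs]; omega)
  have hsa : ∀ i, S1 ≤ sa (κ i) := fun i => le_sa (by have := hκge i; omega)
  have hκ1 : ∀ i, 1 ≤ κ i := by
    intro i
    have h1 := hκge i
    have h2 : 0 < 2 ^ (S1 * S1) := by positivity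
    omega
  have hDs : ∀ i, Dd (κ i) * 2 ^ sa (κ i) ≤ κ i := fun i => Dd_mul_le (by have := hκ1 i; omega)
  have hDbig : ∀ i, 2 ^ sa (κ i) ≤ Dd (κ i) := fun i => Dd_ge (by have := hsa i; omega)
  -- the parameters
  obtain ⟨s, hs⟩ : ∃ s : ℕ → ℕ, ∀ i, s i = sa (κ i) := ⟨_, fun _ => rfl⟩
  obtain ⟨D, hD⟩ : ∃ D : ℕ → ℕ, ∀ i, D i = Dd (κ i) := ⟨_, fun _ => rfl⟩
  obtain ⟨u, hu⟩ : ∃ u : ℕ → ℕ, ∀ i, u i = 8 * D i + 86 := ⟨_, fun _ => rfl⟩
  have hsS : ∀ i, S1 ≤ s i := fun i => by rw [hs]; exact hsa i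
  have hDs' : ∀ i, D i * 2 ^ s i ≤ κ i := fun i => by rw [hs, hD]; exact hDs i
  have hD1 : ∀ i, 1 ≤ D i := fun i => by rw [hD]; exact Dd_pos _
  have hDbig' : ∀ i, 2 ^ s i ≤ D i := fun i => by rw [hs, hD]; exact hDbig i
  have hLκ : ∀ i, Lg (κ i) ≤ (s i + 1) ^ 2 := fun i => by rw [hs]; exact Lg_le_sa _
  have hmul : ∀ x i, 2 ^ x ≤ 2 ^ s i → D i * 2 ^ x ≤ κ i := fun x i hx =>
    (Nat.mul_le_mul_left _ hx).trans (hDs' i)
  have hp20 : ∀ i, D i * 2 ^ 20 ≤ κ i := fun i => hmul 20 i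
    (Nat.pow_le_pow_right (by norm_num) (by have := hsS i; omega))
  have hu32 : ∀ i, 32 * u i ≤ κ i := by
    intro i
    have h1 := hp20 i
    have h2 := hD1 i
    rw [hu]
    norm_num at h1
    omega
  have hs2 : ∀ i, 2 ^ (s i / 2) * 2 ^ (s i / 2) ≤ 2 ^ s i := by
    intro i
    rw [← pow_add]
    exact Nat.pow_le_pow_right (by norm_num) (by omega)
  have h2sκ : ∀ i, 2 ^ s i ≤ κ i := fun i =>
    le_trans (Nat.le_mul_of_pos_left _ (hD1 i)) (hDs' i)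
  obtain ⟨A, hA1, hA2, hA3⟩ := hmain κ u (fun i => s i / 2) (fun i => cb (μ (s i)))
    (fun i => Bs (μ (s i)))
    (by
      have h1 := hκge 0
      have h2 : S1 < 2 ^ S1 := Nat.lt_two_pow_self
      have h3 : 2 ^ S1 ≤ 2 ^ (S1 * S1) :=
        Nat.pow_le_pow_right (by norm_num) (Nat.le_mul_of_pos_left _ (by omega))
      omega)
    (by
      intro i
      have h1 := hDbig' i
      have h2 : s i < 2 ^ s i := Nat.lt_two_pow_self
      have h3 := hsS i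
      rw [hκs, ← hD]
      omega)
    (by
      intro i
      rw [hu, hκs, ← hD]
      ring)
    (by
      intro i i' hii
      rw [hu, hu, hD, hD]
      have := Dd_mono (hκmono hii)
      omega)
    (by
      intro i i' hii
      refine hcbmono (hμmono ?_)
      rw [hs, hs]
      exact sa_mono (hκmono hii))
    (by
      intro i n
      exact (hrep (μ (s i)) n).trans (Nat.mul_le_mul_right _ (hcble _)))
    hu32
    (by
      intro i
      have h1 := (hS0 (s i) (by have := hsS i; omega)).1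
      have h2 : Lg (u i) ≤ (s i + 1) ^ 2 :=
        (Lg_mono (by have := hu32 i; omega)).trans (hLκ i)
      have h3 : u i + 2 ≤ 96 * D i := by
        have := hD1 i
        rw [hu]
        omega
      calc 2 ^ (s i / 2) * ((Lg (u i)) ^ 2 * (cb (μ (s i)) * (u i + 2)))
          ≤ 2 ^ (s i / 2) * (((s i + 1) ^ 2) ^ 2 * (cb (μ (s i)) * (96 * D i))) :=
            Nat.mul_le_mul_left _ (Nat.mul_le_mul (Nat.pow_le_pow_left h2 2)
              (Nat.mul_le_mul_left _ h3))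
        _ = D i * (2 ^ (s i / 2) * (96 * cb (μ (s i)) * (s i + 1) ^ 4)) := by ring
        _ ≤ D i * (2 ^ (s i / 2) * 2 ^ (s i / 2)) :=
            Nat.mul_le_mul_left _ (Nat.mul_le_mul_left _ h1)
        _ ≤ D i * 2 ^ s i := Nat.mul_le_mul_left _ (hs2 i)
        _ ≤ κ i := hDs' i)
    (by
      intro i
      have h1 := hsS i
      have h2 : s i / 2 < 2 ^ (s i / 2) := Nat.lt_two_pow_self
      have h3 : 64 * 2 ^ (s i / 2) ≤ 2 ^ s i := by
        calc 64 * 2 ^ (s i / 2) = 2 ^ (6 + s i / 2) := by rw [pow_add]; norm_num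
          _ ≤ 2 ^ s i := Nat.pow_le_pow_right (by norm_num) (by omega)
      have h4 := h2sκ i
      show 64 * (s i / 2) ≤ κ i ∧ 2 ^ (s i / 2) ≤ κ i
      omega)
    (fun i => hcov _)
  refine ⟨A, hA3, ⟨8 * C4 ^ 2, fun n => ?_⟩, ?_⟩
  · rcases hA1 n with h0 | ⟨i, hi1, hi2⟩
    · rw [h0]
      simp
    · obtain ⟨y, hy⟩ : ∃ y, y = Nat.log 2 n + 1 := ⟨_, rfl⟩
      rw [← hy]
      have hn0 : n ≠ 0 := by
        have : 0 < 2 ^ (8 * κ i) := by positivity
        omega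
      have e2 : 8 * κ i ≤ Nat.log 2 n := Nat.le_log_of_pow_le (by norm_num) hi1
      have hκy : κ i ≤ y := by omega
      obtain ⟨w, hw⟩ : ∃ w, w = s i / 2 + 1 := ⟨_, rfl⟩
      have hw0 : (0 : ℝ) < (w : ℝ) := by exact_mod_cast (by omega : 0 < w)
      have e1 : rA A n * w ≤ C4 * κ i := by
        have hi2' : (rA A n : ℝ) ≤ C4 * (κ i / (w : ℝ)) := by rw [hw]; exact hi2
        rw [← mul_div_assoc, le_div_iff₀ hw0] at hi2'
        exact_mod_cast hi2'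
      have e3 : Lg (κ i) ≤ 4 * w ^ 2 := by
        have h1 : s i + 1 ≤ 2 * w := by omega
        calc Lg (κ i) ≤ (s i + 1) ^ 2 := hLκ i
          _ ≤ (2 * w) ^ 2 := Nat.pow_le_pow_left h1 2
          _ = 4 * w ^ 2 := by ring
      have e4 := Lg_ratio (hκ1 i) hκy
      refine Nat.le_of_mul_le_mul_right ?_ (hκ1 i)
      calc (rA A n) ^ 2 * Lg y * κ i = (rA A n) ^ 2 * (κ i * Lg y) := by ring
        _ ≤ (rA A n) ^ 2 * (2 * y * (4 * w ^ 2)) :=
            Nat.mul_le_mul_left _ (e4.trans (Nat.mul_le_mul_left _ e3))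
        _ = 8 * y * (rA A n * w) ^ 2 := by ring
        _ ≤ 8 * y * (C4 * κ i) ^ 2 := Nat.mul_le_mul_left _ (Nat.pow_le_pow_left e1 2)
        _ = 8 * C4 ^ 2 * (y * κ i) * κ i := by ring
        _ ≤ 8 * C4 ^ 2 * (y * y) * κ i :=
            Nat.mul_le_mul_right _ (Nat.mul_le_mul_left _ (Nat.mul_le_mul_left _ hκy))
        _ = 8 * C4 ^ 2 * y ^ 2 * κ i := by ring
  · intro M j hj hjM
    obtain ⟨S, hS⟩ := hμtop (4 * M)
    obtain ⟨S2, hS2⟩ : ∃ S2, S2 = S + (3 * M + 1) := ⟨_, rfl⟩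
    have hbig : ∀ i, 2 ^ (S2 * S2) ≤ i → S2 ≤ s i := by
      intro i hi
      rw [hs]
      refine le_sa ?_
      have := hκge i
      omega
    refine sum_windows (κ := κ) (i0 := 2 ^ (S2 * S2)) (Cst := cw C4 (K0 + 1) M) hj hjM hκ1
      (fun i => by have := hκge i; omega) hκs (fun i hi => ?_) (fun i hi => ?_)
    · rw [← hs]
      have := hbig i hi
      omega
    · have h1 := hbig i hi
      have h2 := hS (s i) (by omega)
      obtain ⟨-, hT2, hT3⟩ := hS0 (s i) (by have := hsS i; omega)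
      refine one_window (B := Bs (μ (s i))) (u := u i) (s := s i) (c := cc (μ (s i)))
        (F := F (μ (s i))) (d := μ (s i) + 2) hj hjM (by omega) (hκ1 i) ?_ ?_ (hLκ i)
        ((hs2 i).trans (h2sκ i)) hT2 hT3 (hfew _) ?_
      · rw [hu, hκs, ← hD]
        omega
      · have := hu32 i
        omega
      · intro l n ρ hn1 hn2 hl hl0 hρ
        exact hA2 i l n ρ hn1 hn2 hl hl0 hρ

end Pool.Agent.Helper667_QS
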