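import Pool.Agent.Helper667_QS.Spr

/-!
# Hits between a block and a family of given sets
-/

set_option autoImplicit false

namespace Pool.Agent.Helper667_QS

open Finset Pool.Agent.H125R2.ET Pool.Agent.Helper667_AS

theorem fin_gen (C : ℕ) (hM : BlockMom C) (g C2 : ℕ) : ∃ C3 k0 : ℕ, ∀ k ≥ k0, ∀ (p : ℕ) (hp : 0 < p)
    (D : Finset ℕ), 2 ^ k < p → IsBase C p D →
    ∀ (I : Finset (ℕ × ℕ × ℕ)) (Z : ℕ × ℕ × ℕ → Finset ℕ) (γ h G : ℕ × ℕ × ℕ → ℕ),
    I.card ≤ 2 ^ (18 * k) →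
    (∀ x ∈ I, 1 ≤ γ x ∧ 32 * γ x ≤ k ∧ ClsLE (p ^ 6) (Z x) g ∧ ClsLE (p ^ 4) (Z x) (h x) ∧
      (h x) ^ 2 ≤ 2 ^ k ∧ ClsLE (p ^ 2) (Z x) (G x) ∧ 2 ^ γ x * G x ≤ C2 * k * p ^ 2) →
    (block p hp D).Pr (fun ω => ¬ ∀ x ∈ I, ((((block p hp D).S ω) ∩ Z x).card : ℝ) ≤
      C3 * k / γ x) ≤ 1 / 2 ^ (k + 3) := by
  obtain ⟨K, hK, hM⟩ := hM
  obtain ⟨M, hMM⟩ := exists_nat_ge K
  refine ⟨2 * (g + 1) * (⌈K * C2⌉₊ + 20), 4 * M + C + 40, ?_⟩
  intro k hk p hp D hp1 hD I Z γ h G hI hall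
  have hkR : (40 : ℝ) ≤ k := by exact_mod_cast (by omega : 40 ≤ k)
  set T : ℕ × ℕ × ℕ → ℝ := fun x =>
    ((((2 * (g + 1) * (⌈K * C2⌉₊ + 20) : ℕ) : ℝ))) * k / γ x with hT
  -- one value of x
  have hone : ∀ x ∈ I, (block p hp D).Pr (fun ω => T x ≤ ((((block p hp D).S ω) ∩ Z x).card : ℝ)) ≤
      Real.exp (-(20 * k)) := by
    intro x hx
    obtain ⟨hγ1, hγ, h6, h4, hh, h2, hG⟩ := hall x hx
    have hγR : (0 : ℝ) < γ x := by exact_mod_cast hγ1
    -- the condition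
    have hcond : K * 2 ^ γ x * (h x : ℝ) ≤ p := by
      have e1 : (M * 2 ^ γ x * h x) ^ 2 ≤ p ^ 2 := by
        have f1 : M ^ 2 ≤ 2 ^ (2 * M) := by
          calc M ^ 2 ≤ (2 ^ M) ^ 2 := Nat.pow_le_pow_left Nat.lt_two_pow_self.le 2
            _ = 2 ^ (2 * M) := by rw [← pow_mul, mul_comm]
        calc (M * 2 ^ γ x * h x) ^ 2 = M ^ 2 * 2 ^ (2 * γ x) * h x ^ 2 := by
              rw [mul_pow, mul_pow, ← pow_mul, mul_comm (γ x) 2]
          _ ≤ 2 ^ (2 * M) * 2 ^ (2 * γ x) * 2 ^ k :=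
              Nat.mul_le_mul (Nat.mul_le_mul f1 le_rfl) hh
          _ = 2 ^ (2 * M + 2 * γ x + k) := by rw [← pow_add, ← pow_add]
          _ ≤ 2 ^ (2 * k) := Nat.pow_le_pow_right (by norm_num) (by omega)
          _ = (2 ^ k) ^ 2 := by rw [← pow_mul, mul_comm]
          _ ≤ p ^ 2 := Nat.pow_le_pow_left hp1.le 2
      have e2 : M * 2 ^ γ x * h x ≤ p := (Nat.pow_le_pow_iff_left (by norm_num)).1 e1
      calc K * 2 ^ γ x * (h x : ℝ) ≤ M * 2 ^ γ x * (h x : ℝ) := by gcongr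
        _ ≤ p := by exact_mod_cast e2
    set lam : ℝ := (γ x : ℝ) * Real.log 2 / ((g + 1 : ℕ) : ℝ) with hlam
    have hg1 : (0 : ℝ) < ((g + 1 : ℕ) : ℝ) := by exact_mod_cast Nat.succ_pos g
    have hlog2 : 0 < Real.log 2 := Real.log_pos (by norm_num)
    have hlam0 : 0 ≤ lam := by rw [hlam]; positivity
    have hexp : Real.exp (lam * ((g + 1 : ℕ) : ℝ)) = 2 ^ γ x := by
      rw [hlam, div_mul_cancel₀ _ hg1.ne', Real.exp_nat_mul, Real.exp_log (by norm_num)]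
    have hmom := hM p hp D hD lam hlam0 (g + 1) (h x) (G x) (Z x)
      (T15_cls_mono h6 (Nat.le_succ g)) h4 h2 (by rw [hexp]; exact hcond)
    have hmark := Pr_hits_le (block p hp D) hlam0 (Z x) (T x)
    refine le_trans hmark ?_
    have hpR : (0 : ℝ) < p := by exact_mod_cast hp
    have hp0 : (0 : ℝ) < (p : ℝ) ^ 2 := by positivity
    have e1 : K * Real.exp (lam * ((g + 1 : ℕ) : ℝ)) * (G x : ℝ) / (p : ℝ) ^ 2 ≤ K * C2 * k := by
      rw [hexp, div_le_iff₀ hp0]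
      have c0 : (2 : ℝ) ^ γ x * G x ≤ C2 * k * (p : ℝ) ^ 2 := by exact_mod_cast hG
      calc K * 2 ^ γ x * (G x : ℝ) = K * (2 ^ γ x * G x) := by ring
        _ ≤ K * (C2 * k * (p : ℝ) ^ 2) := mul_le_mul_of_nonneg_left c0 hK.le
        _ = K * C2 * k * (p : ℝ) ^ 2 := by ring
    have e2 : ((⌈K * C2⌉₊ + 20 : ℕ) : ℝ) * k ≤ lam * T x := by
      have f2 : (0 : ℝ) ≤ ((⌈K * C2⌉₊ + 20 : ℕ) : ℝ) * k := by positivity
      have f3 : lam * T x = (2 * Real.log 2) * (((⌈K * C2⌉₊ + 20 : ℕ) : ℝ) * k) := by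
        rw [hlam, hT]
        push_cast
        have : ((g : ℝ) + 1) ≠ 0 := by positivity
        field_simp
      have f4 : (1 : ℝ) ≤ 2 * Real.log 2 := by
        have := Real.log_two_gt_d9
        linarith
      rw [f3]
      nlinarith
    calc Real.exp (-(lam * T x)) * (block p hp D).mom lam (Z x)
        ≤ Real.exp (-(((⌈K * C2⌉₊ + 20 : ℕ) : ℝ) * k)) * Real.exp (K * C2 * k) := by
          refine mul_le_mul ?_ (hmom.trans ?_) (mom_nonneg _ _ _) (Real.exp_pos _).le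
          · rw [Real.exp_le_exp]; linarith
          · rw [Real.exp_le_exp]; exact e1
      _ = Real.exp (-(((⌈K * C2⌉₊ + 20 : ℕ) : ℝ) * k) + K * C2 * k) :=
          (Real.exp_add _ _).symm
      _ ≤ Real.exp (-(20 * k)) := by
          rw [Real.exp_le_exp]
          have c1 : K * C2 ≤ (⌈K * C2⌉₊ : ℝ) := Nat.le_ceil _
          push_cast
          nlinarith
  -- union bound
  calc (block p hp D).Pr (fun ω => ¬ ∀ x ∈ I, ((((block p hp D).S ω) ∩ Z x).card : ℝ) ≤ T x)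
      ≤ (block p hp D).Pr (fun ω => ∃ x ∈ I,
          T x ≤ ((((block p hp D).S ω) ∩ Z x).card : ℝ)) := by
        apply Pr_mono
        intro ω hω
        push Not at hω
        obtain ⟨x, hx, hn⟩ := hω
        exact ⟨x, hx, hn.le⟩
    _ ≤ ∑ x ∈ I, (block p hp D).Pr (fun ω =>
          T x ≤ ((((block p hp D).S ω) ∩ Z x).card : ℝ)) := Pr_exists_le _ _ _
    _ ≤ ∑ x ∈ I, Real.exp (-(20 * k)) := Finset.sum_le_sum (fun x hx => hone x hx)
    _ = I.card * Real.exp (-(20 * k)) := by rw [Finset.sum_const, nsmul_eq_mul]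
    _ ≤ 1 / 2 ^ (k + 3) := by
        have d1 : (2 : ℝ) ^ (20 * k) ≤ Real.exp (20 * k) := by
          have : (2 : ℝ) ≤ Real.exp 1 := by
            have := Real.add_one_le_exp (1 : ℝ)
            linarith
          calc (2 : ℝ) ^ (20 * k) ≤ (Real.exp 1) ^ (20 * k) := pow_le_pow_left₀ (by norm_num) this _
            _ = Real.exp (20 * k) := by
              rw [← Real.exp_nat_mul]
              push_cast
              rw [mul_one]
        have d2 : I.card * 2 ^ (k + 3) ≤ 2 ^ (20 * k) := by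
          calc I.card * 2 ^ (k + 3) ≤ 2 ^ (18 * k) * 2 ^ (k + 3) := Nat.mul_le_mul_right _ hI
            _ = 2 ^ (18 * k + (k + 3)) := by rw [← pow_add]
            _ ≤ 2 ^ (20 * k) := Nat.pow_le_pow_right (by norm_num) (by omega)
        have d3 : (I.card : ℝ) * 2 ^ (k + 3) ≤ 2 ^ (20 * k) := by exact_mod_cast d2
        rw [Real.exp_neg, ← div_eq_mul_inv, div_le_div_iff₀ (Real.exp_pos _) (by positivity)]
        linarith

end Pool.Agent.Helper667_QS
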