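import Pool.Agent.Helper667_QS.Build

/-!
# The induction
-/

set_option autoImplicit false

namespace Pool.Agent.Helper667_QS

open Finset Pool.Agent.H125R2.ET Pool.Agent.Helper667_AS

/-- `A` has many representations of some number in `[2 ^ k, 2 ^ (k + 1))` -/
def Loud (a g f c : ℕ) (A : Set ℕ) (k : ℕ) : Prop :=
  ∃ n, 2 ^ k ≤ n ∧ n < 2 ^ (k + 1) ∧ c * ((Lg k) ^ f * (k + 1) ^ a) < (rA A n) ^ (a + g)

open Classical in
/-- the number of loud scales -/
noncomputable def lc (a g f c : ℕ) (A : Set ℕ) (K : ℕ) : ℕ :=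
  ((range K).filter (fun k => Loud a g f c A k)).card

/-- a basis with few loud scales -/
structure QGood (a g f : ℕ) (A : Set ℕ) (c : ℕ) : Prop where
  rep : ∀ n, rA A n * Lg (Nat.log 2 n + 1) ≤ c * (Nat.log 2 n + 1)
  cov : ∃ N0, CovP A N0
  few : ∀ K, (lc a g f c A K) ^ (a + g) ≤ c * K ^ (g + 1)

theorem lc_le (a g f c : ℕ) (A : Set ℕ) (K : ℕ) : lc a g f c A K ≤ K := by
  classical
  unfold lc
  exact (card_filter_le _ _).trans (card_range K).le

theorem lc_mono (a g f c : ℕ) (A : Set ℕ) {K L : ℕ} (h : K ≤ L) :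
    lc a g f c A K ≤ lc a g f c A L := by
  classical
  unfold lc
  exact card_le_card (filter_subset_filter _ (range_subset_range.2 h))

theorem loud_mono {a g f c c' : ℕ} (h : c ≤ c') {A : Set ℕ} {k : ℕ} (hl : Loud a g f c' A k) :
    Loud a g f c A k := by
  obtain ⟨n, h1, h2, h3⟩ := hl
  exact ⟨n, h1, h2, lt_of_le_of_lt (Nat.mul_le_mul_right _ h) h3⟩

/-- the basis of the starting files -/
theorem thin_basis' : ∃ A : Set ℕ,
    (∃ N0, ∀ N ≥ N0, ∃ a ∈ A, ∃ b ∈ A, a + b = N ∧ N ≤ a ^ 2 ∧ N ≤ b ^ 2) ∧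
    (∃ B : ℝ, 0 < B ∧ ∀ n : ℕ, 3 ≤ n →
      (rA A n : ℝ) ≤ B * (Real.log n / Real.log (Real.log n))) := by
  obtain ⟨C, hC⟩ := base_exists
  have hM : BlockMom C := block_mom C
  have hR : BlockRange C := block_range C
  obtain ⟨C3, K0, B, c, hc, hgood⟩ := T18.good_seq2_of exists_good C hR (reg_prob C hM hR) (spr_prob C hM hR)
    (fin_prob C hM hR) (low_class C) (tail_prob C hM hR)
  set K : ℕ := K0 + C + 3 with hKdef
  obtain ⟨s⟩ := exists_sys C K (by omega) hC
  obtain ⟨ω, hω1, hω2⟩ := hgood K (by omega) s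
  have h7 : ∀ i, 7 < s.p i := by
    intro i
    have : 2 ^ 3 ≤ 2 ^ (K + i) := Nat.pow_le_pow_right (by norm_num) (by omega)
    have := s.lo i
    omega
  have hCp : ∀ i, C ≤ s.p i := by
    intro i
    have h1 : K + i < 2 ^ (K + i) := Nat.lt_two_pow_self
    have := s.lo i
    omega
  have hpos : ∀ i, 0 < s.p i := fun i => (s.prime i).pos
  set S : ℕ → Finset ℕ := fun i => (s.X i).S (ω i) with hS
  set R : ℕ := C ^ 4 + C * (2 * C * C) ^ 3 with hRdef
  have hB : Blocks C K C3 R s.p S := by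
    refine ⟨s.lo, s.hi, ?_, ?_, ?_, ?_, ?_, ?_⟩
    · intro i a ha
      exact ((hR (s.p i) (s.prime i).pos (h7 i) (hCp i) (s.D i) (s.base i) (ω i)).1 a ha).1
    · intro i a ha
      exact ((hR (s.p i) (s.prime i).pos (h7 i) (hCp i) (s.D i) (s.base i) (ω i)).1 a ha).2
    · intro i
      refine le_trans (hR (s.p i) (s.prime i).pos (h7 i) (hCp i) (s.D i) (s.base i) (ω i)).2 ?_
      exact Nat.mul_le_mul_right _ (Nat.le_add_right _ _)
    · intro i n h1 h2
      obtain ⟨a, ha, b, hb, hab⟩ := block_cov C (s.p i) (s.prime i).pos (h7 i) (s.D i) (s.base i)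
        (ω i) (ω i) n h1 h2
      exact ⟨a, ha, b, hb, hab⟩
    · intro i n
      refine le_trans (block_rep C (s.p i) (s.prime i).pos (s.D i) (s.base i) (ω i) (ω i) n) ?_
      exact Nat.le_add_left _ _
    · intro i n
      exact hω1 i n
  have hcount := blocks_count C K C3 R s.p S hB
  refine ⟨bigA S, ?_, blocks_upper C K C3 R (by omega) s.p S hB hcount⟩
  refine ⟨11 * (s.p 0) ^ 8, fun n hn => ?_⟩
  have hex : ∃ j, n < 11 * (s.p j) ^ 8 := by
    refine ⟨n, ?_⟩
    have h1 : 2 ^ (K + n) < s.p n := hB.lo n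
    have h2 : n < 2 ^ (K + n) := lt_of_lt_of_le Nat.lt_two_pow_self
      (Nat.pow_le_pow_right (by norm_num) (by omega))
    have h3 : s.p n ≤ (s.p n) ^ 8 := Nat.le_self_pow (by norm_num) _
    omega
  classical
  obtain ⟨j, hj, hmin⟩ : ∃ j, n < 11 * (s.p j) ^ 8 ∧ ∀ k < j, ¬ n < 11 * (s.p k) ^ 8 :=
    ⟨Nat.find hex, Nat.find_spec hex, fun k hk => Nat.find_min hex hk⟩
  have hj0 : j ≠ 0 := by
    intro hj0
    subst hj0
    omega
  obtain ⟨i, rfl⟩ := Nat.exists_eq_succ_of_ne_zero hj0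
  have hi : 11 * (s.p i) ^ 8 ≤ n := not_lt.mp (hmin i (Nat.lt_succ_self i))
  have hup : n < 2 ^ 20 * (s.p i) ^ 8 := by
    have h1 : s.p (i + 1) ≤ 2 ^ (K + (i + 1) + 1) := hB.hi (i + 1)
    have h2 : 2 ^ (K + i) < s.p i := hB.lo i
    have h3 : s.p (i + 1) ≤ 4 * s.p i := by
      have : 2 ^ (K + (i + 1) + 1) = 4 * 2 ^ (K + i) := by ring
      omega
    have h4 : (s.p (i + 1)) ^ 8 ≤ (4 * s.p i) ^ 8 := Nat.pow_le_pow_left h3 8
    have h5 : (4 * s.p i) ^ 8 = 65536 * (s.p i) ^ 8 := by rw [mul_pow]; norm_num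
    have h6 : n < 11 * (s.p (i + 1)) ^ 8 := hj
    have h7 : (2:ℕ) ^ 20 = 1048576 := by norm_num
    rw [h7]
    have h8 : 0 < (s.p i) ^ 8 := pow_pos (lt_of_le_of_lt (Nat.zero_le _) h2) 8
    omega
  obtain ⟨a, ha, b, hb, hab⟩ := hB.cov i n hi hup
  have hbig : ∀ a ∈ S i, n ≤ a ^ 2 := by
    intro a ha
    have h1 := hB.ge i a ha
    have h2 : 2 ^ 20 ≤ (s.p i) ^ 8 := by
      calc 2 ^ 20 ≤ 8 ^ 8 := by norm_num
        _ ≤ (s.p i) ^ 8 := Nat.pow_le_pow_left (h7 i) 8
    calc n ≤ 2 ^ 20 * (s.p i) ^ 8 := hup.le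
      _ ≤ a * a := Nat.mul_le_mul (h2.trans h1) h1
      _ = a ^ 2 := (sq a).symm
  exact ⟨a, ⟨i, ha⟩, b, ⟨i, hb⟩, hab, hbig a ha, hbig b hb⟩

theorem QGood.rep' {a g f : ℕ} {A : Set ℕ} {c : ℕ} (h : QGood a g f A c) (n : ℕ) :
    rA A n ≤ c * (Nat.log 2 n + 1) := by
  refine le_trans ?_ (h.rep n)
  calc rA A n = rA A n * 1 := (mul_one _).symm
    _ ≤ rA A n * Lg (Nat.log 2 n + 1) := Nat.mul_le_mul_left _ (one_le_Lg _)

theorem log_bounds {n : ℕ} (hn : 3 ≤ n) :
    1 ≤ Real.log n ∧ ((Nat.log 2 n + 1 : ℕ) : ℝ) ≤ 3 * Real.log n := by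
  have h1 : 1 < Real.log n := T22.one_lt_log hn
  refine ⟨h1.le, ?_⟩
  have h2 : 2 ^ Nat.log 2 n ≤ n := Nat.pow_log_le_self 2 (by omega)
  have h3 : ((2 : ℝ)) ^ Nat.log 2 n ≤ n := by exact_mod_cast h2
  have h4 : Real.log ((2 : ℝ) ^ Nat.log 2 n) ≤ Real.log n := Real.log_le_log (by positivity) h3
  rw [Real.log_pow] at h4
  have h5 := Real.log_two_gt_d9
  have h6 : (0 : ℝ) ≤ (Nat.log 2 n : ℝ) := Nat.cast_nonneg _
  push_cast
  nlinarith

/-- `Lg` and the natural logarithm -/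
theorem Lg_le_log {x : ℕ} (hx : x ≠ 0) : (Lg x : ℝ) ≤ Real.log x / Real.log 2 + 1 := by
  have h2 : 2 ^ Nat.log 2 x ≤ x := Nat.pow_log_le_self 2 hx
  have h3 : ((2 : ℝ)) ^ Nat.log 2 x ≤ x := by exact_mod_cast h2
  have h4 : Real.log ((2 : ℝ) ^ Nat.log 2 x) ≤ Real.log x := Real.log_le_log (by positivity) h3
  rw [Real.log_pow] at h4
  have h5 : 0 < Real.log 2 := Real.log_pos (by norm_num)
  unfold Lg
  push_cast
  have h6 : (Nat.log 2 x : ℝ) ≤ Real.log x / Real.log 2 := by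
    rw [le_div_iff₀ h5]
    exact h4
  linarith

/-- the first set -/
theorem qgood_base (a : ℕ) (ha : 1 ≤ a) : ∃ (A : Set ℕ) (c : ℕ), QGood a 0 0 A c := by
  obtain ⟨A, h1, ⟨B, hB, h2⟩⟩ := thin_basis'
  set δ : ℝ := Real.log (Real.log (3 : ℕ)) with hδ
  have hδ0 : 0 < δ := Real.log_pos (T22.one_lt_log (le_refl 3))
  have hlog2 : 0 < Real.log 2 := Real.log_pos (by norm_num)
  have hlog3 : 0 < Real.log 3 := Real.log_pos (by norm_num)
  set H : ℝ := (Real.log 3 / δ + 1) / Real.log 2 + 1 / δ with hH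
  have hH0 : 0 < H := by positivity
  set c1 : ℕ := ⌈B * H⌉₊ + 6 with hc1
  have hrepL : ∀ n, rA A n * Lg (Nat.log 2 n + 1) ≤ c1 * (Nat.log 2 n + 1) := by
    intro n
    rcases Nat.lt_or_ge n 3 with hn | hn
    · have e1 := rA_le A n
      have e2 : Nat.log 2 n + 1 ≤ 2 := by
        have : Nat.log 2 n ≤ Nat.log 2 2 := Nat.log_mono_right (by omega)
        have h22 : Nat.log 2 2 = 1 := Nat.log_pow (by norm_num) 1
        omega
      have e3 : Lg (Nat.log 2 n + 1) ≤ 2 := by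
        refine (Lg_mono e2).trans ?_
        unfold Lg
        have h22 : Nat.log 2 2 = 1 := Nat.log_pow (by norm_num) 1
        omega
      calc rA A n * Lg (Nat.log 2 n + 1) ≤ 3 * 2 := Nat.mul_le_mul (by omega) e3
        _ ≤ c1 * 1 := by omega
        _ ≤ c1 * (Nat.log 2 n + 1) := Nat.mul_le_mul_left _ (by omega)
    · have e1 := h2 n hn
      have e2 : δ ≤ Real.log (Real.log n) := by
        refine Real.log_le_log ?_ (Real.log_le_log (by norm_num) (by exact_mod_cast hn))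
        have := T22.one_lt_log (le_refl 3)
        linarith
      have e3 : 0 ≤ Real.log n := by
        have := T22.one_lt_log hn
        linarith
      have e4 : 0 < Real.log (Real.log n) := lt_of_lt_of_le hδ0 e2
      have e5 : (Lg (Nat.log 2 n + 1) : ℝ) ≤ H * Real.log (Real.log n) := by
        refine (Lg_le_log (by omega)).trans ?_
        have g1 := (log_bounds hn).2
        have g2 : (0 : ℝ) < ((Nat.log 2 n + 1 : ℕ) : ℝ) := by positivity
        have g0 : (1 : ℝ) ≤ Real.log n := (log_bounds hn).1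
        have g3 : Real.log ((Nat.log 2 n + 1 : ℕ) : ℝ) ≤ Real.log 3 + Real.log (Real.log n) := by
          rw [← Real.log_mul (by norm_num) (by linarith)]
          exact Real.log_le_log g2 g1
        have g4 : Real.log 3 ≤ Real.log 3 / δ * Real.log (Real.log n) := by
          rw [div_mul_eq_mul_div, le_div_iff₀ hδ0]
          exact mul_le_mul_of_nonneg_left e2 hlog3.le
        have g5 : 1 ≤ 1 / δ * Real.log (Real.log n) := by
          rw [one_div, inv_mul_eq_div, le_div_iff₀ hδ0]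
          linarith
        have g6 : Real.log ((Nat.log 2 n + 1 : ℕ) : ℝ) / Real.log 2 ≤
            (Real.log 3 / δ + 1) / Real.log 2 * Real.log (Real.log n) := by
          rw [div_mul_eq_mul_div]
          refine div_le_div_of_nonneg_right ?_ hlog2.le
          linarith
        rw [hH, add_mul]
        linarith
      have e6 : ((rA A n * Lg (Nat.log 2 n + 1) : ℕ) : ℝ) ≤
          ((c1 * (Nat.log 2 n + 1) : ℕ) : ℝ) := by
        rw [Nat.cast_mul]
        calc (rA A n : ℝ) * (Lg (Nat.log 2 n + 1) : ℝ)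
            ≤ (B * (Real.log n / Real.log (Real.log n))) * (H * Real.log (Real.log n)) :=
              mul_le_mul e1 e5 (Nat.cast_nonneg _) (by positivity)
          _ = B * H * Real.log n := by field_simp
          _ ≤ c1 * ((Nat.log 2 n + 1 : ℕ) : ℝ) := by
              refine mul_le_mul ?_ (log_le (by omega)) e3 (Nat.cast_nonneg _)
              rw [hc1]
              push_cast
              have := Nat.le_ceil (B * H)
              linarith
          _ = ((c1 * (Nat.log 2 n + 1) : ℕ) : ℝ) := by push_cast; ring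
      exact_mod_cast e6
  have hrep : ∀ n, rA A n ≤ c1 * (Nat.log 2 n + 1) := by
    intro n
    refine le_trans ?_ (hrepL n)
    calc rA A n = rA A n * 1 := (mul_one _).symm
      _ ≤ rA A n * Lg (Nat.log 2 n + 1) := Nat.mul_le_mul_left _ (one_le_Lg _)
  refine ⟨A, c1 ^ a, ?_, h1, ?_⟩
  · intro n
    exact (hrepL n).trans (Nat.mul_le_mul_right _ (Nat.le_self_pow (by omega) _))
  · intro K
    classical
    have h0 : lc a 0 0 (c1 ^ a) A K = 0 := by
      unfold lc
      rw [card_eq_zero, filter_eq_empty_iff]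
      rintro k - ⟨n, hn1, hn2, hn3⟩
      have hn0 : n ≠ 0 := by
        have : 0 < 2 ^ k := by positivity
        omega
      have e1 : Nat.log 2 n < k + 1 := (Nat.log_lt_iff_lt_pow (by norm_num) hn0).2 hn2
      have e2 : (rA A n) ^ (a + 0) ≤ c1 ^ a * ((Lg k) ^ 0 * (k + 1) ^ a) := by
        calc (rA A n) ^ (a + 0) ≤ (c1 * (Nat.log 2 n + 1)) ^ a := Nat.pow_le_pow_left (hrep n) a
          _ ≤ (c1 * (k + 1)) ^ a := Nat.pow_le_pow_left (Nat.mul_le_mul_left _ (by omega)) a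
          _ = c1 ^ a * ((Lg k) ^ 0 * (k + 1) ^ a) := by rw [mul_pow, pow_zero, one_mul]
      omega
    rw [h0, Nat.add_zero, zero_pow (by omega)]
    exact Nat.zero_le _

/-- the loud scales of one window -/
theorem lc_window {A B : Set ℕ} {a g f c a' g' f' c' κ κ' u L1 : ℕ} (hu : 8 * κ' ≤ 8 * κ + u)
    (hA : ∀ l, L1 ≤ l → 8 * κ + l < 8 * κ' → (∀ t < 11, ¬ Loud a g f c B (l - t)) →
      ¬ Loud a' g' f' c' A (8 * κ + l)) :
    lc a' g' f' c' A (8 * κ') ≤ lc a' g' f' c' A (8 * κ) + (L1 + 11 * lc a g f c B u) := by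
  classical
  have hsub : (range (8 * κ')).filter (fun k => Loud a' g' f' c' A k) ⊆
      (range (8 * κ)).filter (fun k => Loud a' g' f' c' A k) ∪
      (Ico (8 * κ) (8 * κ + L1) ∪
        (range 11).biUnion (fun t => ((range u).filter (fun k => Loud a g f c B k)).image
          (fun k => 8 * κ + (k + t)))) := by
    intro k hk
    rw [mem_filter, mem_range] at hk
    rw [mem_union, mem_union, mem_Ico, mem_filter, mem_range]
    by_cases h1 : k < 8 * κ
    · exact Or.inl ⟨h1, hk.2⟩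
    · obtain ⟨l, rfl⟩ := Nat.exists_eq_add_of_le (not_lt.1 h1)
      by_cases h2 : l < L1
      · exact Or.inr (Or.inl ⟨by omega, by omega⟩)
      · refine Or.inr (Or.inr ?_)
        have h4 : ∃ t < 11, t ≤ l ∧ Loud a g f c B (l - t) := by
          by_contra hc
          push Not at hc
          refine hA l (by omega) hk.1 (fun t ht hl => ?_) hk.2
          by_cases htl : t ≤ l
          · exact hc t ht htl hl
          · have : l - t = l - l := by omega
            rw [this] at hl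
            exact hc l (by omega) le_rfl hl
        obtain ⟨t, ht, htl, hb⟩ := h4
        rw [mem_biUnion]
        refine ⟨t, mem_range.2 ht, mem_image.2 ⟨l - t, ?_, by omega⟩⟩
        rw [mem_filter, mem_range]
        exact ⟨by omega, hb⟩
  have hc1 : ((range 11).biUnion (fun t => ((range u).filter (fun k => Loud a g f c B k)).image
          (fun k => 8 * κ + (k + t)))).card ≤ 11 * lc a g f c B u := by
    refine (card_biUnion_le_card_mul _ _ (lc a g f c B u) (fun t _ => ?_)).trans ?_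
    · unfold lc
      exact card_image_le
    · rw [card_range]
  have hc2 : (Ico (8 * κ) (8 * κ + L1)).card = L1 := by simp
  have e1 := card_le_card hsub
  have e2 := card_union_le ((range (8 * κ)).filter (fun k => Loud a' g' f' c' A k))
    (Ico (8 * κ) (8 * κ + L1) ∪
        (range 11).biUnion (fun t => ((range u).filter (fun k => Loud a g f c B k)).image
          (fun k => 8 * κ + (k + t))))
  have e3 := card_union_le (Ico (8 * κ) (8 * κ + L1))
    ((range 11).biUnion (fun t => ((range u).filter (fun k => Loud a g f c B k)).image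
          (fun k => 8 * κ + (k + t))))
  unfold lc
  unfold lc at hc1
  omega

/-- the width of the blocks -/
def wq (e a x : ℕ) : ℕ := 8 * ((x + 1) ^ (e + 2) - x ^ (e + 2)) + a

theorem wq_eq (e a x : ℕ) : 8 * x ^ (e + 2) + wq e a x = 8 * (x + 1) ^ (e + 2) + a := by
  unfold wq
  have : x ^ (e + 2) ≤ (x + 1) ^ (e + 2) := Nat.pow_le_pow_left (Nat.le_succ x) _
  omega

theorem pow_diff_mono (n : ℕ) : ∀ x y : ℕ, x ≤ y → (x + 1) ^ n - x ^ n ≤ (y + 1) ^ n - y ^ n := by
  induction n with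
  | zero => intro x y _; simp
  | succ n ih =>
    intro x y hxy
    have h : ∀ z : ℕ, (z + 1) ^ (n + 1) - z ^ (n + 1) = (z + 1) * ((z + 1) ^ n - z ^ n) + z ^ n := by
      intro z
      have h1 : z ^ n ≤ (z + 1) ^ n := Nat.pow_le_pow_left (Nat.le_succ z) n
      obtain ⟨d, hd⟩ := Nat.exists_eq_add_of_le h1
      have h2 : (z + 1) ^ (n + 1) = (z + 1) * d + z ^ n + z ^ (n + 1) := by
        rw [pow_succ, hd, pow_succ]
        ring
      rw [hd, h2, Nat.add_sub_cancel, Nat.add_sub_cancel_left]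
    rw [h x, h y]
    exact Nat.add_le_add (Nat.mul_le_mul (by omega) (ih x y hxy)) (Nat.pow_le_pow_left hxy n)

theorem wq_mono (e a : ℕ) {x y : ℕ} (h : x ≤ y) : wq e a x ≤ wq e a y := by
  unfold wq
  have := pow_diff_mono (e + 2) x y h
  omega

theorem wq_le {e a x : ℕ} (hx : 1 ≤ x) :
    wq e a x ≤ (8 * (e + 2) * 2 ^ (e + 1) + a) * x ^ (e + 1) := by
  have h1 := pow_succ_sub x (e + 1)
  have h2 : (x + 1) ^ (e + 2) - x ^ (e + 2) ≤ (e + 2) * (x + 1) ^ (e + 1) := by
    have e1 : e + 1 + 1 = e + 2 := rfl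
    rw [e1] at h1
    omega
  have h3 : (x + 1) ^ (e + 1) ≤ 2 ^ (e + 1) * x ^ (e + 1) := by
    rw [← mul_pow]
    exact Nat.pow_le_pow_left (by omega) _
  have h4 : 1 ≤ x ^ (e + 1) := Nat.one_le_pow _ _ hx
  unfold wq
  calc 8 * ((x + 1) ^ (e + 2) - x ^ (e + 2)) + a
      ≤ 8 * ((e + 2) * (2 ^ (e + 1) * x ^ (e + 1))) + a * x ^ (e + 1) :=
        Nat.add_le_add (Nat.mul_le_mul_left _ (h2.trans (Nat.mul_le_mul_left _ h3)))
          (by
            calc a = a * 1 := (mul_one a).symm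
              _ ≤ a * x ^ (e + 1) := Nat.mul_le_mul_left _ h4)
    _ = (8 * (e + 2) * 2 ^ (e + 1) + a) * x ^ (e + 1) := by ring

/-- the logarithm is small -/
theorem Lg_small (M e : ℕ) : ∃ N : ℕ, ∀ x ≥ N, ∀ u, u ≤ x ^ e → M * (Lg u) ^ 2 ≤ x := by
  rcases Nat.eq_zero_or_pos e with he | he
  · subst he
    refine ⟨M * 4, fun x hx u hu => ?_⟩
    have h1 : Lg u ≤ 2 := by
      unfold Lg
      have : Nat.log 2 u ≤ Nat.log 2 1 := Nat.log_mono_right (by simpa using hu)
      rw [Nat.log_one_right] at this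
      omega
    calc M * (Lg u) ^ 2 ≤ M * 2 ^ 2 := Nat.mul_le_mul_left _ (Nat.pow_le_pow_left h1 2)
      _ ≤ x := by omega
  · obtain ⟨N, hN⟩ := pow_le_two_pow (3 * e + 1)
    refine ⟨M * (N + M + 2) ^ 2, fun x hx u hu => ?_⟩
    obtain ⟨y, hy⟩ : ∃ y, y = Lg u := ⟨_, rfl⟩
    rw [← hy]
    by_cases hyN : y < N + M + 2
    · exact (Nat.mul_le_mul_left _ (Nat.pow_le_pow_left hyN.le 2)).trans hx
    · push Not at hyN
      have hu0 : u ≠ 0 := by
        rintro rfl
        unfold Lg at hy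
        simp at hy
        omega
      have h1 : 2 ^ (y - 1) ≤ u := by
        have : y - 1 = Nat.log 2 u := by rw [hy]; unfold Lg; omega
        rw [this]
        exact Nat.pow_log_le_self 2 hu0
      have h2 : y ^ (3 * e + 1) ≤ 2 ^ y := hN y (by omega)
      have h3 : 2 ^ y = 2 * 2 ^ (y - 1) := by
        obtain ⟨y', rfl⟩ : ∃ y', y = y' + 1 := ⟨y - 1, by omega⟩
        simp only [Nat.add_sub_cancel]
        ring
      have h4 : 2 * (M * y ^ 2) ^ e ≤ 2 * 2 ^ (y - 1) := by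
        calc 2 * (M * y ^ 2) ^ e ≤ y * (y * y ^ 2) ^ e :=
              Nat.mul_le_mul (by omega) (Nat.pow_le_pow_left (Nat.mul_le_mul_right _ (by omega)) e)
          _ = y ^ (3 * e + 1) := by
              have h5 : y * y ^ 2 = y ^ 3 := by ring
              rw [h5, ← pow_mul, ← pow_succ']
          _ ≤ 2 ^ y := h2
          _ = 2 * 2 ^ (y - 1) := h3
      have h5 : (M * y ^ 2) ^ e ≤ x ^ e := by omega
      exact (Nat.pow_le_pow_iff_left (by omega)).1 h5

/-- `x / Lg x` is increasing up to a constant -/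
theorem Lg_ratio {x y : ℕ} (hx : 1 ≤ x) (hxy : x ≤ y) : x * Lg y ≤ 2 * y * Lg x := by
  obtain ⟨a, ha⟩ : ∃ a, a = Nat.log 2 x := ⟨_, rfl⟩
  obtain ⟨b, hb⟩ : ∃ b, b = Nat.log 2 y := ⟨_, rfl⟩
  have hLx : Lg x = a + 1 := by rw [ha]; rfl
  have hLy : Lg y = b + 1 := by rw [hb]; rfl
  have hab : a ≤ b := by rw [ha, hb]; exact Nat.log_mono_right hxy
  rw [hLx, hLy]
  have h1 : x < 2 ^ (a + 1) := by rw [ha]; exact Nat.lt_pow_succ_log_self (by norm_num) x
  have h2 : 2 ^ b ≤ y := by rw [hb]; exact Nat.pow_log_le_self 2 (by omega)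
  obtain ⟨t, rfl⟩ := Nat.exists_eq_add_of_le hab
  have h3 : a + t + 1 ≤ 2 ^ t * (a + 1) := by
    have e1 : t + 1 ≤ 2 ^ t := Nat.lt_two_pow_self
    calc a + t + 1 ≤ (t + 1) * (a + 1) := by nlinarith
      _ ≤ 2 ^ t * (a + 1) := Nat.mul_le_mul_right _ e1
  calc x * (a + t + 1) ≤ 2 ^ (a + 1) * (2 ^ t * (a + 1)) := Nat.mul_le_mul h1.le h3
    _ = 2 * 2 ^ (a + t) * (a + 1) := by rw [pow_add 2 a 1, pow_add 2 a t]; ring
    _ ≤ 2 * y * (a + 1) := Nat.mul_le_mul_right _ (Nat.mul_le_mul_left _ h2)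

end Pool.Agent.Helper667_QS
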