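import Pool.Agent.Helper667_QS.Cls

/-!
# Numerical bounds for the class counts
-/

set_option autoImplicit false

namespace Pool.Agent.Helper667_QS

open Finset Pool.Agent.H125R2.ET Pool.Agent.Helper667_AS

theorem poly_le (a b : ℕ) (hb : 0 < b) : ∃ N : ℕ, ∀ x ≥ N, x ^ a ≤ 2 ^ (x / b) := by
  obtain ⟨N, hN⟩ := pow_le_two_pow (2 * a)
  refine ⟨b * (N + 2 * b + 1), fun x hx => ?_⟩
  obtain ⟨y, hy⟩ : ∃ y, y = x / b := ⟨_, rfl⟩
  have h1 : N + 2 * b + 1 ≤ y := by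
    rw [hy]
    exact (Nat.le_div_iff_mul_le hb).2 (by rw [mul_comm]; exact hx)
  have h2 : x ≤ y ^ 2 := by
    have e1 := Nat.div_add_mod x b
    have e2 := Nat.mod_lt x hb
    rw [← hy] at e1
    have e3 : b * y ≤ b * y := le_rfl
    have e4 : 2 * b * y ≤ y * y := Nat.mul_le_mul_right _ (by omega)
    have e5 : b * 1 ≤ b * y := Nat.mul_le_mul_left _ (by omega)
    have e6 : 2 * b * y = b * y + b * y := by ring
    rw [sq]
    omega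
  rw [← hy]
  calc x ^ a ≤ (y ^ 2) ^ a := Nat.pow_le_pow_left h2 a
    _ = y ^ (2 * a) := by rw [← pow_mul]
    _ ≤ 2 ^ y := hN y (by omega)

theorem Lg_le (u : ℕ) : Lg u ≤ 2 ^ u := by
  unfold Lg
  have h1 := Nat.log_le_self 2 u
  have h2 : u < 2 ^ u := Nat.lt_two_pow_self
  omega

theorem Lg_mono {u v : ℕ} (h : u ≤ v) : Lg u ≤ Lg v := by
  unfold Lg
  have := Nat.log_mono_right (b := 2) h
  omega

theorem one_le_Lg (u : ℕ) : 1 ≤ Lg u := by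
  unfold Lg
  omega

theorem TSys.Bc {C J : ℕ} (s : TSys C J) (j : ℕ) : (s.B j).card ≤ 2 ^ s.u j := by
  calc (s.B j).card ≤ (Finset.range (2 ^ s.u j)).card :=
        card_le_card (fun b hb => mem_range.2 (s.Blt j b hb))
    _ = 2 ^ s.u j := card_range _

theorem TSys.κle {C J : ℕ} (s : TSys C J) {i j : ℕ} (h : j < i) : s.κ j ≤ s.κ i := by
  have := s.κlt h
  omega

/-- the first part of `lowT` -/
def low1 {C J : ℕ} (s : TSys C J) (C1 d i : ℕ) : ℕ :=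
  ∑ j ∈ range i, Lg (s.u j) * ((s.B j).card * (2 * (C1 * ((C + 4) * (s.p j) ^ 4 / d))))

/-- the second part of `lowT` -/
def low2 {C J : ℕ} (s : TSys C J) (C1 i : ℕ) : ℕ :=
  ∑ j ∈ range i, Lg (s.u j) * ((s.B j).card * (2 * (C1 * (2 ^ s.u j * s.κ j))))

theorem lowT_eq {C J : ℕ} (s : TSys C J) (C1 d i : ℕ) :
    lowT s C1 d i = low1 s C1 d i + low2 s C1 i := by
  unfold lowT low1 low2
  rw [← Finset.sum_add_distrib]
  refine Finset.sum_congr rfl (fun j _ => ?_)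
  ring

theorem low2_le {C J : ℕ} (s : TSys C J) (C1 i : ℕ) :
    low2 s C1 i ≤ 2 * C1 * (s.κ i) ^ 2 * (2 ^ s.u i) ^ 3 := by
  obtain ⟨x, hx⟩ : ∃ x, x = 2 ^ s.u i := ⟨_, rfl⟩
  have h1 : ∀ j ∈ range i, Lg (s.u j) * ((s.B j).card * (2 * (C1 * (2 ^ s.u j * s.κ j)))) ≤
      x * (x * (2 * (C1 * (x * s.κ i)))) := by
    intro j hj
    have hj' : j < i := mem_range.1 hj
    have e1 : 2 ^ s.u j ≤ x := by
      rw [hx]
      exact Nat.pow_le_pow_right (by norm_num) (s.umono hj'.le)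
    exact Nat.mul_le_mul ((Lg_le _).trans e1) (Nat.mul_le_mul ((s.Bc j).trans e1)
      (Nat.mul_le_mul_left _ (Nat.mul_le_mul_left _ (Nat.mul_le_mul e1 (s.κle hj')))))
  unfold low2
  refine (Finset.sum_le_card_nsmul _ _ _ h1).trans ?_
  rw [card_range, smul_eq_mul, ← hx]
  calc i * (x * (x * (2 * (C1 * (x * s.κ i))))) ≤ s.κ i * (x * (x * (2 * (C1 * (x * s.κ i))))) :=
        Nat.mul_le_mul_right _ (s.idx i)
    _ = 2 * C1 * (s.κ i) ^ 2 * x ^ 3 := by ring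

theorem low1_four {C J : ℕ} (s : TSys C J) (C1 i : ℕ) :
    low1 s C1 ((s.p i) ^ 4) i ≤ 2 * C1 * (s.κ i) ^ 2 * (2 ^ s.u i) ^ 3 := by
  obtain ⟨x, hx⟩ : ∃ x, x = 2 ^ s.u i := ⟨_, rfl⟩
  have hx1 : 1 ≤ x := by rw [hx]; exact Nat.one_le_two_pow
  have h1 : ∀ j ∈ range i, Lg (s.u j) * ((s.B j).card *
      (2 * (C1 * ((C + 4) * (s.p j) ^ 4 / (s.p i) ^ 4)))) ≤
      x * (x * (2 * (C1 * (x * s.κ i)))) := by
    intro j hj
    have hj' : j < i := mem_range.1 hj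
    have e1 : 2 ^ s.u j ≤ x := by
      rw [hx]
      exact Nat.pow_le_pow_right (by norm_num) (s.umono hj'.le)
    have e2 : (C + 4) * (s.p j) ^ 4 / (s.p i) ^ 4 ≤ C + 4 := by
      apply Nat.div_le_of_le_mul
      rw [mul_comm]
      exact Nat.mul_le_mul_right _ (Nat.pow_le_pow_left (s.plt hj').le 4)
    have e3 : C + 4 ≤ x * s.κ i := by
      have := s.Cκ i
      have e4 : 1 * s.κ i ≤ x * s.κ i := Nat.mul_le_mul_right _ hx1
      omega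
    exact Nat.mul_le_mul ((Lg_le _).trans e1) (Nat.mul_le_mul ((s.Bc j).trans e1)
      (Nat.mul_le_mul_left _ (Nat.mul_le_mul_left _ (e2.trans e3))))
  unfold low1
  refine (Finset.sum_le_card_nsmul _ _ _ h1).trans ?_
  rw [card_range, smul_eq_mul, ← hx]
  calc i * (x * (x * (2 * (C1 * (x * s.κ i))))) ≤ s.κ i * (x * (x * (2 * (C1 * (x * s.κ i))))) :=
        Nat.mul_le_mul_right _ (s.idx i)
    _ = 2 * C1 * (s.κ i) ^ 2 * x ^ 3 := by ring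

theorem lowT_four' (C1 : ℕ) : ∃ K0 : ℕ, ∀ {C J : ℕ} (s : TSys C J) (i : ℕ), K0 ≤ s.κ i →
    (lowT s C1 ((s.p i) ^ 4) i) ^ 2 ≤ 2 ^ s.κ i := by
  obtain ⟨N, hN⟩ := poly_le 7 2 (by norm_num)
  refine ⟨N + C1 + 16, fun {C J} s i hK => ?_⟩
  have h1 := low1_four s C1 i
  have h2 := low2_le s C1 i
  have h3 := lowT_eq s C1 ((s.p i) ^ 4) i
  obtain ⟨k, hk⟩ : ∃ k, k = s.κ i := ⟨_, rfl⟩
  have hu := s.ule i
  rw [← hk] at h1 h2 hK hu ⊢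
  have h4 : lowT s C1 ((s.p i) ^ 4) i ≤ 4 * C1 * k ^ 2 * (2 ^ s.u i) ^ 3 := by
    rw [h3]
    calc _ ≤ 2 * C1 * k ^ 2 * (2 ^ s.u i) ^ 3 + 2 * C1 * k ^ 2 * (2 ^ s.u i) ^ 3 :=
          Nat.add_le_add h1 h2
      _ = 4 * C1 * k ^ 2 * (2 ^ s.u i) ^ 3 := by ring
  calc (lowT s C1 ((s.p i) ^ 4) i) ^ 2 ≤ (4 * C1 * k ^ 2 * (2 ^ s.u i) ^ 3) ^ 2 :=
        Nat.pow_le_pow_left h4 2
    _ = 16 * C1 ^ 2 * k ^ 4 * 2 ^ (6 * s.u i) := by
        rw [mul_comm 6 (s.u i), pow_mul]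
        ring
    _ ≤ k * k ^ 2 * k ^ 4 * 2 ^ (6 * s.u i) := by
        gcongr
        · omega
        · omega
    _ = k ^ 7 * 2 ^ (6 * s.u i) := by ring
    _ ≤ 2 ^ (k / 2) * 2 ^ (6 * s.u i) := Nat.mul_le_mul_right _ (hN k (by omega))
    _ = 2 ^ (k / 2 + 6 * s.u i) := (pow_add _ _ _).symm
    _ ≤ 2 ^ k := Nat.pow_le_pow_right (by norm_num) (by omega)

/-- the elements of the lower blocks, counted with weights -/
theorem sumN {C J : ℕ} (s : TSys C J) (i : ℕ) : ∀ i' ≤ i,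
    (∑ j ∈ range i', (s.B j).card * (s.p j) ^ 4) ^ 2 ≤ 4 * (s.ρ i * 2 ^ (8 * s.κ i' + J)) := by
  intro i'
  induction i' with
  | zero => intro _; simp
  | succ i' ih =>
    intro h
    have ih' := ih (by omega)
    rw [sum_range_succ]
    obtain ⟨a, ha⟩ : ∃ a, a = ∑ j ∈ range i', (s.B j).card * (s.p j) ^ 4 := ⟨_, rfl⟩
    obtain ⟨b, hb⟩ : ∃ b, b = (s.B i').card * (s.p i') ^ 4 := ⟨_, rfl⟩
    rw [← ha] at ih'
    rw [← ha, ← hb]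
    have h1 : b ^ 2 ≤ s.ρ i * 2 ^ (8 * s.κ (i' + 1) + J) := by
      have e1 := card_sq_le (s.Blt i') (s.Brep i')
      have e2 : ((s.p i') ^ 4) ^ 2 ≤ 2 ^ (8 * s.κ i' + 8) := by
        have := (s.pow_le i').2
        calc ((s.p i') ^ 4) ^ 2 = (s.p i') ^ 8 := by ring
          _ ≤ _ := this
      have e3 := s.ρmono (show i' ≤ i by omega)
      have e4 := s.uκ i'
      calc b ^ 2 = (s.B i').card ^ 2 * ((s.p i') ^ 4) ^ 2 := by rw [hb]; ring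
        _ ≤ (2 ^ (s.u i' + 1) * s.ρ i') * 2 ^ (8 * s.κ i' + 8) := Nat.mul_le_mul e1 e2
        _ ≤ (2 ^ (s.u i' + 1) * s.ρ i) * 2 ^ (8 * s.κ i' + 8) :=
            Nat.mul_le_mul_right _ (Nat.mul_le_mul_left _ e3)
        _ = s.ρ i * 2 ^ (s.u i' + 1 + (8 * s.κ i' + 8)) := by rw [pow_add]; ring
        _ ≤ s.ρ i * 2 ^ (8 * s.κ (i' + 1) + J) :=
            Nat.mul_le_mul_left _ (Nat.pow_le_pow_right (by norm_num) (by omega))
    have h2 : 4 * (4 * (s.ρ i * 2 ^ (8 * s.κ i' + J))) ≤ 4 * (s.ρ i * 2 ^ (8 * s.κ (i' + 1) + J)) := by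
      have e1 := s.κs i'
      have e2 : 4 * 2 ^ (8 * s.κ i' + J) ≤ 2 ^ (8 * s.κ (i' + 1) + J) := by
        calc 4 * 2 ^ (8 * s.κ i' + J) = 2 ^ (8 * s.κ i' + J + 2) := by ring
          _ ≤ _ := Nat.pow_le_pow_right (by norm_num) (by omega)
      calc 4 * (4 * (s.ρ i * 2 ^ (8 * s.κ i' + J)))
          = 4 * (s.ρ i * (4 * 2 ^ (8 * s.κ i' + J))) := by ring
        _ ≤ _ := Nat.mul_le_mul_left _ (Nat.mul_le_mul_left _ e2)
    have h3 : (a + b) ^ 2 ≤ 2 * a ^ 2 + 2 * b ^ 2 := by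
      zify
      nlinarith [sq_nonneg ((a : ℤ) - b)]
    obtain ⟨X, hX⟩ : ∃ X, X = s.ρ i * 2 ^ (8 * s.κ i' + J) := ⟨_, rfl⟩
    obtain ⟨Y, hY⟩ : ∃ Y, Y = s.ρ i * 2 ^ (8 * s.κ (i' + 1) + J) := ⟨_, rfl⟩
    rw [← hX] at ih' h2
    rw [← hY] at h1 h2 ⊢
    omega

theorem lowT_two' (C J C1 : ℕ) : ∃ C2 K0 : ℕ, ∀ (s : TSys C J) (i : ℕ), K0 ≤ s.κ i →
    ∀ c E : ℕ, 16 * 2 ^ c < s.u i → E ^ 2 ≤ 2 * TT c * s.ρ i →
    2 ^ (2 ^ c + s.w i) * (E * lowT s C1 ((s.p i) ^ 2 * TT c) i) ≤ C2 * s.κ i * (s.p i) ^ 2 := by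
  obtain ⟨N, hN⟩ := poly_le 5 2 (by norm_num)
  refine ⟨6 * C1 * (C + 4) * 2 ^ J + 1, N + C1 + 16, fun s i hK c E hc hE => ?_⟩
  obtain ⟨k, hk⟩ : ∃ k, k = s.κ i := ⟨_, rfl⟩
  obtain ⟨q, hq⟩ : ∃ q, q = s.p i := ⟨_, rfl⟩
  obtain ⟨x, hx⟩ : ∃ x, x = 2 ^ s.u i := ⟨_, rfl⟩
  obtain ⟨T, hT⟩ : ∃ T, T = TT c := ⟨_, rfl⟩
  obtain ⟨y, hy⟩ : ∃ y, y = 2 ^ 2 ^ c := ⟨_, rfl⟩
  obtain ⟨W, hW⟩ : ∃ W, W = 2 ^ s.w i := ⟨_, rfl⟩
  have hWk := (s.wle i).2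
  have hu := s.ule i
  have hρ := s.ρle i
  have hLg := one_le_Lg (s.u i)
  have hl2 := low2_le s C1 i
  have hqlo : 2 ^ k < q := by rw [hq, hk]; exact s.lo i
  have hq8 : 2 ^ (8 * k) ≤ q ^ 8 := by rw [hq, hk]; exact (s.pow_le i).1
  have hq0 : 0 < q := lt_of_le_of_lt (Nat.zero_le _) hqlo
  have hyT : y ^ 2 ≤ T := by rw [hy, hT]; exact le_TT c
  have hT0 : 0 < T := by rw [hT]; exact TT_pos c
  have hTx : T ≤ x := by
    rw [hT, hx]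
    exact (TT_le c).trans (Nat.pow_le_pow_right (by norm_num) (by omega))
  have hyx : y ≤ x := by
    rw [hy, hx]
    exact Nat.pow_le_pow_right (by norm_num) (by omega)
  obtain ⟨ρ, hρd⟩ : ∃ ρ, ρ = s.ρ i := ⟨_, rfl⟩
  obtain ⟨L, hL⟩ : ∃ L, L = Lg (s.u i) := ⟨_, rfl⟩
  have hlowL : ∀ j ∈ range i, Lg (s.u j) ≤ L := by
    intro j hj
    rw [hL]
    exact Lg_mono (s.umono (mem_range.1 hj).le)
  have hsum := sumN s i i le_rfl
  rw [lowT_eq, pow_add, ← hq, ← hk, ← hT, ← hy, ← hW]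
  rw [← hk, ← hρd] at hsum
  rw [← hk] at hK hu hρ
  rw [← hk, ← hW] at hWk
  rw [← hk, ← hx] at hl2
  rw [← hρd, ← hL, ← hW] at hρ
  rw [← hL] at hLg
  rw [← hT, ← hρd] at hE
  have hW1 : 1 ≤ W := by rw [hW]; exact Nat.one_le_two_pow
  have hρL : W * (ρ * L) ≤ k := by
    calc W * (ρ * L) = W * (L * ρ) := by rw [mul_comm ρ L]
      _ ≤ W * (L ^ 2 * ρ) := Nat.mul_le_mul_left _
          (Nat.mul_le_mul_right _ (Nat.le_self_pow (by norm_num) _))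
      _ ≤ k := hρ
  have hρk : ρ ≤ k := by
    calc ρ = 1 * (ρ * 1) := by ring
      _ ≤ W * (ρ * L) := Nat.mul_le_mul hW1 (Nat.mul_le_mul_left _ hLg)
      _ ≤ k := hρL
  -- the second part
  have h2 : y * W * (E * low2 s C1 i) ≤ 1 * k * q ^ 2 := by
    have e1 : E ≤ 2 * x * k := by
      calc E ≤ E ^ 2 := Nat.le_self_pow (by norm_num) _
        _ ≤ 2 * T * ρ := hE
        _ ≤ 2 * x * k := Nat.mul_le_mul (Nat.mul_le_mul_left _ hTx) hρk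
    calc y * W * (E * low2 s C1 i) ≤ x * k * ((2 * x * k) * (2 * C1 * k ^ 2 * x ^ 3)) :=
          Nat.mul_le_mul (Nat.mul_le_mul hyx hWk) (Nat.mul_le_mul e1 hl2)
      _ = k * ((4 * C1 * k ^ 3) * 2 ^ (5 * s.u i)) := by
          rw [mul_comm 5 (s.u i), pow_mul, ← hx]
          ring
      _ ≤ k * ((k * k * k ^ 3) * 2 ^ (5 * s.u i)) := by
          gcongr
          · omega
          · omega
      _ = k * ((k ^ 5) * 2 ^ (5 * s.u i)) := by ring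
      _ ≤ k * (2 ^ (k / 2) * 2 ^ (5 * s.u i)) :=
          Nat.mul_le_mul_left _ (Nat.mul_le_mul_right _ (hN k (by omega)))
      _ = k * 2 ^ (k / 2 + 5 * s.u i) := by rw [← pow_add]
      _ ≤ k * 2 ^ (2 * k) := Nat.mul_le_mul_left _ (Nat.pow_le_pow_right (by norm_num) (by omega))
      _ = k * (2 ^ k) ^ 2 := by rw [← pow_mul, mul_comm k 2]
      _ ≤ k * q ^ 2 := Nat.mul_le_mul_left _ (Nat.pow_le_pow_left hqlo.le 2)
      _ = 1 * k * q ^ 2 := by ring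
  -- the first part
  have h1 : y * W * (E * low1 s C1 (q ^ 2 * T) i) ≤ (6 * C1 * (C + 4) * 2 ^ J) * k * q ^ 2 := by
    obtain ⟨S1, hS1⟩ : ∃ S1, S1 = ∑ j ∈ range i, (s.B j).card * (s.p j) ^ 4 := ⟨_, rfl⟩
    rw [← hS1] at hsum
    have e1 : low1 s C1 (q ^ 2 * T) i * (q ^ 2 * T) ≤ L * (2 * C1 * (C + 4)) * S1 := by
      unfold low1
      rw [Finset.sum_mul, hS1, Finset.mul_sum]
      refine sum_le_sum (fun j hj => ?_)
      calc Lg (s.u j) * ((s.B j).card * (2 * (C1 * ((C + 4) * (s.p j) ^ 4 / (q ^ 2 * T))))) *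
            (q ^ 2 * T)
          = Lg (s.u j) * (2 * C1) * (s.B j).card *
            ((C + 4) * (s.p j) ^ 4 / (q ^ 2 * T) * (q ^ 2 * T)) := by ring
        _ ≤ L * (2 * C1) * (s.B j).card * ((C + 4) * (s.p j) ^ 4) :=
            Nat.mul_le_mul (Nat.mul_le_mul_right _ (Nat.mul_le_mul_right _ (hlowL j hj)))
              (Nat.div_mul_le_self _ _)
        _ = L * (2 * C1 * (C + 4)) * ((s.B j).card * (s.p j) ^ 4) := by ring
    obtain ⟨A, hA⟩ : ∃ A, A = low1 s C1 (q ^ 2 * T) i := ⟨_, rfl⟩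
    rw [← hA] at e1 ⊢
    have e2 : (y * W * (E * A)) ^ 2 * (q ^ 4 * T ^ 2) ≤
        (6 * C1 * (C + 4) * 2 ^ J * k * q ^ 2) ^ 2 * (q ^ 4 * T ^ 2) := by
      calc (y * W * (E * A)) ^ 2 * (q ^ 4 * T ^ 2) =
            W ^ 2 * (y ^ 2 * E ^ 2 * (A * (q ^ 2 * T)) ^ 2) := by ring
        _ ≤ W ^ 2 * (T * (2 * T * ρ) * (L * (2 * C1 * (C + 4)) * S1) ^ 2) :=
            Nat.mul_le_mul_left _ (Nat.mul_le_mul (Nat.mul_le_mul hyT hE) (Nat.pow_le_pow_left e1 2))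
        _ = W ^ 2 * (T * (2 * T * ρ) * (L * (2 * C1 * (C + 4))) ^ 2) * S1 ^ 2 := by ring
        _ ≤ W ^ 2 * (T * (2 * T * ρ) * (L * (2 * C1 * (C + 4))) ^ 2) *
            (4 * (ρ * 2 ^ (8 * k + J))) := Nat.mul_le_mul_left _ hsum
        _ = 32 * (C1 * (C + 4)) ^ 2 * (W * (ρ * L)) ^ 2 * 2 ^ J * 2 ^ (8 * k) * T ^ 2 := by
            rw [pow_add]
            ring
        _ ≤ 36 * (C1 * (C + 4)) ^ 2 * k ^ 2 * (2 ^ J) ^ 2 * q ^ 8 * T ^ 2 := by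
            have f1 : (W * (ρ * L)) ^ 2 ≤ k ^ 2 := Nat.pow_le_pow_left hρL 2
            have f2 : 2 ^ J ≤ (2 ^ J) ^ 2 := Nat.le_self_pow (by norm_num) _
            have f3 : 32 * (C1 * (C + 4)) ^ 2 ≤ 36 * (C1 * (C + 4)) ^ 2 :=
              Nat.mul_le_mul_right _ (by norm_num)
            exact Nat.mul_le_mul_right _ (Nat.mul_le_mul (Nat.mul_le_mul
              (Nat.mul_le_mul f3 f1) f2) hq8)
        _ = (6 * C1 * (C + 4) * 2 ^ J * k * q ^ 2) ^ 2 * (q ^ 4 * T ^ 2) := by ring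
    have e3 : 0 < q ^ 4 * T ^ 2 := by positivity
    exact (Nat.pow_le_pow_iff_left (by norm_num)).1 (Nat.le_of_mul_le_mul_right e2 e3)
  calc y * W * (E * (low1 s C1 (q ^ 2 * T) i + low2 s C1 i))
      = y * W * (E * low1 s C1 (q ^ 2 * T) i) + y * W * (E * low2 s C1 i) := by ring
    _ ≤ (6 * C1 * (C + 4) * 2 ^ J) * k * q ^ 2 + 1 * k * q ^ 2 := Nat.add_le_add h1 h2
    _ = (6 * C1 * (C + 4) * 2 ^ J + 1) * k * q ^ 2 := by ring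

end Pool.Agent.Helper667_QS
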