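import Pool.Agent.Helper667_QS.Step

/-!
# The theorem with real exponents
-/

set_option autoImplicit false

namespace Pool.Agent.Helper667_QS

open Finset Pool.Agent.H125R2.ET Pool.Agent.Helper667_AS

theorem Lg_pow_small (M f : ℕ) : ∃ N : ℕ, ∀ k ≥ N, M * (Lg k) ^ f ≤ k := by
  obtain ⟨N, hN⟩ := pow_le_two_pow (f + 2)
  refine ⟨2 ^ (N + 2 * M + 2), fun k hk => ?_⟩
  obtain ⟨y, hy⟩ : ∃ y, y = Lg k := ⟨_, rfl⟩
  have hk0 : k ≠ 0 := by
    have : 0 < 2 ^ (N + 2 * M + 2) := by positivity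
    omega
  have hy1 : N + 2 * M + 2 < y := by
    have : N + 2 * M + 2 ≤ Nat.log 2 k := Nat.le_log_of_pow_le (by norm_num) hk
    rw [hy]
    unfold Lg
    omega
  have h1 : 2 ^ (y - 1) ≤ k := by
    have : y - 1 = Nat.log 2 k := by rw [hy]; unfold Lg; omega
    rw [this]
    exact Nat.pow_log_le_self 2 hk0
  have h2 : y ^ (f + 2) ≤ 2 ^ y := hN y (by omega)
  have h3 : 2 ^ y = 2 * 2 ^ (y - 1) := by
    obtain ⟨y', rfl⟩ : ∃ y', y = y' + 1 := ⟨y - 1, by omega⟩
    simp only [Nat.add_sub_cancel]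
    ring
  have h4 : 2 * (M * y ^ f) ≤ y ^ (f + 2) := by
    calc 2 * (M * y ^ f) = (2 * M) * 1 * y ^ f := by ring
      _ ≤ y * y * y ^ f := Nat.mul_le_mul_right _ (Nat.mul_le_mul (by omega) (by omega))
      _ = y ^ (f + 2) := by ring
  rw [← hy]
  omega

open Classical in
/-- the number of the scales `k < K` on which `A` has more than `k ^ θ` representations -/
noncomputable def loudR (A : Set ℕ) (θ : ℝ) (K : ℕ) : ℕ :=
  ((range K).filter (fun k : ℕ => ∃ n : ℕ, 2 ^ k ≤ n ∧ n < 2 ^ (k + 1) ∧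
    (k : ℝ) ^ θ < (rA A n : ℝ))).card

theorem quiet (δ η : ℝ) (hδ : 0 < δ) (hδ1 : δ < 1) (hη : 0 < η) : ∃ (A : Set ℕ) (C : ℝ),
    (∃ n₀, ∀ n ≥ n₀, ∃ a ∈ A, ∃ b ∈ A, a + b = n) ∧
    (∀ n : ℕ, 3 ≤ n → (rA A n : ℝ) ≤ C * (Real.log n / Real.log (Real.log n))) ∧
    (∀ K : ℕ, (loudR A (δ + η) K : ℝ) ≤ C * (K : ℝ) ^ (1 - δ)) := by
  obtain ⟨d, hd⟩ := exists_nat_gt (4 / η + 2 / (1 - δ))
  have h1δ : 0 < 1 - δ := by linarith
  have hd1 : 4 / η < d := by
    have : 0 < 2 / (1 - δ) := by positivity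
    linarith
  have hd2 : 2 / (1 - δ) < d := by
    have : 0 < 4 / η := by positivity
    linarith
  have hd0 : 0 < (d : ℝ) := lt_trans (by positivity) hd1
  have hdn : d ≠ 0 := by
    rintro rfl
    simp at hd0
  obtain ⟨q, hq⟩ : ∃ q : ℕ, q = ⌈δ * d⌉₊ := ⟨_, rfl⟩
  have hq1 : δ * d ≤ q := by rw [hq]; exact Nat.le_ceil _
  have hq2 : (q : ℝ) < δ * d + 1 := by rw [hq]; exact Nat.ceil_lt_add_one (by positivity)
  have hqd : q + 1 < d + 1 := by
    rw [div_lt_iff₀ h1δ] at hd2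
    have : (q : ℝ) < d := by nlinarith
    have : q < d := by exact_mod_cast this
    omega
  obtain ⟨g, hg⟩ : ∃ g, d = (q + 1) + g := ⟨d - (q + 1), by omega⟩
  obtain ⟨f, A, c, hA⟩ := qgood_exists (q + 1) g (by omega)
  obtain ⟨N, hN⟩ := Lg_pow_small (c * 2 ^ (q + 1)) f
  have hηd : 4 < η * d := by
    rw [div_lt_iff₀ hη] at hd1
    linarith
  -- the loud scales
  have hloud : ∀ K, loudR A (δ + η) K ≤ (N + 1) + lc (q + 1) g f c A K := by
    intro K
    classical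
    have hsub : (range K).filter (fun k : ℕ => ∃ n : ℕ, 2 ^ k ≤ n ∧ n < 2 ^ (k + 1) ∧
        (k : ℝ) ^ (δ + η) < (rA A n : ℝ)) ⊆
        range (N + 1) ∪ (range K).filter (fun k : ℕ => Loud (q + 1) g f c A k) := by
      intro k hk
      rw [mem_filter] at hk
      rw [mem_union, mem_range, mem_filter]
      by_cases hkN : k < N + 1
      · exact Or.inl hkN
      · refine Or.inr ⟨hk.1, ?_⟩
        obtain ⟨n, hn1, hn2, hn3⟩ := hk.2
        refine ⟨n, hn1, hn2, ?_⟩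
        have hk1 : 1 ≤ k := by omega
        have hkR : (1 : ℝ) ≤ k := by exact_mod_cast hk1
        have e1 : c * ((Lg k) ^ f * (k + 1) ^ (q + 1)) ≤ k ^ (q + 2) := by
          calc c * ((Lg k) ^ f * (k + 1) ^ (q + 1)) ≤ c * ((Lg k) ^ f * (2 * k) ^ (q + 1)) :=
                Nat.mul_le_mul_left _ (Nat.mul_le_mul_left _ (Nat.pow_le_pow_left (by omega) _))
            _ = (c * 2 ^ (q + 1) * (Lg k) ^ f) * k ^ (q + 1) := by rw [mul_pow]; ring
            _ ≤ k * k ^ (q + 1) := Nat.mul_le_mul_right _ (hN k (by omega))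
            _ = k ^ (q + 2) := by ring
        have e2 : ((k : ℝ)) ^ (q + 2) < (rA A n : ℝ) ^ d := by
          calc ((k : ℝ)) ^ (q + 2) = (k : ℝ) ^ (((q + 2 : ℕ) : ℝ)) := (Real.rpow_natCast _ _).symm
            _ ≤ (k : ℝ) ^ ((δ + η) * d) := by
                refine Real.rpow_le_rpow_of_exponent_le hkR ?_
                push_cast
                nlinarith
            _ = ((k : ℝ) ^ (δ + η)) ^ d := by
                rw [Real.rpow_mul (by positivity), Real.rpow_natCast]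
            _ < (rA A n : ℝ) ^ d := pow_lt_pow_left₀ hn3 (by positivity) hdn
        have e3 : k ^ (q + 2) < (rA A n) ^ (q + 1 + g) := by
          rw [← hg]
          exact_mod_cast e2
        omega
    calc loudR A (δ + η) K ≤ _ := card_le_card hsub
      _ ≤ _ := card_union_le _ _
      _ = (N + 1) + lc (q + 1) g f c A K := by rw [card_range]; rfl
  refine ⟨A, (3 * c + 1) + ((N + 1 : ℕ) : ℝ), ?_, ?_, ?_⟩
  · obtain ⟨N0, h⟩ := hA.cov
    refine ⟨N0, fun n hn => ?_⟩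
    obtain ⟨a, ha, b, hb, hab, -, -⟩ := h n hn
    exact ⟨a, ha, b, hb, hab⟩
  · intro n hn
    obtain ⟨g1, g2⟩ := log_bounds hn
    have hL0 : 0 < Real.log (Real.log n) := Real.log_pos (T22.one_lt_log hn)
    have e1 : Real.log (Real.log n) ≤ (Lg (Nat.log 2 n + 1) : ℝ) := by
      have f1 : Real.log n ≤ ((Nat.log 2 n + 1 : ℕ) : ℝ) := log_le (by omega)
      have f2 : Real.log (Real.log n) ≤ Real.log ((Nat.log 2 n + 1 : ℕ) : ℝ) :=
        Real.log_le_log (by linarith) f1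
      exact f2.trans (log_le (by omega))
    have e2 : (rA A n : ℝ) * (Lg (Nat.log 2 n + 1) : ℝ) ≤ c * ((Nat.log 2 n + 1 : ℕ) : ℝ) := by
      exact_mod_cast hA.rep n
    have c0 : (0 : ℝ) ≤ c := Nat.cast_nonneg _
    have e3 : (rA A n : ℝ) ≤ 3 * c * (Real.log n / Real.log (Real.log n)) := by
      rw [← mul_div_assoc, le_div_iff₀ hL0]
      calc (rA A n : ℝ) * Real.log (Real.log n) ≤ (rA A n : ℝ) * (Lg (Nat.log 2 n + 1) : ℝ) :=
            mul_le_mul_of_nonneg_left e1 (Nat.cast_nonneg _)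
        _ ≤ c * ((Nat.log 2 n + 1 : ℕ) : ℝ) := e2
        _ ≤ c * (3 * Real.log n) := mul_le_mul_of_nonneg_left g2 c0
        _ = 3 * c * Real.log n := by ring
    refine e3.trans (mul_le_mul_of_nonneg_right ?_ (div_nonneg (by linarith) hL0.le))
    push_cast
    have : (0 : ℝ) ≤ N := Nat.cast_nonneg _
    linarith
  · intro K
    rcases Nat.eq_zero_or_pos K with h0 | h0
    · have : loudR A (δ + η) K = 0 := by
        unfold loudR
        rw [h0]
        simp
      rw [this, Nat.cast_zero]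
      positivity
    · have hK1 : (1 : ℝ) ≤ K := by exact_mod_cast h0
      have e1 : ((lc (q + 1) g f c A K : ℕ) : ℝ) ^ d ≤ ((c : ℝ) + 1) ^ d * (K : ℝ) ^ (g + 1) := by
        have f1 : ((lc (q + 1) g f c A K : ℕ) : ℝ) ^ d ≤ (c : ℝ) * (K : ℝ) ^ (g + 1) := by
          rw [hg]
          exact_mod_cast hA.few K
        have f3 : (c : ℝ) ≤ ((c : ℝ) + 1) ^ d := by
          have : (1 : ℝ) ≤ (c : ℝ) + 1 := by
            have : (0 : ℝ) ≤ c := Nat.cast_nonneg _
            linarith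
          calc (c : ℝ) ≤ (c : ℝ) + 1 := by linarith
            _ ≤ ((c : ℝ) + 1) ^ d := le_self_pow₀ this hdn
        exact f1.trans (mul_le_mul_of_nonneg_right f3 (by positivity))
      have e2 : ((lc (q + 1) g f c A K : ℕ) : ℝ) ≤ (c + 1) * (K : ℝ) ^ (1 - δ) := by
        have g1 : ((K : ℝ)) ^ (g + 1) ≤ ((K : ℝ) ^ (1 - δ)) ^ d := by
          calc ((K : ℝ)) ^ (g + 1) = (K : ℝ) ^ (((g + 1 : ℕ) : ℝ)) := (Real.rpow_natCast _ _).symm
            _ ≤ (K : ℝ) ^ ((1 - δ) * d) := by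
                refine Real.rpow_le_rpow_of_exponent_le hK1 ?_
                have : (d : ℝ) = (q + 1) + g := by exact_mod_cast hg
                push_cast
                nlinarith
            _ = ((K : ℝ) ^ (1 - δ)) ^ d := by
                rw [Real.rpow_mul (by positivity), Real.rpow_natCast]
        refine le_of_pow_le_pow_left₀ hdn (by positivity) ?_
        rw [mul_pow]
        exact e1.trans (mul_le_mul_of_nonneg_left g1 (by positivity))
      have e3 : (1 : ℝ) ≤ (K : ℝ) ^ (1 - δ) := Real.one_le_rpow hK1 h1δ.le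
      have e4 : ((loudR A (δ + η) K : ℕ) : ℝ) ≤ ((N + 1 : ℕ) : ℝ) +
          ((lc (q + 1) g f c A K : ℕ) : ℝ) := by exact_mod_cast hloud K
      have e5 : (0 : ℝ) ≤ ((N + 1 : ℕ) : ℝ) := Nat.cast_nonneg _
      have e6 : (0 : ℝ) ≤ c := Nat.cast_nonneg _
      have e7 : (c + 1) * (K : ℝ) ^ (1 - δ) ≤ (3 * c + 1) * (K : ℝ) ^ (1 - δ) :=
        mul_le_mul_of_nonneg_right (by linarith) (by linarith)
      nlinarith

end Pool.Agent.Helper667_QS
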