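import Pool.Agent.Helper667_QS.Diag4
import Pool.Agent.Helper667_QS.Real

/-!
# One basis for all exponents, real exponents
-/

set_option autoImplicit false

namespace Pool.Agent.Helper667_QS

open Finset Pool.Agent.H125R2.ET Pool.Agent.Helper667_AS

theorem loudR_le_of_lc {A : Set ℕ} {θ : ℝ} {M j : ℕ} (hjM : j ≤ M) (hM : 1 ≤ M)
    (hθ : ((j + 1 : ℕ) : ℝ) ≤ θ * M) (K : ℕ) :
    loudR A θ K ≤ (2 ^ j + 1) + lc j (M - j) 0 1 A K := by
  classical
  have hsub : (range K).filter (fun k : ℕ => ∃ n : ℕ, 2 ^ k ≤ n ∧ n < 2 ^ (k + 1) ∧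
      (k : ℝ) ^ θ < (rA A n : ℝ)) ⊆
      range (2 ^ j + 1) ∪ (range K).filter (fun k : ℕ => Loud j (M - j) 0 1 A k) := by
    intro k hk
    rw [mem_filter] at hk
    rw [mem_union, mem_range, mem_filter]
    by_cases hkN : k < 2 ^ j + 1
    · exact Or.inl hkN
    · refine Or.inr ⟨hk.1, ?_⟩
      obtain ⟨n, hn1, hn2, hn3⟩ := hk.2
      refine ⟨n, hn1, hn2, ?_⟩
      have hk2 : 2 ^ j ≤ k := by omega
      have h2j : 0 < 2 ^ j := by positivity
      have hk1 : 1 ≤ k := by omega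
      have hkR : (1 : ℝ) ≤ k := by exact_mod_cast hk1
      have e1 : 1 * ((Lg k) ^ 0 * (k + 1) ^ j) ≤ k ^ (j + 1) := by
        rw [pow_zero, one_mul, one_mul]
        calc (k + 1) ^ j ≤ (2 * k) ^ j := Nat.pow_le_pow_left (by omega) _
          _ = 2 ^ j * k ^ j := mul_pow _ _ _
          _ ≤ k * k ^ j := Nat.mul_le_mul_right _ hk2
          _ = k ^ (j + 1) := by ring
      have e2 : ((k : ℝ)) ^ (j + 1) < (rA A n : ℝ) ^ M := by
        calc ((k : ℝ)) ^ (j + 1) = (k : ℝ) ^ (((j + 1 : ℕ) : ℝ)) := (Real.rpow_natCast _ _).symm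
          _ ≤ (k : ℝ) ^ (θ * M) := Real.rpow_le_rpow_of_exponent_le hkR hθ
          _ = ((k : ℝ) ^ θ) ^ M := by
              rw [Real.rpow_mul (by positivity), Real.rpow_natCast]
          _ < (rA A n : ℝ) ^ M := pow_lt_pow_left₀ hn3 (by positivity) (by omega)
      have e3 : k ^ (j + 1) < (rA A n) ^ M := by exact_mod_cast e2
      rw [show j + (M - j) = M by omega]
      omega
  calc loudR A θ K ≤ _ := card_le_card hsub
    _ ≤ _ := card_union_le _ _
    _ = (2 ^ j + 1) + lc j (M - j) 0 1 A K := by rw [card_range]; rfl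

theorem quiet_all : ∃ A : Set ℕ,
    (∃ n₀, ∀ n ≥ n₀, ∃ a ∈ A, ∃ b ∈ A, a + b = n) ∧
    (∃ C : ℝ, ∀ n : ℕ, 3 ≤ n →
      (rA A n : ℝ) ≤ C * (Real.log n / Real.sqrt (Real.log (Real.log n)))) ∧
    (∀ θ η : ℝ, 0 < θ → θ ≤ 1 → 0 < η → ∃ C : ℝ, ∀ K : ℕ,
      (loudR A θ K : ℝ) ≤ C * (K : ℝ) ^ (1 - θ + η)) := by
  obtain ⟨A, ⟨N1, hcov⟩, ⟨c, hrep⟩, hfew⟩ := diag
  refine ⟨A, ⟨N1, fun n hn => ?_⟩, ⟨3 * (c + 1), fun n hn => ?_⟩, ?_⟩
  · obtain ⟨a, ha, b, hb, hab, -, -⟩ := hcov n hn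
    exact ⟨a, ha, b, hb, hab⟩
  · obtain ⟨g1, g2⟩ := log_bounds hn
    have hL0 : 0 < Real.log (Real.log n) := Real.log_pos (T22.one_lt_log hn)
    have hs0 : 0 < Real.sqrt (Real.log (Real.log n)) := Real.sqrt_pos.2 hL0
    have e1 : Real.log (Real.log n) ≤ (Lg (Nat.log 2 n + 1) : ℝ) := by
      have f1 : Real.log n ≤ ((Nat.log 2 n + 1 : ℕ) : ℝ) := log_le (by omega)
      have f2 : Real.log (Real.log n) ≤ Real.log ((Nat.log 2 n + 1 : ℕ) : ℝ) :=
        Real.log_le_log (by linarith) f1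
      exact f2.trans (log_le (by omega))
    have e2 : (rA A n : ℝ) ^ 2 * (Lg (Nat.log 2 n + 1) : ℝ) ≤
        c * ((Nat.log 2 n + 1 : ℕ) : ℝ) ^ 2 := by
      exact_mod_cast hrep n
    have c0 : (0 : ℝ) ≤ c := Nat.cast_nonneg _
    have hlog0 : 0 ≤ Real.log n := by linarith
    rw [← mul_div_assoc, le_div_iff₀ hs0]
    refine le_of_pow_le_pow_left₀ two_ne_zero (by positivity) ?_
    calc ((rA A n : ℝ) * Real.sqrt (Real.log (Real.log n))) ^ 2
        = (rA A n : ℝ) ^ 2 * Real.log (Real.log n) := by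
          rw [mul_pow, Real.sq_sqrt hL0.le]
      _ ≤ (rA A n : ℝ) ^ 2 * (Lg (Nat.log 2 n + 1) : ℝ) :=
          mul_le_mul_of_nonneg_left e1 (by positivity)
      _ ≤ c * ((Nat.log 2 n + 1 : ℕ) : ℝ) ^ 2 := e2
      _ ≤ c * (3 * Real.log n) ^ 2 :=
          mul_le_mul_of_nonneg_left (pow_le_pow_left₀ (Nat.cast_nonneg _) g2 2) c0
      _ ≤ (c + 1) ^ 2 * (3 * Real.log n) ^ 2 := by
          refine mul_le_mul_of_nonneg_right ?_ (by positivity)
          nlinarith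
      _ = (3 * (c + 1) * Real.log n) ^ 2 := by ring
  · intro θ η hθ hθ1 hη
    obtain ⟨M, hM⟩ := exists_nat_gt (4 / η + 3 / θ)
    have hM1 : 4 / η < M := by
      have : 0 < 3 / θ := by positivity
      linarith
    have hM2 : 3 / θ < M := by
      have : 0 < 4 / η := by positivity
      linarith
    have hM0 : 0 < (M : ℝ) := lt_trans (by positivity) hM1
    have hM0' : 1 ≤ M := by
      have : 0 < M := by exact_mod_cast hM0
      omega
    have hηM : 4 < η * M := by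
      rw [div_lt_iff₀ hη] at hM1
      linarith
    have hθM : 3 < θ * M := by
      rw [div_lt_iff₀ hθ] at hM2
      linarith
    obtain ⟨q, hq⟩ : ∃ q : ℕ, q = ⌊θ * M⌋₊ := ⟨_, rfl⟩
    have hq1 : (q : ℝ) ≤ θ * M := by rw [hq]; exact Nat.floor_le (by positivity)
    have hq2 : θ * M < q + 1 := by rw [hq]; exact Nat.lt_floor_add_one _
    have hq3 : 3 ≤ q := by
      rw [hq]
      exact Nat.le_floor (by push_cast; linarith)
    have hqM : q ≤ M := by
      have : (q : ℝ) ≤ M := hq1.trans (by nlinarith)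
      exact_mod_cast this
    obtain ⟨j, rfl⟩ : ∃ j, q = j + 1 := ⟨q - 1, by omega⟩
    obtain ⟨c', hc'⟩ := hfew M j (by omega) (by omega)
    have hloud := loudR_le_of_lc (A := A) (θ := θ) (M := M) (j := j) (by omega) hM0' hq1
    have hexp : 0 ≤ 1 - θ + η := by linarith
    refine ⟨(c' + 1) + ((2 ^ j + 1 : ℕ) : ℝ), fun K => ?_⟩
    rcases Nat.eq_zero_or_pos K with h0 | h0
    · have : loudR A θ K = 0 := by
        unfold loudR
        rw [h0]
        simp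
      rw [this, Nat.cast_zero]
      positivity
    · have hK1 : (1 : ℝ) ≤ K := by exact_mod_cast h0
      have c0 : (0 : ℝ) ≤ c' := Nat.cast_nonneg _
      have e1 : ((lc j (M - j) 0 1 A K : ℕ) : ℝ) ^ M ≤
          ((c' : ℝ) + 1) ^ M * (K : ℝ) ^ (M - j + 2) := by
        have f1 : ((lc j (M - j) 0 1 A K : ℕ) : ℝ) ^ M ≤ (c' : ℝ) * (K : ℝ) ^ (M - j + 2) := by
          exact_mod_cast hc' K
        have f3 : (c' : ℝ) ≤ ((c' : ℝ) + 1) ^ M := by
          calc (c' : ℝ) ≤ (c' : ℝ) + 1 := by linarith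
            _ ≤ ((c' : ℝ) + 1) ^ M := le_self_pow₀ (by linarith) (by omega)
        exact f1.trans (mul_le_mul_of_nonneg_right f3 (by positivity))
      have e2 : ((lc j (M - j) 0 1 A K : ℕ) : ℝ) ≤ (c' + 1) * (K : ℝ) ^ (1 - θ + η) := by
        have g1 : ((K : ℝ)) ^ (M - j + 2) ≤ ((K : ℝ) ^ (1 - θ + η)) ^ M := by
          calc ((K : ℝ)) ^ (M - j + 2) = (K : ℝ) ^ (((M - j + 2 : ℕ) : ℝ)) :=
                (Real.rpow_natCast _ _).symm
            _ ≤ (K : ℝ) ^ ((1 - θ + η) * M) := by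
                refine Real.rpow_le_rpow_of_exponent_le hK1 ?_
                have h1 : ((M - j + 2 : ℕ) : ℝ) = (M : ℝ) - j + 2 := by
                  rw [Nat.cast_add, Nat.cast_sub (by omega)]
                  norm_num
                rw [h1]
                push_cast at hq2
                nlinarith
            _ = ((K : ℝ) ^ (1 - θ + η)) ^ M := by
                rw [Real.rpow_mul (by positivity), Real.rpow_natCast]
        refine le_of_pow_le_pow_left₀ (show M ≠ 0 by omega) (by positivity) ?_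
        rw [mul_pow]
        exact e1.trans (mul_le_mul_of_nonneg_left g1 (by positivity))
      have e3 : (1 : ℝ) ≤ (K : ℝ) ^ (1 - θ + η) := Real.one_le_rpow hK1 hexp
      have e4 : ((loudR A θ K : ℕ) : ℝ) ≤ ((2 ^ j + 1 : ℕ) : ℝ) +
          ((lc j (M - j) 0 1 A K : ℕ) : ℝ) := by exact_mod_cast hloud K
      have e5 : (0 : ℝ) ≤ ((2 ^ j + 1 : ℕ) : ℝ) := Nat.cast_nonneg _
      have e6 : ((2 ^ j + 1 : ℕ) : ℝ) * 1 ≤ ((2 ^ j + 1 : ℕ) : ℝ) * (K : ℝ) ^ (1 - θ + η) :=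
        mul_le_mul_of_nonneg_left e3 e5
      have e7 : ((c' : ℝ) + 1 + ((2 ^ j + 1 : ℕ) : ℝ)) * (K : ℝ) ^ (1 - θ + η) =
          (c' + 1) * (K : ℝ) ^ (1 - θ + η) + ((2 ^ j + 1 : ℕ) : ℝ) * (K : ℝ) ^ (1 - θ + η) := by
        ring
      rw [e7]
      linarith

end Pool.Agent.Helper667_QS
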