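import Pool.Agent.Helper667_QS.Sel

/-!
# Representations by twisted wide blocks
-/

set_option autoImplicit false

namespace Pool.Agent.Helper667_QS

open Finset Pool.Agent.H125R2.ET Pool.Agent.Helper667_AS

theorem TT_le_b {c b : ℕ} (h : 2 ^ (16 * 2 ^ c) ≤ b) : TT c ≤ b :=
  (TT_le c).trans ((Nat.pow_le_pow_right (by norm_num) (by omega)).trans h)

/-- the representations by one twisted wide block -/
theorem tw_rep {m u K R ρ n : ℕ} (hm : 0 < m) {B S : Finset ℕ} (hS : ∀ s ∈ S, s < K * m)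
    (hR : ∀ n, repF S S n ≤ R)
    (hρ : ∀ x, x ≤ n / m → n / m ≤ 2 * x + 2 * K → repF B B x ≤ ρ) :
    repF (tw m u B S) (tw m u B S) n ≤ (2 * K + 1) * ((Lg u) ^ 2 * (R * ρ)) := by
  classical
  set I : Finset ℕ := (range (n + 1)).filter (fun b => m * b ≤ n ∧ n < 2 * K * m + m * b) with hI
  have hIc : I.card ≤ 2 * K + 1 := by
    have hsub : I ⊆ Finset.Icc (n / m - 2 * K) (n / m) := by
      intro b hb
      rw [hI, mem_filter] at hb
      rw [mem_Icc]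
      have h1 : b ≤ n / m := (Nat.le_div_iff_mul_le hm).2 (by rw [mul_comm]; exact hb.2.1)
      have h2 : n / m < 2 * K + b := (Nat.div_lt_iff_lt_mul hm).2 (by
        have := hb.2.2
        rw [add_mul, mul_comm b m]
        exact this)
      omega
    refine (card_le_card hsub).trans ?_
    rw [Nat.card_Icc]
    omega
  unfold repF
  have hsub : ((tw m u B S) ×ˢ (tw m u B S)).filter (fun x => x.1 + x.2 = n) ⊆
      I.biUnion (fun z => ((range (Lg u)) ×ˢ (range (Lg u))).biUnion (fun cc =>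
        ((S ×ˢ S).filter (fun x => x.1 + x.2 = n - m * z)).biUnion (fun ss =>
          ((B ×ˢ B).filter (fun y => y.1 + y.2 + ss.1 % TT cc.1 + ss.2 % TT cc.2 = z ∧
            y.1 + y.2 ≤ n / m ∧ n / m ≤ 2 * (y.1 + y.2) + 2 * K)).image
            (fun y => (ss.1 + m * (y.1 + ss.1 % TT cc.1), ss.2 + m * (y.2 + ss.2 % TT cc.2)))))) := by
    rintro ⟨w, w'⟩ h
    rw [mem_filter, mem_product] at h
    obtain ⟨⟨h1, h2⟩, h3⟩ := h
    simp only at h1 h2 h3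
    obtain ⟨c, hc, b, hb, s, hs, k1, k2, k3, rfl⟩ := mem_tw.1 h1
    obtain ⟨c', hc', b', hb', s', hs', k1', k2', k3', rfl⟩ := mem_tw.1 h2
    obtain ⟨t, ht⟩ : ∃ t, t = s % TT c := ⟨_, rfl⟩
    obtain ⟨t', ht'⟩ : ∃ t', t' = s' % TT c' := ⟨_, rfl⟩
    have ht1 : t < TT c := by rw [ht]; exact Nat.mod_lt _ (TT_pos c)
    have ht1' : t' < TT c' := by rw [ht']; exact Nat.mod_lt _ (TT_pos c')
    have ht2 := TT_le_b k1
    have ht2' := TT_le_b k1'
    rw [← ht, ← ht'] at h3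
    obtain ⟨z, hz⟩ : ∃ z, z = b + b' + t + t' := ⟨_, rfl⟩
    have e1 : m * z = m * (b + t) + m * (b' + t') := by rw [hz]; ring
    have e2 := hS s hs
    have e3 := hS s' hs'
    have e4 : z ≤ m * z := Nat.le_mul_of_pos_left _ hm
    have e5 : 2 * K * m = 2 * (K * m) := mul_assoc _ _ _
    have hzI : z ∈ I := by
      rw [hI, mem_filter, mem_range]
      exact ⟨by omega, by omega, by omega⟩
    have e6 : z ≤ n / m := (Nat.le_div_iff_mul_le hm).2 (by rw [mul_comm]; omega)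
    have e7 : n / m < 2 * K + z := (Nat.div_lt_iff_lt_mul hm).2 (by
      rw [add_mul, mul_comm z m]
      omega)
    rw [mem_biUnion]
    refine ⟨z, hzI, ?_⟩
    rw [mem_biUnion]
    refine ⟨(c, c'), mem_product.2 ⟨mem_range.2 hc, mem_range.2 hc'⟩, ?_⟩
    rw [mem_biUnion]
    refine ⟨(s, s'), mem_filter.2 ⟨mem_product.2 ⟨hs, hs'⟩, by simp only; omega⟩, ?_⟩
    rw [mem_image]
    refine ⟨(b, b'), mem_filter.2 ⟨mem_product.2 ⟨hb, hb'⟩, ?_⟩, rfl⟩
    simp only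
    rw [← ht, ← ht']
    omega
  refine (card_le_card hsub).trans ((card_biUnion_le_card_mul _ _ ((Lg u) ^ 2 * (R * ρ))
    (fun z _ => ?_)).trans (Nat.mul_le_mul_right _ hIc))
  refine (card_biUnion_le_card_mul _ _ (R * ρ) (fun cc _ => ?_)).trans ?_
  · refine (card_biUnion_le_card_mul _ _ ρ (fun ss _ => card_image_le.trans ?_)).trans
      (Nat.mul_le_mul_right _ (hR _))
    rcases ((B ×ˢ B).filter (fun y => y.1 + y.2 + ss.1 % TT cc.1 + ss.2 % TT cc.2 = z ∧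
            y.1 + y.2 ≤ n / m ∧ n / m ≤ 2 * (y.1 + y.2) + 2 * K)).eq_empty_or_nonempty with he | ⟨y0, hy0⟩
    · rw [he]; simp
    · rw [mem_filter] at hy0
      refine (card_le_card ?_).trans (hρ (y0.1 + y0.2) hy0.2.2.1 hy0.2.2.2)
      intro y hy
      rw [mem_filter] at hy ⊢
      exact ⟨hy.1, by omega⟩
  · rw [card_product, card_range, sq]

/-- the hits between a twisted wide block and the lower ones -/
theorem tw_cross {m u K K1 w : ℕ} (hm : 0 < m) {B S V : Finset ℕ} (hS : ∀ s ∈ S, s < K * m)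
    (hV : ∀ y ∈ V, y < K1 * m) {T : ℝ} (hT : 0 ≤ T)
    (hh : ∀ n z c, 16 * 2 ^ c < u → ((S ∩ Zs V B n z c).card : ℝ) ≤ T / ((2 ^ c + w : ℕ) : ℝ))
    (n : ℕ) :
    (((tw m u B S) ∩ refl n V).card : ℝ) ≤ (K + K1 + 1 : ℕ) *
      ∑ c ∈ (range (Lg u)).filter (fun c => 2 ^ (16 * 2 ^ c) ≤ n / m ∧
        n / m < 2 ^ (128 * 2 ^ c + 1) + (K + K1)),
        T / ((2 ^ c + w : ℕ) : ℝ) := by
  classical
  set F : Finset ℕ := (range (Lg u)).filter (fun c => 2 ^ (16 * 2 ^ c) ≤ n / m ∧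
        n / m < 2 ^ (128 * 2 ^ c + 1) + (K + K1))
    with hF
  set I : Finset ℕ := (range (n + 1)).filter (fun b => m * b ≤ n ∧ n < (K + K1) * m + m * b) with hI
  have hIc : I.card ≤ K + K1 + 1 := by
    have hsub : I ⊆ Finset.Icc (n / m - (K + K1)) (n / m) := by
      intro b hb
      rw [hI, mem_filter] at hb
      rw [mem_Icc]
      have h1 : b ≤ n / m := (Nat.le_div_iff_mul_le hm).2 (by rw [mul_comm]; exact hb.2.1)
      have h2 : n / m < (K + K1) + b := (Nat.div_lt_iff_lt_mul hm).2 (by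
        have := hb.2.2
        rw [add_mul, mul_comm b m]
        exact this)
      omega
    refine (card_le_card hsub).trans ?_
    rw [Nat.card_Icc]
    omega
  have hsub : (tw m u B S) ∩ refl n V ⊆
      I.biUnion (fun z => (F.filter (fun c => 16 * 2 ^ c < u)).biUnion (fun c =>
        (S ∩ Zs V B (n - m * z) z c).image (fun s => s + m * z))) := by
    intro w hw
    rw [mem_inter, mem_tw, mem_refl] at hw
    obtain ⟨⟨c, hc, b, hb, s, hs, k1, k2, k3, rfl⟩, h1, h2⟩ := hw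
    obtain ⟨t, ht⟩ : ∃ t, t = s % TT c := ⟨_, rfl⟩
    have ht1 : t < TT c := by rw [ht]; exact Nat.mod_lt _ (TT_pos c)
    have ht2 := TT_le_b k1
    rw [← ht] at h1 h2 k3 ⊢
    obtain ⟨z, hz⟩ : ∃ z, z = b + t := ⟨_, rfl⟩
    rw [← hz] at h1 h2 k3 ⊢
    have h3 := hS s hs
    have h4 := hV _ h2
    have hbn : z ≤ m * z := Nat.le_mul_of_pos_left z hm
    have e5 : (K + K1) * m = K * m + K1 * m := add_mul _ _ _
    have hzI : z ∈ I := by
      rw [hI, mem_filter, mem_range]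
      exact ⟨by omega, by omega, by omega⟩
    have e7 : n / m < (K + K1) + z := (Nat.div_lt_iff_lt_mul hm).2 (by
      rw [add_mul, mul_comm z m]
      omega)
    have e8 : 2 ^ (128 * 2 ^ c + 1) = 2 ^ (128 * 2 ^ c) + 2 ^ (128 * 2 ^ c) := by ring
    have e9 : z ≤ n / m := (Nat.le_div_iff_mul_le hm).2 (by rw [mul_comm]; omega)
    rw [mem_biUnion]
    refine ⟨z, hzI, ?_⟩
    rw [mem_biUnion]
    refine ⟨c, mem_filter.2 ⟨mem_filter.2 ⟨mem_range.2 hc, by omega, by omega⟩,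
      (TT_le_of k1 (by omega)).1⟩, ?_⟩
    rw [mem_image]
    refine ⟨s, mem_inter.2 ⟨hs, ?_⟩, rfl⟩
    unfold Zs
    rw [mem_filter, mem_refl, ← ht]
    refine ⟨⟨by omega, ?_⟩, by omega, ?_⟩
    · have : n - m * z - s = n - (s + m * z) := by omega
      rw [this]
      exact h2
    · have : z - t = b := by omega
      rw [this]
      exact hb
  have hsum0 : (0 : ℝ) ≤ ∑ c ∈ F, T / ((2 ^ c + w : ℕ) : ℝ) :=
    Finset.sum_nonneg (fun c _ => by positivity)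
  calc (((tw m u B S) ∩ refl n V).card : ℝ)
      ≤ ((∑ z ∈ I, ∑ c ∈ F.filter (fun c => 16 * 2 ^ c < u),
          (S ∩ Zs V B (n - m * z) z c).card : ℕ) : ℝ) := by
        exact_mod_cast (card_le_card hsub).trans (card_biUnion_le.trans
          (sum_le_sum fun z _ => card_biUnion_le.trans (sum_le_sum fun c _ => card_image_le)))
    _ ≤ ∑ z ∈ I, ∑ c ∈ F.filter (fun c => 16 * 2 ^ c < u), T / ((2 ^ c + w : ℕ) : ℝ) := by
        push_cast
        refine Finset.sum_le_sum (fun z _ => Finset.sum_le_sum (fun c hc => ?_))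
        exact_mod_cast hh _ _ c (mem_filter.1 hc).2
    _ ≤ ∑ z ∈ I, ∑ c ∈ F, T / ((2 ^ c + w : ℕ) : ℝ) := by
        refine Finset.sum_le_sum (fun z _ => ?_)
        exact Finset.sum_le_sum_of_subset_of_nonneg (filter_subset _ _)
          (fun c _ _ => by positivity)
    _ = I.card * ∑ c ∈ F, T / ((2 ^ c + w : ℕ) : ℝ) := by rw [Finset.sum_const, nsmul_eq_mul]
    _ ≤ (K + K1 + 1 : ℕ) * ∑ c ∈ F, T / ((2 ^ c + w : ℕ) : ℝ) :=
        mul_le_mul_of_nonneg_right (by exact_mod_cast hIc) hsum0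

/-- only boundedly many values of `c` are relevant -/
theorem card_rel {u N K2 : ℕ} : ((range (Lg u)).filter (fun c => 2 ^ (16 * 2 ^ c) ≤ N ∧
    N < 2 ^ (128 * 2 ^ c + 1) + K2)).card ≤ K2 + 5 := by
  classical
  set F := (range (Lg u)).filter (fun c => 2 ^ (16 * 2 ^ c) ≤ N ∧ N < 2 ^ (128 * 2 ^ c + 1) + K2)
    with hF
  set F1 := F.filter (fun c => K2 ≤ c) with hF1
  have h1 : F ⊆ range K2 ∪ F1 := by
    intro c hc
    rw [mem_union, mem_range, hF1, mem_filter]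
    by_cases h : c < K2
    · exact Or.inl h
    · exact Or.inr ⟨hc, by omega⟩
  have h2 : F1.card ≤ 5 := by
    rcases F1.eq_empty_or_nonempty with he | hne
    · rw [he]; simp
    · obtain ⟨c0, hc0⟩ : ∃ c0, c0 = F1.min' hne := ⟨_, rfl⟩
      have hsub : F1 ⊆ Finset.Ico c0 (c0 + 4) := by
        intro c hc
        rw [mem_Ico]
        have e1 : c0 ≤ c := by rw [hc0]; exact F1.min'_le c hc
        have e2 : c0 ∈ F1 := by rw [hc0]; exact F1.min'_mem hne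
        rw [hF1, mem_filter, hF, mem_filter] at hc e2
        refine ⟨e1, ?_⟩
        by_contra hcon
        push Not at hcon
        have e3 : 2 ^ (c0 + 4) ≤ 2 ^ c := Nat.pow_le_pow_right (by norm_num) hcon
        have e4 : 2 ^ (c0 + 4) = 16 * 2 ^ c0 := by ring
        have e5 : 1 ≤ 2 ^ c0 := Nat.one_le_two_pow
        have e6 : 2 ^ (128 * 2 ^ c0 + 2) ≤ 2 ^ (16 * 2 ^ c) :=
          Nat.pow_le_pow_right (by norm_num) (by omega)
        have e7 : 2 ^ (128 * 2 ^ c0 + 2) = 2 ^ (128 * 2 ^ c0 + 1) + 2 ^ (128 * 2 ^ c0 + 1) := by ring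
        have e8 : K2 ≤ 2 ^ (128 * 2 ^ c0 + 1) := by
          have f1 : c0 < 2 ^ c0 := Nat.lt_two_pow_self
          have f2 : 128 * 2 ^ c0 + 1 < 2 ^ (128 * 2 ^ c0 + 1) := Nat.lt_two_pow_self
          omega
        omega
      exact (card_le_card hsub).trans (by simp)
  have h3 := (card_le_card h1).trans (card_union_le _ _)
  rw [card_range] at h3
  omega

theorem near_bound {T : ℝ} (hT : 0 ≤ T) {u N K2 w : ℕ} :
    ∑ c ∈ (range (Lg u)).filter (fun c => 2 ^ (16 * 2 ^ c) ≤ N ∧ N < 2 ^ (128 * 2 ^ c + 1) + K2),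
      T / ((2 ^ c + w : ℕ) : ℝ) ≤ (K2 + 5 : ℕ) * (T / (w + 1 : ℕ)) := by
  have h1 : ∀ c ∈ (range (Lg u)).filter (fun c => 2 ^ (16 * 2 ^ c) ≤ N ∧
      N < 2 ^ (128 * 2 ^ c + 1) + K2), T / ((2 ^ c + w : ℕ) : ℝ) ≤ T / (w + 1 : ℕ) := by
    intro c _
    refine div_le_div_of_nonneg_left hT (by positivity) ?_
    have : 1 ≤ 2 ^ c := Nat.one_le_two_pow
    exact_mod_cast (by omega : w + 1 ≤ 2 ^ c + w)
  refine (Finset.sum_le_sum h1).trans ?_
  rw [Finset.sum_const, nsmul_eq_mul]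
  exact mul_le_mul_of_nonneg_right (by exact_mod_cast card_rel) (by positivity)

/-- few hits far above the beginning of the block -/
theorem far_bound {T : ℝ} (hT : 0 ≤ T) {u l N K2 w : ℕ} (hl : 2 ^ l ≤ N) (hK : 2 * K2 ≤ 2 ^ l)
    (hl0 : 0 < l) :
    ∑ c ∈ (range (Lg u)).filter (fun c => 2 ^ (16 * 2 ^ c) ≤ N ∧ N < 2 ^ (128 * 2 ^ c + 1) + K2),
      T / ((2 ^ c + w : ℕ) : ℝ) ≤ (K2 + 5 : ℕ) * (130 * T / l) := by
  have hlR : (0 : ℝ) < l := by exact_mod_cast hl0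
  have h1 : ∀ c ∈ (range (Lg u)).filter (fun c => 2 ^ (16 * 2 ^ c) ≤ N ∧
      N < 2 ^ (128 * 2 ^ c + 1) + K2), T / ((2 ^ c + w : ℕ) : ℝ) ≤ 130 * T / l := by
    intro c hc
    rw [mem_filter] at hc
    obtain ⟨l', rfl⟩ : ∃ l', l = l' + 1 := ⟨l - 1, by omega⟩
    have e1 : 2 ^ (l' + 1) = 2 ^ l' + 2 ^ l' := by ring
    have e2 : 2 ^ l' < 2 ^ (128 * 2 ^ c + 1) := by omega
    have e3 : l' < 128 * 2 ^ c + 1 := (Nat.pow_lt_pow_iff_right (by norm_num)).1 e2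
    have e4 : 1 ≤ 2 ^ c := Nat.one_le_two_pow
    have e5 : l' + 1 ≤ 130 * (2 ^ c + w) := by omega
    have e6 : ((l' + 1 : ℕ) : ℝ) ≤ 130 * ((2 ^ c + w : ℕ) : ℝ) := by exact_mod_cast e5
    have e7 : (0 : ℝ) < ((2 ^ c + w : ℕ) : ℝ) := by positivity
    rw [div_le_div_iff₀ e7 hlR]
    nlinarith
  refine (Finset.sum_le_sum h1).trans ?_
  rw [Finset.sum_const, nsmul_eq_mul]
  exact mul_le_mul_of_nonneg_right (by exact_mod_cast card_rel) (by positivity)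

/-- the numbers which are covered -/
theorem tw_cov {m u N0 n : ℕ} (hm : 0 < m) {B : Set ℕ} {S : Finset ℕ}
    (hS : ∀ n, 11 * m ≤ n → n < 12 * m → ∃ s ∈ S, ∃ s' ∈ S, s + s' = n)
    (hB : ∀ N ≥ N0, ∃ b ∈ B, ∃ b' ∈ B, b + b' = N ∧ N ≤ b ^ 2 ∧ N ≤ b' ^ 2)
    (h1 : 2 ^ 64 + 2 * N0 + 11 ≤ n / m) (h2 : n / m < 2 ^ u) :
    ∃ w ∈ tw m u (cut B u) S, ∃ w' ∈ tw m u (cut B u) S, w + w' = n := by
  obtain ⟨z, hz⟩ : ∃ z, z = n / m - 11 := ⟨_, rfl⟩
  have hz1 : 2 ^ 64 + 2 * N0 ≤ z := by omega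
  have hz0 : z ≠ 0 := by omega
  obtain ⟨L, hL⟩ : ∃ L, L = Nat.log 2 z := ⟨_, rfl⟩
  have hL1 : 2 ^ L ≤ z := by rw [hL]; exact Nat.pow_log_le_self 2 hz0
  have hL2 : z < 2 ^ (L + 1) := by rw [hL]; exact Nat.lt_pow_succ_log_self (by norm_num) z
  have hL3 : 64 ≤ L := by
    rw [hL]
    exact Nat.le_log_of_pow_le (by norm_num) (by omega)
  obtain ⟨c, hc⟩ : ∃ c, c = Nat.log 2 (L / 64) := ⟨_, rfl⟩
  have hL64 : L / 64 ≠ 0 := by omega
  have hc1 : 2 ^ c ≤ L / 64 := by rw [hc]; exact Nat.pow_log_le_self 2 hL64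
  have hc2 : L / 64 < 2 ^ (c + 1) := by rw [hc]; exact Nat.lt_pow_succ_log_self (by norm_num) _
  have hc3 : 2 ^ (c + 1) = 2 * 2 ^ c := by ring
  have hc4 : 64 * 2 ^ c ≤ L := by omega
  have hc5 : L + 1 ≤ 128 * 2 ^ c := by omega
  have hT : 2 * TT c ≤ 2 ^ (L - 1) := by
    calc 2 * TT c ≤ 2 * 2 ^ (4 * 2 ^ c) := Nat.mul_le_mul_left _ (TT_le c)
      _ = 2 ^ (4 * 2 ^ c + 1) := by ring
      _ ≤ 2 ^ (L - 1) := Nat.pow_le_pow_right (by norm_num) (by omega)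
  have hL4 : 2 ^ L = 2 ^ (L - 1) + 2 ^ (L - 1) := by
    obtain ⟨L', rfl⟩ : ∃ L', L = L' + 1 := ⟨L - 1, by omega⟩
    simp only [Nat.add_sub_cancel]
    ring
  have f1 := Nat.div_add_mod n m
  have f2 := Nat.mod_lt n hm
  obtain ⟨s, hs, s', hs', hss⟩ := hS (11 * m + n % m) (Nat.le_add_right _ _) (by omega)
  obtain ⟨t, ht⟩ : ∃ t, t = s % TT c := ⟨_, rfl⟩
  obtain ⟨t', ht'⟩ : ∃ t', t' = s' % TT c := ⟨_, rfl⟩
  have ht1 : t < TT c := by rw [ht]; exact Nat.mod_lt _ (TT_pos c)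
  have ht1' : t' < TT c := by rw [ht']; exact Nat.mod_lt _ (TT_pos c)
  obtain ⟨b, hb, b', hb', hbb, hb2, hb2'⟩ := hB (z - t - t') (by omega)
  have hbig : ∀ x, z - t - t' ≤ x ^ 2 → 2 ^ (16 * 2 ^ c) ≤ x := by
    intro x hx
    refine (Nat.pow_le_pow_iff_left (n := 2) (by norm_num)).1 (le_trans ?_ hx)
    calc (2 ^ (16 * 2 ^ c)) ^ 2 = 2 ^ (32 * 2 ^ c) := by rw [← pow_mul]; congr 1; ring
      _ ≤ 2 ^ (L - 1) := Nat.pow_le_pow_right (by norm_num) (by omega)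
      _ ≤ z - t - t' := by omega
  have g1 := hbig b hb2
  have g2 := hbig b' hb2'
  have g3 : 2 ^ (L + 1) ≤ 2 ^ (128 * 2 ^ c) := Nat.pow_le_pow_right (by norm_num) hc5
  have g4 : c < Lg u := by
    have a1 := (TT_le_of g1 (by omega : b < 2 ^ u)).1
    have a2 : c ≤ Nat.log 2 u := Nat.le_log_of_pow_le (by norm_num) (by omega)
    unfold Lg
    omega
  refine ⟨s + m * (b + t), mem_tw.2 ⟨c, g4, b, mem_cut.2 ⟨by omega, hb⟩, s, hs, g1, by omega, ?_,
    by rw [ht]⟩, s' + m * (b' + t'), mem_tw.2 ⟨c, g4, b', mem_cut.2 ⟨by omega, hb'⟩, s', hs', g2,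
      by omega, ?_, by rw [ht']⟩, ?_⟩
  · rw [← ht]; omega
  · rw [← ht']; omega
  · have e1 : m * (b + t) + m * (b' + t') = m * z := by
      rw [← mul_add]
      congr 1
      omega
    have e2 : m * (n / m) = m * z + m * 11 := by
      rw [← mul_add]
      congr 1
      omega
    omega

end Pool.Agent.Helper667_QS
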