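import Pool.Agent.Helper667_QS.Num

/-!
# The good sequence of twisted wide blocks
-/

set_option autoImplicit false

namespace Pool.Agent.Helper667_QS

open Finset Pool.Agent.H125R2.ET Pool.Agent.Helper667_AS

/-- the blocks of a point -/
def TSys.blk {C J : ℕ} (s : TSys C J) (ω : ∀ i, (s.X i).Ω) (i : ℕ) : Finset ℕ :=
  tw ((s.p i) ^ 8) (s.u i) (s.B i) ((s.X i).S (ω i))

theorem prime_not_dvd {p q e : ℕ} (hp : p.Prime) (hq : q.Prime) (h : p < q) : ¬ p ∣ q ^ e := by
  intro hdvd
  have h1 := hp.dvd_of_dvd_pow hdvd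
  have h2 := (Nat.prime_dvd_prime_iff_eq hp hq).1 h1
  omega

theorem prime_cop {q e : ℕ} (hq : q.Prime) (h : 3 < q) : Nat.Coprime (q ^ e) 3 := by
  refine Nat.Coprime.pow_left _ ?_
  exact (Nat.coprime_primes hq Nat.prime_three).2 (by omega)

theorem good_tw (C J : ℕ) (hM : BlockMom C) (h0 : BlockRange C) (h1 : RegProb C) :
    ∃ C3 K0 : ℕ, ∀ (s : TSys C J), (∀ i, K0 ≤ s.κ i) →
      ∃ ω : ∀ i, (s.X i).Ω, ∀ i n z c, 16 * 2 ^ c < s.u i →
        ((((s.X i).S (ω i)) ∩ Zs ((range i).biUnion (s.blk ω)) (s.B i) n z c).card : ℝ) ≤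
        C3 * s.κ i / ((2 ^ c + s.w i : ℕ) : ℝ) := by
  obtain ⟨C1, k1, hReg⟩ := h1
  obtain ⟨g, K1, hSpr⟩ := spr_tw C J hM h0
  obtain ⟨C2, K2, hlow2⟩ := lowT_two' C J C1
  obtain ⟨K4, hlow4⟩ := lowT_four' C1
  obtain ⟨C3, k3, hFin⟩ := fin_gen C hM g C2
  refine ⟨C3, k1 + K1 + k3 + K2 + K4 + C + J + 40, ?_⟩
  intro s hK
  -- the events
  set F : ∀ i, (pre s.W i).Ω → (s.W i).Ω → Prop := fun i x w =>
    Reg C1 (s.p i) (s.κ i) ((s.X i).S w) ∧
      ∀ n z c, 16 * 2 ^ c < s.u i →
        ((((s.X i).S w) ∩ Zs ((pre s.W i).S x) (s.B i) n z c).card : ℝ) ≤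
          C3 * s.κ i / ((2 ^ c + s.w i : ℕ) : ℝ) with hFdef
  set Sp : ∀ i, (pre s.W i).Ω → Prop := fun i x =>
    ClsLE ((s.p i) ^ 6) ((pre s.W i).S x) g with hSpdef
  obtain ⟨ω, hω⟩ := exists_good s.W (T18.GG s.W F Sp) F Sp (fun x hx => hx) (fun i x w => Iff.rfl)
    (by
      intro i x hx
      have hKi := hK i
      obtain ⟨ω, rfl⟩ := T18.pt_surj s.W i x
      obtain ⟨hF, hS⟩ := T18.GG_pt s.W F Sp ω i hx
      have hSpt : (pre s.W i).S (pt s.W ω i) = (range i).biUnion
          (fun j => tw ((s.p j) ^ 8) (s.u j) (s.B j) ((s.X j).S (ω j))) := T18.S_pt s.W ω i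
      have hlt : ∀ j < i, ∀ y ∈ (s.X j).S (ω j), y < (C + 4) * (s.p j) ^ 8 :=
        fun j _ y hy => (s.rngS h0 j (ω j) y hy).2
      have hp3 : 3 < s.p i := by have := s.Cp i; omega
      have hcl : ∀ e f : ℕ, ClsLE ((s.p i) ^ e * 3 ^ f) ((pre s.W i).S (pt s.W ω i))
          (lowT s C1 ((s.p i) ^ e * 3 ^ f) i) := by
        intro e f
        rw [hSpt]
        exact low_cls' s (fun j => (s.X j).S (ω j)) (pow_pos (s.prime i).pos e)
          (prime_cop (s.prime i) hp3) (fun j hj => prime_not_dvd (s.prime j) (s.prime i) (s.plt hj))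
          hlt (fun j hj => (hF j hj).1)
      obtain ⟨V, hV⟩ : ∃ V, V = (pre s.W i).S (pt s.W ω i) := ⟨_, rfl⟩
      have hSV : ClsLE ((s.p i) ^ 6) V g := by rw [hV]; exact hS
      rw [← hV] at hcl
      have hY : ∀ y ∈ V, y < 2 ^ J * (s.p i) ^ 8 := by
        intro y hy
        rw [hV] at hy
        obtain ⟨j, hj, w, hw⟩ := T14aux.mem_pre s.W i _ hy
        exact lt_of_lt_of_le (s.range h0 j w y hw).2 (s.below hj)
      have hu := s.ule i
      -- the index set
      obtain ⟨N, hN⟩ : ∃ N, N = (C + 4 + 2 ^ J) * (s.p i) ^ 8 := ⟨_, rfl⟩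
      set I : Finset (ℕ × ℕ × ℕ) := ((Finset.range N) ×ˢ ((Finset.range (2 ^ (s.u i + 1))) ×ˢ
        (Finset.range (Lg (s.u i))))).filter (fun x => 16 * 2 ^ x.2.2 < s.u i) with hI
      have hIc : I.card ≤ 2 ^ (18 * s.κ i) := by
        have e1 : I.card ≤ N * (2 ^ (s.u i + 1) * Lg (s.u i)) := by
          refine (card_filter_le _ _).trans ?_
          rw [card_product, card_product, card_range, card_range, card_range]
        have e2 : C + 4 + 2 ^ J ≤ 2 ^ (C + J + 5) := by
          have f1 : C + 4 < 2 ^ (C + 4) := Nat.lt_two_pow_self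
          have f2 : 2 ^ (C + 4) ≤ 2 ^ (C + J + 4) := Nat.pow_le_pow_right (by norm_num) (by omega)
          have f3 : 2 ^ J ≤ 2 ^ (C + J + 4) := Nat.pow_le_pow_right (by norm_num) (by omega)
          have f4 : 2 ^ (C + J + 5) = 2 ^ (C + J + 4) + 2 ^ (C + J + 4) := by ring
          omega
        calc I.card ≤ N * (2 ^ (s.u i + 1) * Lg (s.u i)) := e1
          _ ≤ (2 ^ (C + J + 5) * 2 ^ (8 * s.κ i + 8)) * (2 ^ (s.u i + 1) * 2 ^ s.u i) := by
              rw [hN]
              exact Nat.mul_le_mul (Nat.mul_le_mul e2 (s.pow_le i).2)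
                (Nat.mul_le_mul_left _ (Lg_le _))
          _ = 2 ^ (C + J + 5 + (8 * s.κ i + 8) + (s.u i + 1 + s.u i)) := by
              rw [← pow_add, ← pow_add, ← pow_add]
          _ ≤ 2 ^ (18 * s.κ i) := Nat.pow_le_pow_right (by norm_num) (by omega)
      have hfin := hFin (s.κ i) (by omega) (s.p i) (s.prime i).pos (s.D i) (s.lo i) (s.base i)
        I (fun x => Zs V (s.B i) x.1 x.2.1 x.2.2) (fun x => 2 ^ x.2.2 + s.w i)
        (fun _ => lowT s C1 ((s.p i) ^ 4) i)
        (fun x => ((Finset.range (TT x.2.2)).filter (fun t => t ≤ x.2.1 ∧ x.2.1 - t ∈ s.B i)).card *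
          lowT s C1 ((s.p i) ^ 2 * TT x.2.2) i) hIc (by
          rintro ⟨n, z, c⟩ hx
          rw [hI, mem_filter] at hx
          have hc : 16 * 2 ^ c < s.u i := hx.2
          have h2c : 1 ≤ 2 ^ c := Nat.one_le_two_pow
          have hw := (s.wle i).1
          refine ⟨h2c.trans (Nat.le_add_right _ _), ?_, cls_filter _ (T15_cls_refl hSV n), ?_,
            hlow4 s i (by omega), ?_, ?_⟩
          · simp only
            omega
          · have h4 := hcl 4 0
            rw [pow_zero, mul_one] at h4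
            exact cls_filter _ (T15_cls_refl h4 n)
          · have h2 := hcl 2 (2 * 2 ^ c)
            rw [← TT_eq] at h2
            exact cls_Zs (prime_cop (s.prime i) hp3) h2
          · exact hlow2 s i (by omega) c _ hc (card_short (s.Brep i)))
      have hreg := hReg (s.κ i) (by omega) (s.p i) (s.prime i).pos (s.D i) (s.prime i) (s.lo i)
        (s.hi i) (s.base i)
      have hle : (s.W i).Pr (fun w => ¬ F i (pt s.W ω i) w) ≤
          (s.X i).Pr (fun w => ¬ Reg C1 (s.p i) (s.κ i) ((s.X i).S w) ∨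
            ¬ ∀ x ∈ I, ((((s.X i).S w) ∩ Zs V (s.B i) x.1 x.2.1 x.2.2).card : ℝ) ≤
              C3 * s.κ i / ((2 ^ x.2.2 + s.w i : ℕ) : ℝ)) := by
        refine Pr_mono (s.X i) (fun w hw => ?_)
        by_contra hcon
        push Not at hcon
        obtain ⟨hc1, hc2⟩ := hcon
        apply hw
        refine ⟨hc1, fun n z c hc => ?_⟩
        rw [← hV]
        by_cases hin : (n, z, c) ∈ I
        · exact hc2 (n, z, c) hin
        · have hemp : ((s.X i).S w) ∩ Zs V (s.B i) n z c = ∅ := by
            rw [Finset.eq_empty_iff_forall_notMem]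
            intro y hy
            rw [mem_inter] at hy
            unfold Zs at hy
            rw [mem_filter, mem_refl] at hy
            obtain ⟨hy1, ⟨hy2, hy3⟩, hy4, hy5⟩ := hy
            apply hin
            rw [hI, mem_filter, mem_product, mem_product, mem_range, mem_range, mem_range]
            have a1 := (s.rngS h0 i w y hy1).2
            have a2 := hY _ hy3
            have a3 := s.Blt i _ hy5
            have a4 : y % TT c < TT c := Nat.mod_lt _ (TT_pos c)
            have a5 : TT c ≤ 2 ^ s.u i :=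
              (TT_le c).trans (Nat.pow_le_pow_right (by norm_num) (by omega))
            have a6 : 2 ^ (s.u i + 1) = 2 ^ s.u i + 2 ^ s.u i := by ring
            have a7 : (C + 4 + 2 ^ J) * (s.p i) ^ 8 =
              (C + 4) * (s.p i) ^ 8 + 2 ^ J * (s.p i) ^ 8 := by ring
            have a8 : 2 ^ c ≤ s.u i := by omega
            have a9 : c ≤ Nat.log 2 (s.u i) := Nat.le_log_of_pow_le (by norm_num) a8
            refine ⟨⟨?_, ?_, ?_⟩, hc⟩
            · rw [hN]
              show n < _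
              omega
            · show z < _
              omega
            · unfold Lg
              show c < _
              omega
          rw [hemp]
          simp only [card_empty, Nat.cast_zero]
          positivity
      refine hle.trans ((Pr_or_le _ _ _).trans ((add_le_add hreg hfin).trans ?_))
      have h8 : (2 : ℝ) ^ 3 ≤ 2 ^ (s.κ i + 3) := pow_le_pow_right₀ (by norm_num) (by omega)
      have h9 : (1 : ℝ) / 2 ^ (s.κ i + 3) ≤ 1 / 2 ^ 3 :=
        one_div_le_one_div_of_le (by norm_num) h8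
      norm_num at h9 ⊢
      linarith)
    (by
      intro i
      refine (hSpr s (fun i => by have := hK i; omega) i).trans ?_
      refine one_div_le_one_div_of_le (by positivity) ?_
      have h5 : (2 : ℝ) * 4 ^ i = 2 ^ (2 * i + 1) := by
        rw [pow_succ, pow_mul]
        norm_num
        ring
      rw [h5]
      have := s.idx i
      exact pow_le_pow_right₀ (by norm_num) (by omega))
  refine ⟨ω, fun i n z c hc => ?_⟩
  have h5 := ((T18.GG_pt s.W F Sp ω (i + 1) (hω (i + 1))).1 i (Nat.lt_succ_self i)).2 n z c hc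
  rw [T18.S_pt] at h5
  exact h5

end Pool.Agent.Helper667_QS
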