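import Pool.Agent.Helper667_QS.Rep

/-!
# The union of the twisted wide blocks
-/

set_option autoImplicit false

namespace Pool.Agent.Helper667_QS

open Finset Pool.Agent.H125R2.ET Pool.Agent.Helper667_AS

theorem TSys.κmono {C J : ℕ} (s : TSys C J) {i j : ℕ} (h : j ≤ i) : s.κ j ≤ s.κ i := by
  rcases h.eq_or_lt with rfl | h
  · exact le_rfl
  · exact s.κle h

theorem TSys.memW {C J : ℕ} (s : TSys C J) (h0 : BlockRange C) (ω : ∀ i, (s.X i).Ω) {i v : ℕ}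
    (hv : v ∈ s.blk ω i) : 2 ^ (8 * s.κ i) ≤ v ∧ v < 2 ^ (8 * s.κ (i + 1) + J) := by
  have h1 := s.range h0 i (ω i) v hv
  have h2 := (s.pow_le i).1
  have h3 := s.below' i
  have h4 : 1 * (s.p i) ^ 8 ≤ 2 ^ 16 * (s.p i) ^ 8 := Nat.mul_le_mul_right _ (by norm_num)
  exact ⟨by omega, by omega⟩

theorem mem_rel {C J : ℕ} (s : TSys C J) (h0 : BlockRange C) (ω : ∀ i, (s.X i).Ω)
    {i j n a b : ℕ} (hij : j ≤ i) (ha : a ∈ s.blk ω i) (hb : b ∈ s.blk ω j) (hab : a + b = n) :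
    i ∈ (range (n + 1)).filter
      (fun i => 2 ^ (8 * s.κ i) ≤ n ∧ n < 2 ^ (8 * s.κ (i + 1) + J + 1)) := by
  have h1 := s.memW h0 ω ha
  have h2 := s.memW h0 ω hb
  have h3 : 2 ^ (8 * s.κ (j + 1) + J) ≤ 2 ^ (8 * s.κ (i + 1) + J) := by
    refine Nat.pow_le_pow_right (by norm_num) ?_
    have := s.κmono (show j + 1 ≤ i + 1 by omega)
    omega
  have h4 : 2 ^ (8 * s.κ (i + 1) + J + 1) = 2 ^ (8 * s.κ (i + 1) + J) + 2 ^ (8 * s.κ (i + 1) + J) := by
    ring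
  have h5 := s.idx i
  have h6 : s.κ i < 2 ^ (8 * s.κ i) := lt_of_lt_of_le Nat.lt_two_pow_self
    (Nat.pow_le_pow_right (by norm_num) (by omega))
  rw [mem_filter, mem_range]
  exact ⟨by omega, by omega, by omega⟩

theorem tw_count {C J : ℕ} (s : TSys C J) (h0 : BlockRange C) (ω : ∀ i, (s.X i).Ω) (n : ℕ) :
    rA (bigA (s.blk ω)) n ≤ ∑ i ∈ (range (n + 1)).filter
      (fun i => 2 ^ (8 * s.κ i) ≤ n ∧ n < 2 ^ (8 * s.κ (i + 1) + J + 1)),
        (repF (s.blk ω i) (s.blk ω i) n +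
          2 * (s.blk ω i ∩ refl n ((range i).biUnion (s.blk ω))).card) := by
  classical
  set S := s.blk ω with hSdef
  set I := (range (n + 1)).filter
      (fun i => 2 ^ (8 * s.κ i) ≤ n ∧ n < 2 ^ (8 * s.κ (i + 1) + J + 1)) with hI
  set T1 : ℕ → Finset (ℕ × ℕ) := fun i => (S i ×ˢ S i).filter (fun x => x.1 + x.2 = n) with hT1
  set L : ℕ → Finset ℕ := fun i => S i ∩ refl n ((range i).biUnion S) with hL
  set T2 : ℕ → Finset (ℕ × ℕ) := fun i => (L i).image (fun b => (n - b, b)) with hT2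
  set T3 : ℕ → Finset (ℕ × ℕ) := fun i => (L i).image (fun a => (a, n - a)) with hT3
  have hsub : {x : ℕ × ℕ | x.1 ∈ bigA S ∧ x.2 ∈ bigA S ∧ x.1 + x.2 = n} ⊆
      ((I.biUnion fun i => T1 i ∪ (T2 i ∪ T3 i) : Finset (ℕ × ℕ)) : Set (ℕ × ℕ)) := by
    rintro ⟨a, b⟩ ⟨⟨ia, ha⟩, ⟨ib, hb⟩, hab⟩
    simp only at ha hb hab
    rw [mem_coe, mem_biUnion]
    have hlow : ∀ {i j c d : ℕ}, i < j → c ∈ S i → d ∈ S j → c + d = n → d ∈ L j := by
      intro i j c d hij hc hd hcd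
      simp only [hL]
      rw [mem_inter, mem_refl]
      refine ⟨hd, by omega, ?_⟩
      rw [mem_biUnion]
      refine ⟨i, mem_range.mpr hij, ?_⟩
      have : n - d = c := by omega
      rw [this]
      exact hc
    rcases lt_trichotomy ia ib with hlt | heq | hgt
    · refine ⟨ib, mem_rel s h0 ω hlt.le hb ha (by omega), ?_⟩
      refine mem_union_right _ (mem_union_left _ ?_)
      simp only [hT2]
      rw [mem_image]
      refine ⟨b, hlow hlt ha hb hab, ?_⟩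
      rw [Prod.mk.injEq]
      exact ⟨by omega, rfl⟩
    · subst heq
      refine ⟨ia, mem_rel s h0 ω le_rfl ha hb hab, ?_⟩
      refine mem_union_left _ ?_
      simp only [hT1]
      rw [mem_filter, mem_product]
      exact ⟨⟨ha, hb⟩, hab⟩
    · refine ⟨ia, mem_rel s h0 ω hgt.le ha hb hab, ?_⟩
      refine mem_union_right _ (mem_union_right _ ?_)
      simp only [hT3]
      rw [mem_image]
      refine ⟨a, hlow hgt hb ha (by omega), ?_⟩
      rw [Prod.mk.injEq]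
      exact ⟨rfl, by omega⟩
  calc rA (bigA S) n
      ≤ ((I.biUnion fun i => T1 i ∪ (T2 i ∪ T3 i) : Finset (ℕ × ℕ)) : Set (ℕ × ℕ)).ncard :=
        Set.ncard_le_ncard hsub (Finset.finite_toSet _)
    _ = (I.biUnion fun i => T1 i ∪ (T2 i ∪ T3 i)).card := Set.ncard_coe_finset _
    _ ≤ ∑ i ∈ I, (T1 i ∪ (T2 i ∪ T3 i)).card := card_biUnion_le
    _ ≤ ∑ i ∈ I, (repF (S i) (S i) n + 2 * (L i).card) := by
        refine Finset.sum_le_sum fun i _ => ?_
        have h1 := card_union_le (T1 i) (T2 i ∪ T3 i)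
        have h2 := card_union_le (T2 i) (T3 i)
        have h3 : (T2 i).card ≤ (L i).card := card_image_le
        have h4 : (T3 i).card ≤ (L i).card := card_image_le
        have h5 : (T1 i).card = repF (S i) (S i) n := rfl
        omega

theorem tw_set (C J : ℕ) (hM : BlockMom C) (h0 : BlockRange C) (h1 : RegProb C) :
    ∃ C4 K0 : ℕ, ∀ (s : TSys C J), (∀ i, K0 ≤ s.κ i) → ∃ A : Set ℕ,
      (∀ n, rA A n = 0 ∨ ∃ i, 2 ^ (8 * s.κ i) ≤ n ∧
        (rA A n : ℝ) ≤ C4 * (s.κ i / ((s.w i + 1 : ℕ) : ℝ))) ∧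
      (∀ i l n ρ : ℕ, 2 ^ (8 * s.κ i + l) ≤ n → n < 2 ^ (8 * s.κ i + l + 1) →
        8 * s.κ i + l < 8 * s.κ (i + 1) → C + J + 30 ≤ l →
        (∀ x, 2 ^ (l - 10) ≤ x → x < 2 ^ (l + 1) → repF (s.B i) (s.B i) x ≤ ρ) →
        (rA A n : ℝ) ≤ C4 * ((Lg (s.u i)) ^ 2 * ρ + s.κ i / l)) ∧
      (∀ i n N0 : ℕ, ∀ B : Set ℕ, s.B i = cut B (s.u i) →
        (∀ N ≥ N0, ∃ b ∈ B, ∃ b' ∈ B, b + b' = N ∧ N ≤ b ^ 2 ∧ N ≤ b' ^ 2) →
        2 ^ 64 + 2 * N0 + 11 ≤ n / (s.p i) ^ 8 → n / (s.p i) ^ 8 < 2 ^ s.u i →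
        ∃ a ∈ A, ∃ b ∈ A, a + b = n ∧ 2 ^ (8 * s.κ i) ≤ a ∧ 2 ^ (8 * s.κ i) ≤ b) := by
  obtain ⟨C3, K0, hgood⟩ := good_tw C J hM h0 h1
  obtain ⟨R, hRd⟩ : ∃ R, R = C * (2 * C * C) ^ 3 := ⟨_, rfl⟩
  obtain ⟨Q1, hQ1⟩ : ∃ Q1, Q1 = (2 * (C + 4) + 1) * R := ⟨_, rfl⟩
  obtain ⟨Q2, hQ2⟩ : ∃ Q2, Q2 = C + 4 + 2 ^ J + 1 := ⟨_, rfl⟩
  obtain ⟨Q3, hQ3⟩ : ∃ Q3, Q3 = C + 4 + 2 ^ J + 5 := ⟨_, rfl⟩
  refine ⟨2 * (Q1 + 520 * Q2 * Q3 * C3), K0, ?_⟩
  intro s hK
  obtain ⟨ω, hω⟩ := hgood s hK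
  have hm : ∀ i, 0 < (s.p i) ^ 8 := fun i => pow_pos (s.prime i).pos 8
  have hrep : ∀ i n ρ, (∀ x, x ≤ n / (s.p i) ^ 8 → n / (s.p i) ^ 8 ≤ 2 * x + 2 * (C + 4) →
      repF (s.B i) (s.B i) x ≤ ρ) →
      (repF (s.blk ω i) (s.blk ω i) n : ℝ) ≤ Q1 * ((Lg (s.u i)) ^ 2 * ρ) := by
    intro i n ρ hρ
    have := tw_rep (u := s.u i) (hm i) (fun x hx => (s.rngS h0 i (ω i) x hx).2)
      (fun n => block_rep C (s.p i) (s.prime i).pos (s.D i) (s.base i) (ω i) (ω i) n) hρ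
    rw [← hRd] at this
    have h2 : (2 * (C + 4) + 1) * ((Lg (s.u i)) ^ 2 * (R * ρ)) = Q1 * ((Lg (s.u i)) ^ 2 * ρ) := by
      rw [hQ1]; ring
    rw [h2] at this
    exact_mod_cast this
  have hY : ∀ i, ∀ y ∈ (range i).biUnion (s.blk ω), y < 2 ^ J * (s.p i) ^ 8 := by
    intro i y hy
    rw [mem_biUnion] at hy
    obtain ⟨j, hj, hy⟩ := hy
    exact lt_of_lt_of_le (s.range h0 j (ω j) y hy).2 (s.below (mem_range.1 hj))
  have hcross : ∀ i n, ((s.blk ω i ∩ refl n ((range i).biUnion (s.blk ω))).card : ℝ) ≤ (Q2 : ℕ) *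
      ∑ c ∈ (range (Lg (s.u i))).filter
        (fun c => 2 ^ (16 * 2 ^ c) ≤ n / (s.p i) ^ 8 ∧
          n / (s.p i) ^ 8 < 2 ^ (128 * 2 ^ c + 1) + (C + 4 + 2 ^ J)),
        C3 * s.κ i / ((2 ^ c + s.w i : ℕ) : ℝ) := by
    intro i n
    rw [hQ2]
    exact tw_cross (u := s.u i) (hm i) (fun x hx => (s.rngS h0 i (ω i) x hx).2)
      (hY i) (T := C3 * s.κ i) (by positivity) (hω i) n
  have hκR : ∀ i, (0 : ℝ) ≤ s.κ i := fun i => Nat.cast_nonneg _
  have q1 : (0 : ℝ) ≤ Q1 := Nat.cast_nonneg _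
  have q2 : (0 : ℝ) ≤ Q2 := Nat.cast_nonneg _
  have q3 : (0 : ℝ) ≤ C3 := Nat.cast_nonneg _
  have q5 : (0 : ℝ) ≤ Q3 := Nat.cast_nonneg _
  refine ⟨bigA (s.blk ω), ?_, ?_, ?_⟩
  · intro n
    set I := (range (n + 1)).filter
      (fun i => 2 ^ (8 * s.κ i) ≤ n ∧ n < 2 ^ (8 * s.κ (i + 1) + J + 1)) with hI
    have hIc : I.card ≤ 2 := by
      rcases I.eq_empty_or_nonempty with he | hne
      · rw [he]; simp
      · obtain ⟨j0, hj0⟩ : ∃ j0, j0 = I.min' hne := ⟨_, rfl⟩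
        have hsub : I ⊆ {j0, j0 + 1} := by
          intro j hj
          rw [mem_insert, mem_singleton]
          have e1 : j0 ≤ j := by rw [hj0]; exact I.min'_le j hj
          have e2 : j0 ∈ I := by rw [hj0]; exact I.min'_mem hne
          rw [hI, mem_filter] at hj e2
          by_contra hcon
          push Not at hcon
          have e3 : j0 + 1 < j := by omega
          have e4 := s.κlt e3
          have e5 : 2 ^ (8 * s.κ (j0 + 1) + J + 1) ≤ 2 ^ (8 * s.κ j) :=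
            Nat.pow_le_pow_right (by norm_num) (by omega)
          omega
        exact (card_le_card hsub).trans card_le_two
    have hterm : ∀ i ∈ I, ((repF (s.blk ω i) (s.blk ω i) n +
          2 * (s.blk ω i ∩ refl n ((range i).biUnion (s.blk ω))).card : ℕ) : ℝ) ≤
        (Q1 + 520 * Q2 * Q3 * C3) * (s.κ i / ((s.w i + 1 : ℕ) : ℝ)) := by
      intro i hi
      rw [hI, mem_filter] at hi
      have hw0 : (0 : ℝ) < ((s.w i + 1 : ℕ) : ℝ) := by positivity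
      have e1 := hrep i n (s.ρ i) (fun x _ _ => s.Brep i x)
      have e2 := (hcross i n).trans (mul_le_mul_of_nonneg_left
        (near_bound (T := C3 * s.κ i) (by positivity)) (Nat.cast_nonneg _))
      rw [← hQ3] at e2
      have e3 : ((Lg (s.u i)) ^ 2 * s.ρ i : ℝ) ≤ s.κ i / ((s.w i + 1 : ℕ) : ℝ) := by
        rw [le_div_iff₀ hw0]
        have f1 : s.w i + 1 ≤ 2 ^ s.w i := Nat.lt_two_pow_self
        have f2 : (Lg (s.u i)) ^ 2 * s.ρ i * (s.w i + 1) ≤ s.κ i := by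
          calc (Lg (s.u i)) ^ 2 * s.ρ i * (s.w i + 1) ≤ (Lg (s.u i)) ^ 2 * s.ρ i * 2 ^ s.w i :=
                Nat.mul_le_mul_left _ f1
            _ = 2 ^ s.w i * ((Lg (s.u i)) ^ 2 * s.ρ i) := mul_comm _ _
            _ ≤ s.κ i := s.ρle i
        exact_mod_cast f2
      obtain ⟨v, hv⟩ : ∃ v : ℝ, v = s.κ i / ((s.w i + 1 : ℕ) : ℝ) := ⟨_, rfl⟩
      have hv0 : 0 ≤ v := by rw [hv]; positivity
      have e4 : (C3 : ℝ) * s.κ i / ((s.w i + 1 : ℕ) : ℝ) = C3 * v := by rw [hv]; ring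
      rw [e4] at e2
      rw [← hv] at e3 ⊢
      rw [Nat.cast_add, Nat.cast_mul 2]
      calc (repF (s.blk ω i) (s.blk ω i) n : ℝ) +
          ((2 : ℕ) : ℝ) * ((s.blk ω i ∩ refl n ((range i).biUnion (s.blk ω))).card : ℝ)
          ≤ Q1 * v + 2 * (Q2 * (Q3 * (C3 * v))) := by
            have := mul_le_mul_of_nonneg_left e3 q1
            push_cast
            linarith
        _ = (Q1 + 2 * (Q2 * Q3 * C3)) * v := by ring
        _ ≤ (Q1 + 520 * Q2 * Q3 * C3) * v := by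
            have := mul_nonneg (mul_nonneg q2 q5) q3
            refine mul_le_mul_of_nonneg_right ?_ hv0
            nlinarith
    have hcount := tw_count s h0 ω n
    rw [← hI] at hcount
    rcases I.eq_empty_or_nonempty with he | hne
    · left
      rw [he, Finset.sum_empty] at hcount
      omega
    · right
      obtain ⟨i, hi, hmax⟩ := I.exists_max_image (fun i => repF (s.blk ω i) (s.blk ω i) n +
          2 * (s.blk ω i ∩ refl n ((range i).biUnion (s.blk ω))).card) hne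
      refine ⟨i, ?_, ?_⟩
      · have := hi
        rw [hI, mem_filter] at this
        exact this.2.1
      · have e1 : rA (bigA (s.blk ω)) n ≤ 2 * (repF (s.blk ω i) (s.blk ω i) n +
          2 * (s.blk ω i ∩ refl n ((range i).biUnion (s.blk ω))).card) := by
          refine hcount.trans ((Finset.sum_le_card_nsmul _ _ _ hmax).trans ?_)
          rw [smul_eq_mul]
          exact Nat.mul_le_mul_right _ hIc
        have e2 : (rA (bigA (s.blk ω)) n : ℝ) ≤ 2 * ((repF (s.blk ω i) (s.blk ω i) n +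
          2 * (s.blk ω i ∩ refl n ((range i).biUnion (s.blk ω))).card : ℕ) : ℝ) := by
          exact_mod_cast e1
        have e3 := hterm i hi
        push_cast at e2 e3 ⊢
        linarith
  · intro i l n ρ hn1 hn2 hl hlJ hρ
    obtain ⟨m, hmd⟩ : ∃ m, m = (s.p i) ^ 8 := ⟨_, rfl⟩
    have hm0 : 0 < m := by rw [hmd]; exact hm i
    have hm1 := (s.pow_le i).1
    have hm2 := (s.pow_le i).2
    rw [← hmd] at hm1 hm2
    have f1 : 2 ^ (l - 8) ≤ n / m := by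
      rw [Nat.le_div_iff_mul_le hm0]
      calc 2 ^ (l - 8) * m ≤ 2 ^ (l - 8) * 2 ^ (8 * s.κ i + 8) := Nat.mul_le_mul_left _ hm2
        _ = 2 ^ (8 * s.κ i + l) := by rw [← pow_add]; congr 1; omega
        _ ≤ n := hn1
    have f2 : n / m < 2 ^ (l + 1) := by
      rw [Nat.div_lt_iff_lt_mul hm0]
      calc n < 2 ^ (8 * s.κ i + l + 1) := hn2
        _ = 2 ^ (l + 1) * 2 ^ (8 * s.κ i) := by rw [← pow_add]; congr 1; omega
        _ ≤ 2 ^ (l + 1) * m := Nat.mul_le_mul_left _ hm1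
    have f3 : 2 ^ (l - 8) = 4 * 2 ^ (l - 10) := by
      have : l - 8 = (l - 10) + 2 := by omega
      rw [this]; ring
    have f4 : 2 * (C + 4 + 2 ^ J) ≤ 2 ^ (l - 10) := by
      have g1 : C + 4 < 2 ^ (C + 4) := Nat.lt_two_pow_self
      have g2 : 2 ^ (C + 4) ≤ 2 ^ (C + J + 4) := Nat.pow_le_pow_right (by norm_num) (by omega)
      have g3 : 2 ^ J ≤ 2 ^ (C + J + 4) := Nat.pow_le_pow_right (by norm_num) (by omega)
      have g4 : 4 * 2 ^ (C + J + 4) = 2 ^ (C + J + 6) := by ring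
      have g5 : 2 ^ (C + J + 6) ≤ 2 ^ (l - 10) := Nat.pow_le_pow_right (by norm_num) (by omega)
      omega
    have f5 : 0 < 2 ^ J := by positivity
    have e1 := hrep i n ρ (by
      rw [← hmd]
      intro x hx1 hx2
      exact hρ x (by omega) (by omega))
    have e2 := hcross i n
    have e3 := far_bound (T := C3 * s.κ i) (by positivity) (u := s.u i) (l := l - 8)
      (N := n / (s.p i) ^ 8) (K2 := C + 4 + 2 ^ J) (w := s.w i)
      (by rw [← hmd]; exact f1) (by omega) (by omega)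
    rw [← hQ3] at e3
    have e4 := e2.trans (mul_le_mul_of_nonneg_left e3 (Nat.cast_nonneg _))
    have hl0 : (0 : ℝ) < l := by exact_mod_cast (by omega : 0 < l)
    have hl8 : (0 : ℝ) < ((l - 8 : ℕ) : ℝ) := by exact_mod_cast (by omega : 0 < l - 8)
    have e5 : 130 * (C3 * s.κ i) / ((l - 8 : ℕ) : ℝ) ≤ 260 * C3 * (s.κ i / l) := by
      have g1 : (l : ℝ) ≤ 2 * ((l - 8 : ℕ) : ℝ) := by exact_mod_cast (by omega : l ≤ 2 * (l - 8))
      rw [div_le_iff₀ hl8]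
      have g2 : (0 : ℝ) ≤ 130 * C3 * (s.κ i / l) := by positivity
      have g3 : 130 * (C3 * s.κ i : ℝ) = 130 * C3 * (s.κ i / l) * l := by
        field_simp
      rw [g3]
      nlinarith
    have hcount := tw_count s h0 ω n
    have hsub : (range (n + 1)).filter
      (fun i => 2 ^ (8 * s.κ i) ≤ n ∧ n < 2 ^ (8 * s.κ (i + 1) + J + 1)) ⊆ {i} := by
      intro j hj
      rw [mem_filter] at hj
      rw [mem_singleton]
      by_contra hne
      rcases Nat.lt_or_gt_of_ne hne with hlt | hgt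
      · have g1 := s.κmono (show j + 1 ≤ i by omega)
        have g2 : 2 ^ (8 * s.κ (j + 1) + J + 1) ≤ 2 ^ (8 * s.κ i + l) :=
          Nat.pow_le_pow_right (by norm_num) (by omega)
        omega
      · have g1 := s.κmono (show i + 1 ≤ j by omega)
        have g2 : 2 ^ (8 * s.κ i + l + 1) ≤ 2 ^ (8 * s.κ j) :=
          Nat.pow_le_pow_right (by norm_num) (by omega)
        omega
    have hcount2 := hcount.trans (Finset.sum_le_sum_of_subset hsub)
    rw [sum_singleton] at hcount2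
    calc (rA (bigA (s.blk ω)) n : ℝ) ≤ (repF (s.blk ω i) (s.blk ω i) n : ℝ) +
          2 * ((s.blk ω i ∩ refl n ((range i).biUnion (s.blk ω))).card : ℝ) := by
          exact_mod_cast hcount2
      _ ≤ Q1 * ((Lg (s.u i)) ^ 2 * ρ) + 2 * (Q2 * (Q3 * (260 * C3 * (s.κ i / l)))) := by
          have := mul_le_mul_of_nonneg_left (mul_le_mul_of_nonneg_left e5 q5) q2
          linarith
      _ = Q1 * ((Lg (s.u i)) ^ 2 * ρ) + (520 * Q2 * Q3 * C3) * (s.κ i / l) := by ring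
      _ ≤ (2 * (Q1 + 520 * Q2 * Q3 * C3)) * ((Lg (s.u i)) ^ 2 * ρ + s.κ i / l) := by
          have g1 : (0 : ℝ) ≤ (Lg (s.u i) : ℝ) ^ 2 * ρ := by positivity
          have g2 : (0 : ℝ) ≤ (s.κ i : ℝ) / l := by positivity
          have g3 : (0 : ℝ) ≤ 520 * Q2 * Q3 * C3 := by positivity
          nlinarith [mul_nonneg q1 g1, mul_nonneg q1 g2, mul_nonneg g3 g1, mul_nonneg g3 g2]
      _ = ((2 * (Q1 + 520 * Q2 * Q3 * C3) : ℕ) : ℝ) *
          ((Lg (s.u i)) ^ 2 * ρ + s.κ i / l) := by push_cast; ring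
  · intro i n N0 B hBi hB hn1 hn2
    obtain ⟨w, hw, w', hw', hww⟩ := tw_cov (hm i) (S := (s.X i).S (ω i)) (N0 := N0) (B := B)
      (u := s.u i) (n := n) (fun N h2 h3 => by
        obtain ⟨x, hx, y, hy, hxy⟩ := block_cov C (s.p i) (s.prime i).pos
          (by have := s.Cp i; omega) (s.D i) (s.base i) (ω i) (ω i) N h2 (by omega)
        exact ⟨x, hx, y, hy, hxy⟩) hB hn1 hn2
    rw [← hBi] at hw hw'
    exact ⟨w, ⟨i, hw⟩, w', ⟨i, hw'⟩, hww, (s.memW h0 ω hw).1, (s.memW h0 ω hw').1⟩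

end Pool.Agent.Helper667_QS
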