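import Pool.Agent.Helper667_QS.Ind

/-!
# The induction step
-/

set_option autoImplicit false

namespace Pool.Agent.Helper667_QS

open Finset Pool.Agent.H125R2.ET Pool.Agent.Helper667_AS

theorem a1 (c L cu x e a : ℕ) :
    c * (L * (cu * x ^ (e + 1)) ^ a) = c * cu ^ a * L * (x ^ a) ^ (e + 1) := by
  ring

theorem a2 (c cu x e g : ℕ) : c * (cu * x ^ (e + 1)) ^ (g + 1) =
    c * cu ^ (g + 1) * (x ^ (g + 1)) ^ (e + 1) := by ring

theorem a3 (x c g : ℕ) : (2 * x) * (c * (2 ^ (g + 1) * x ^ (g + 1))) =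
    c * 2 ^ (g + 2) * x ^ (g + 2) := by ring

theorem a4 (x c e g : ℕ) : (c * x ^ (g + 2)) ^ (e + 2) = c ^ (e + 2) * (x ^ (e + 2)) ^ (g + 2) := by
  ring

theorem a5 (x c L e f a : ℕ) : (c * (L ^ (f + 2) * x ^ a)) ^ (e + 2) =
    c ^ (e + 2) * (L ^ ((f + 2) * (e + 2)) * (x ^ (e + 2)) ^ a) := by
  rw [mul_pow, mul_pow, ← pow_mul, ← pow_mul, ← pow_mul, mul_comm a (e + 2)]

/-- a basis with few loud scales for all the exponents `a / d`, `2 ≤ a ≤ d` -/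
structure QAll (d : ℕ) (A : Set ℕ) (c : ℕ) : Prop where
  rep : ∀ n, rA A n * Lg (Nat.log 2 n + 1) ≤ c * (Nat.log 2 n + 1)
  cov : ∃ N0, CovP A N0
  few : ∀ a g, 2 ≤ a → a + g = d → ∃ f c', ∀ K, (lc a g f c' A K) ^ (a + g) ≤ c' * K ^ (g + 1)

theorem QAll.rep' {d : ℕ} {A : Set ℕ} {c : ℕ} (h : QAll d A c) (n : ℕ) :
    rA A n ≤ c * (Nat.log 2 n + 1) := by
  refine le_trans ?_ (h.rep n)
  calc rA A n = rA A n * 1 := (mul_one _).symm
    _ ≤ rA A n * Lg (Nat.log 2 n + 1) := Nat.mul_le_mul_left _ (one_le_Lg _)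

theorem few_top {A : Set ℕ} {c1 a : ℕ} (ha : 1 ≤ a) (hrep : ∀ n, rA A n ≤ c1 * (Nat.log 2 n + 1))
    (K : ℕ) : lc a 0 0 (c1 ^ a) A K = 0 := by
  classical
  unfold lc
  rw [card_eq_zero, filter_eq_empty_iff]
  rintro k - ⟨n, hn1, hn2, hn3⟩
  have hn0 : n ≠ 0 := by
    have : 0 < 2 ^ k := by positivity
    omega
  have e1 : Nat.log 2 n < k + 1 := (Nat.log_lt_iff_lt_pow (by norm_num) hn0).2 hn2
  have e2 : (rA A n) ^ (a + 0) ≤ c1 ^ a * ((Lg k) ^ 0 * (k + 1) ^ a) := by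
    calc (rA A n) ^ (a + 0) ≤ (c1 * (Nat.log 2 n + 1)) ^ a := Nat.pow_le_pow_left (hrep n) a
      _ ≤ (c1 * (k + 1)) ^ a := Nat.pow_le_pow_left (Nat.mul_le_mul_left _ (by omega)) a
      _ = c1 ^ a * ((Lg k) ^ 0 * (k + 1) ^ a) := by rw [mul_pow, pow_zero, one_mul]
  omega

theorem qall_succ {d cB : ℕ} (hd2 : 2 ≤ d) {B : Set ℕ} (hB : QAll d B cB) :
    ∃ (A : Set ℕ) (c' : ℕ), QAll (d + 1) A c' := by
  obtain ⟨e, hde⟩ : ∃ e, d = e + 1 := ⟨d - 1, by omega⟩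
  obtain ⟨N0, hcov⟩ := hB.cov
  obtain ⟨a0, ha0⟩ : ∃ a0, a0 = N0 + 80 := ⟨_, rfl⟩
  obtain ⟨C4, K0, hmain⟩ := build N0
  rw [← ha0] at hmain
  obtain ⟨cu, hcu⟩ : ∃ cu, cu = 8 * (e + 2) * 2 ^ (e + 1) + a0 := ⟨_, rfl⟩
  obtain ⟨N1, hN1⟩ := Lg_small (cB * (cu + 2)) (4 * (e + 2))
  obtain ⟨P, hP⟩ : ∃ P, P = 2 ^ (2 * N1 + 2) := ⟨_, rfl⟩
  obtain ⟨x0, hx0⟩ : ∃ x0, x0 = P + 32 * cu + K0 + 64 := ⟨_, rfl⟩
  -- facts for `x ≥ x0`
  have hself2 : ∀ x : ℕ, x ≤ x ^ (e + 2) := fun x => Nat.le_self_pow (by omega) x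
  have hself1 : ∀ x : ℕ, x ≤ x ^ (e + 1) := fun x => Nat.le_self_pow (by omega) x
  have hw : ∀ x, x0 ≤ x → wq e a0 x ≤ cu * x ^ (e + 1) := by
    intro x hx
    rw [hcu]
    exact wq_le (by omega)
  have hu : ∀ x, x0 ≤ x → 32 * wq e a0 x ≤ x ^ (e + 2) := by
    intro x hx
    calc 32 * wq e a0 x ≤ 32 * (cu * x ^ (e + 1)) := Nat.mul_le_mul_left _ (hw x hx)
      _ = (32 * cu) * x ^ (e + 1) := by ring
      _ ≤ x * x ^ (e + 1) := Nat.mul_le_mul_right _ (by omega)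
      _ = x ^ (e + 2) := by ring
  have hstepx : ∀ x, x0 ≤ x → x ^ (e + 2) + K0 ≤ (x + 1) ^ (e + 2) := by
    intro x hx
    have h1 := hself1 x
    calc x ^ (e + 2) + K0 ≤ x ^ (e + 2) + x ^ (e + 1) := by omega
      _ = (x + 1) * x ^ (e + 1) := by ring
      _ ≤ (x + 1) * (x + 1) ^ (e + 1) :=
          Nat.mul_le_mul_left _ (Nat.pow_le_pow_left (Nat.le_succ x) _)
      _ = (x + 1) ^ (e + 2) := by ring
  -- the parameter `w`
  have hwp : ∀ x, x0 ≤ x → 2 ^ (Nat.log 2 x / 2) * 2 ^ (Nat.log 2 x / 2) ≤ x ∧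
      N1 + 1 ≤ Nat.log 2 x / 2 ∧ Nat.log 2 x ≤ 2 * (Nat.log 2 x / 2) + 1 := by
    intro x hx
    have h1 : 2 ^ Nat.log 2 x ≤ x := Nat.pow_log_le_self 2 (by omega)
    have h2 : 2 * N1 + 2 ≤ Nat.log 2 x := Nat.le_log_of_pow_le (by norm_num) (by rw [← hP]; omega)
    refine ⟨?_, by omega, by omega⟩
    rw [← pow_add]
    exact (Nat.pow_le_pow_right (by norm_num) (by omega)).trans h1
  have hρ : ∀ x, x0 ≤ x → 2 ^ (Nat.log 2 x / 2) *
      ((Lg (wq e a0 x)) ^ 2 * (cB * (wq e a0 x + 2))) ≤ x ^ (e + 2) := by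
    intro x hx
    obtain ⟨f1, f2, f3⟩ := hwp x hx
    have e1 := hw x hx
    have e2 := hu x hx
    obtain ⟨y, hy⟩ : ∃ y, y = 2 ^ (Nat.log 2 x / 2) := ⟨_, rfl⟩
    have hyN : N1 ≤ y := by
      have : Nat.log 2 x / 2 < 2 ^ (Nat.log 2 x / 2) := Nat.lt_two_pow_self
      omega
    have hxy : x ≤ y ^ 4 := by
      have h1 : x < 2 ^ (Nat.log 2 x + 1) := Nat.lt_pow_succ_log_self (by norm_num) x
      calc x ≤ 2 ^ (Nat.log 2 x + 1) := h1.le
        _ ≤ 2 ^ (Nat.log 2 x / 2 * 4) := Nat.pow_le_pow_right (by norm_num) (by omega)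
        _ = y ^ 4 := by rw [hy, ← pow_mul]
    have e3 := hN1 y hyN (wq e a0 x) (by
      calc wq e a0 x ≤ x ^ (e + 2) := by omega
        _ ≤ (y ^ 4) ^ (e + 2) := Nat.pow_le_pow_left hxy _
        _ = y ^ (4 * (e + 2)) := by rw [← pow_mul])
    have e4 : 1 ≤ x ^ (e + 1) := Nat.one_le_pow _ _ (by omega)
    rw [← hy] at f1 ⊢
    calc y * ((Lg (wq e a0 x)) ^ 2 * (cB * (wq e a0 x + 2)))
        ≤ y * ((Lg (wq e a0 x)) ^ 2 * (cB * ((cu + 2) * x ^ (e + 1)))) := by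
          refine Nat.mul_le_mul_left _ (Nat.mul_le_mul_left _ (Nat.mul_le_mul_left _ ?_))
          calc wq e a0 x + 2 ≤ cu * x ^ (e + 1) + 2 * x ^ (e + 1) := by omega
            _ = (cu + 2) * x ^ (e + 1) := by ring
      _ = y * (cB * (cu + 2) * (Lg (wq e a0 x)) ^ 2) * x ^ (e + 1) := by ring
      _ ≤ y * y * x ^ (e + 1) := Nat.mul_le_mul_right _ (Nat.mul_le_mul_left _ e3)
      _ ≤ x * x ^ (e + 1) := Nat.mul_le_mul_right _ f1
      _ = x ^ (e + 2) := by ring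
  obtain ⟨A, hA1, hA2, hA3⟩ := hmain (fun i => (x0 + i) ^ (e + 2)) (fun i => wq e a0 (x0 + i))
    (fun i => Nat.log 2 (x0 + i) / 2) (fun _ => cB) (fun _ => B)
    (by have := hself2 x0; simp only [Nat.add_zero]; omega)
    (fun i => hstepx (x0 + i) (by omega))
    (fun i => wq_eq e a0 (x0 + i))
    (fun i j hij => wq_mono e a0 (by omega)) (fun i j _ => le_rfl) (fun _ n => hB.rep' n)
    (fun i => hu _ (by omega)) (fun i => hρ _ (by omega))
    (fun i => by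
      have h1 : 2 ^ Nat.log 2 (x0 + i) ≤ x0 + i := Nat.pow_log_le_self 2 (by omega)
      have h2 : Nat.log 2 (x0 + i) ≤ x0 + i := Nat.log_le_self 2 _
      have h3 : (x0 + i) * (x0 + i) ≤ (x0 + i) ^ (e + 2) := by
        rw [← sq]
        exact Nat.pow_le_pow_right (by omega) (by omega)
      have h4 : 64 * (x0 + i) ≤ (x0 + i) * (x0 + i) := Nat.mul_le_mul_right _ (by omega)
      refine ⟨by omega, ?_⟩
      have h5 : 2 ^ (Nat.log 2 (x0 + i) / 2) ≤ 2 ^ Nat.log 2 (x0 + i) :=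
        Nat.pow_le_pow_right (by norm_num) (by omega)
      have := hself2 (x0 + i)
      omega) (fun _ => hcov)
  have hx1 : ∀ i, 1 ≤ x0 + i := fun i => by omega
  have hrepA : ∀ n, rA A n * Lg (Nat.log 2 n + 1) ≤
      2 * (2 * (e + 2) + 1) * C4 * (Nat.log 2 n + 1) := by
    intro n
    rcases hA1 n with h0 | ⟨i, hi1, hi2⟩
    · rw [h0, Nat.zero_mul]
      exact Nat.zero_le _
    · obtain ⟨x, hx⟩ : ∃ x, x = x0 + i := ⟨_, rfl⟩
      rw [← hx] at hi1 hi2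
      obtain ⟨w, hwd⟩ : ∃ w, w = Nat.log 2 x / 2 := ⟨_, rfl⟩
      rw [← hwd] at hi2
      have hw0 : (0 : ℝ) < ((w + 1 : ℕ) : ℝ) := by positivity
      have e1 : rA A n * (w + 1) ≤ C4 * x ^ (e + 2) := by
        rw [← mul_div_assoc, le_div_iff₀ hw0] at hi2
        exact_mod_cast hi2
      have hn0 : n ≠ 0 := by
        have : 0 < 2 ^ (8 * x ^ (e + 2)) := by positivity
        omega
      have e2 : 8 * x ^ (e + 2) ≤ Nat.log 2 n := Nat.le_log_of_pow_le (by norm_num) hi1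
      have hx1' : 1 ≤ x := by omega
      have e3 : Lg (x ^ (e + 2)) ≤ (2 * (e + 2) + 1) * (w + 1) := by
        have f1 : x < 2 ^ (2 * (w + 1)) := by
          refine lt_of_lt_of_le (Nat.lt_pow_succ_log_self (by norm_num) x)
            (Nat.pow_le_pow_right (by norm_num) ?_)
          have := (hwp x (by omega)).2.2
          omega
        have f2 : x ^ (e + 2) < 2 ^ (2 * (w + 1) * (e + 2)) := by
          rw [pow_mul]
          exact Nat.pow_lt_pow_left f1 (by omega)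
        have f3 : Nat.log 2 (x ^ (e + 2)) < 2 * (w + 1) * (e + 2) :=
          (Nat.log_lt_iff_lt_pow (by norm_num) (by positivity)).2 f2
        unfold Lg
        have f4 : (2 * (e + 2) + 1) * (w + 1) = 2 * (w + 1) * (e + 2) + (w + 1) := by ring
        omega
      have hκ0 : 0 < x ^ (e + 2) := by positivity
      have e4 := Lg_ratio (x := x ^ (e + 2)) (y := Nat.log 2 n + 1) hκ0 (by omega)
      have e5 : rA A n * Lg (Nat.log 2 n + 1) * x ^ (e + 2) ≤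
          2 * (2 * (e + 2) + 1) * C4 * (Nat.log 2 n + 1) * x ^ (e + 2) := by
        calc rA A n * Lg (Nat.log 2 n + 1) * x ^ (e + 2)
            = rA A n * (x ^ (e + 2) * Lg (Nat.log 2 n + 1)) := by ring
          _ ≤ rA A n * (2 * (Nat.log 2 n + 1) * Lg (x ^ (e + 2))) := Nat.mul_le_mul_left _ e4
          _ ≤ rA A n * (2 * (Nat.log 2 n + 1) * ((2 * (e + 2) + 1) * (w + 1))) :=
              Nat.mul_le_mul_left _ (Nat.mul_le_mul_left _ e3)
          _ = 2 * (2 * (e + 2) + 1) * (Nat.log 2 n + 1) * (rA A n * (w + 1)) := by ring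
          _ ≤ 2 * (2 * (e + 2) + 1) * (Nat.log 2 n + 1) * (C4 * x ^ (e + 2)) :=
              Nat.mul_le_mul_left _ e1
          _ = 2 * (2 * (e + 2) + 1) * C4 * (Nat.log 2 n + 1) * x ^ (e + 2) := by ring
      exact Nat.le_of_mul_le_mul_right e5 hκ0
  refine ⟨A, 2 * (2 * (e + 2) + 1) * C4, hrepA, hA3, ?_⟩
  intro a g' ha2 hag
  have hrepA' : ∀ n, rA A n ≤ 2 * (2 * (e + 2) + 1) * C4 * (Nat.log 2 n + 1) := by
    intro n
    refine le_trans ?_ (hrepA n)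
    calc rA A n = rA A n * 1 := (mul_one _).symm
      _ ≤ rA A n * Lg (Nat.log 2 n + 1) := Nat.mul_le_mul_left _ (one_le_Lg _)
  rcases Nat.eq_zero_or_pos g' with hg0 | hg0
  · subst hg0
    refine ⟨0, (2 * (2 * (e + 2) + 1) * C4) ^ a, fun K => ?_⟩
    rw [few_top (by omega) hrepA' K, Nat.add_zero, zero_pow (by omega)]
    exact Nat.zero_le _
  · obtain ⟨g, rfl⟩ : ∃ g, g' = g + 1 := ⟨g' - 1, by omega⟩
    have he : a + g = e + 1 := by omega
    have he2 : a + (g + 1) = e + 2 := by omega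
    have ha : 1 ≤ a := by omega
    obtain ⟨f, c, hfewB⟩ := hB.few a g ha2 (by omega)
    -- the constants
    obtain ⟨M2, hM2⟩ : ∃ M2, M2 = c * cu ^ a + 1 := ⟨_, rfl⟩
    obtain ⟨M1, hM1⟩ : ∃ M1, M1 = c * cu ^ (g + 1) + 1 := ⟨_, rfl⟩
    obtain ⟨M3, hM3⟩ : ∃ M3, M3 = C4 * (M2 + 1) := ⟨_, rfl⟩
    obtain ⟨c6, hc6⟩ : ∃ c6, c6 = K0 + 1 + 11 * M1 := ⟨_, rfl⟩
    obtain ⟨c7, hc7⟩ : ∃ c7, c7 = 8 * x0 ^ (e + 2) + c6 * 2 ^ (g + 2) := ⟨_, rfl⟩
    obtain ⟨c', hc'⟩ : ∃ c', c' = M3 ^ (e + 2) + ((8 * x0 ^ (e + 2)) ^ (e + 2) + c7 ^ (e + 2)) := ⟨_, rfl⟩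
    refine ⟨(f + 2) * (e + 2), c', ?_⟩
    have hquiet : ∀ i l, K0 + (x0 + i) ^ (g + 1) ≤ l →
        8 * (x0 + i) ^ (e + 2) + l < 8 * (x0 + (i + 1)) ^ (e + 2) →
        (∀ t < 11, ¬ Loud a g f c B (l - t)) →
        ¬ Loud a (g + 1) ((f + 2) * (e + 2)) c' A (8 * (x0 + i) ^ (e + 2) + l) := by
      rintro i l hl1 hl2 hB1 ⟨n, hn1, hn2, hn3⟩
      obtain ⟨x, hx⟩ : ∃ x, x = x0 + i := ⟨_, rfl⟩
      have hxx : x0 + (i + 1) = x + 1 := by omega
      rw [hxx] at hl2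
      rw [← hx] at hn1 hn2 hn3 hl1 hl2
      have hx0x : x0 ≤ x := by omega
      have hweq := wq_eq e a0 x
      have hwx := hw x hx0x
      have hux := hu x hx0x
      obtain ⟨L, hL⟩ : ∃ L, L = Lg (8 * x ^ (e + 2) + l) := ⟨_, rfl⟩
      have hL1 : 1 ≤ L := by rw [hL]; exact one_le_Lg _
      have hLu : Lg (wq e a0 x) ≤ L := by rw [hL]; exact Lg_mono (by omega)
      -- the representations by `B`
      have hρ : ∀ y, 2 ^ (l - 10) ≤ y → y < 2 ^ (l + 1) →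
          rA B y ≤ M2 * L ^ f * x ^ a := by
        intro y hy1 hy2
        have hy0 : y ≠ 0 := by
          have : 0 < 2 ^ (l - 10) := by positivity
          omega
        obtain ⟨t', ht'⟩ : ∃ t', t' = Nat.log 2 y := ⟨_, rfl⟩
        have g1 : 2 ^ t' ≤ y := by rw [ht']; exact Nat.pow_log_le_self 2 hy0
        have g2 : y < 2 ^ (t' + 1) := by rw [ht']; exact Nat.lt_pow_succ_log_self (by norm_num) y
        have g3 : t' < l + 1 := by
          rw [ht']; exact (Nat.log_lt_iff_lt_pow (by norm_num) hy0).2 hy2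
        have g4 : l - 10 < t' + 1 := (Nat.pow_lt_pow_iff_right (by norm_num)).1 (lt_of_le_of_lt hy1 g2)
        have g5 := hB1 (l - t') (by omega)
        have g6 : l - (l - t') = t' := by omega
        rw [g6] at g5
        unfold Loud at g5
        push Not at g5
        have g7 := g5 y g1 g2
        rw [he] at g7
        refine (Nat.pow_le_pow_iff_left (show e + 1 ≠ 0 by omega)).1 (g7.trans ?_)
        have g8 : Lg t' ≤ L := by rw [hL]; exact Lg_mono (by omega)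
        have g9 : t' + 1 ≤ cu * x ^ (e + 1) := by omega
        calc c * ((Lg t') ^ f * (t' + 1) ^ a) ≤ c * (L ^ f * (cu * x ^ (e + 1)) ^ a) :=
              Nat.mul_le_mul_left _ (Nat.mul_le_mul (Nat.pow_le_pow_left g8 f)
                (Nat.pow_le_pow_left g9 a))
          _ = c * cu ^ a * L ^ f * (x ^ a) ^ (e + 1) := a1 _ _ _ _ _ _
          _ ≤ (M2 * L ^ f) ^ (e + 1) * (x ^ a) ^ (e + 1) := by
              refine Nat.mul_le_mul_right _ ?_
              calc c * cu ^ a * L ^ f ≤ M2 * L ^ f := Nat.mul_le_mul_right _ (by omega)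
                _ ≤ (M2 * L ^ f) ^ (e + 1) := Nat.le_self_pow (by omega) _
          _ = (M2 * L ^ f * x ^ a) ^ (e + 1) := (mul_pow _ _ _).symm
      have hb := hA2 i l n (M2 * L ^ f * x ^ a) (by rw [← hx]; exact hn1)
        (by rw [← hx]; exact hn2) (by rw [← hx, hxx]; exact hl2) (by omega) hρ
      rw [← hx] at hb
      -- the ratio
      have hxg : 1 ≤ x ^ (g + 1) := Nat.one_le_pow _ _ (by omega)
      have hl0 : (0 : ℝ) < l := by exact_mod_cast (by omega : 0 < l)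
      have hrat : ((x ^ (e + 2) : ℕ) : ℝ) / l ≤ ((x ^ a : ℕ) : ℝ) := by
        rw [div_le_iff₀ hl0]
        have : x ^ (e + 2) ≤ x ^ a * l := by
          calc x ^ (e + 2) = x ^ a * x ^ (g + 1) := by rw [← he2, pow_add]
            _ ≤ x ^ a * l := Nat.mul_le_mul_left _ (by omega)
        exact_mod_cast this
      have hnat : rA A n ≤ M3 * (L ^ (f + 2) * x ^ a) := by
        have e1 : (Lg (wq e a0 x)) ^ 2 * (M2 * L ^ f * x ^ a) + x ^ a ≤
            (M2 + 1) * (L ^ (f + 2) * x ^ a) := by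
          have g1 : (Lg (wq e a0 x)) ^ 2 * (M2 * L ^ f * x ^ a) ≤ L ^ 2 * (M2 * L ^ f * x ^ a) :=
            Nat.mul_le_mul_right _ (Nat.pow_le_pow_left hLu 2)
          have g2 : 1 * x ^ a ≤ L ^ (f + 2) * x ^ a :=
            Nat.mul_le_mul_right _ (Nat.one_le_pow _ _ hL1)
          rw [one_mul] at g2
          calc _ ≤ L ^ 2 * (M2 * L ^ f * x ^ a) + L ^ (f + 2) * x ^ a := Nat.add_le_add g1 g2
            _ = (M2 + 1) * (L ^ (f + 2) * x ^ a) := by ring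
        have e2 : (rA A n : ℝ) ≤ C4 * ((Lg (wq e a0 x) : ℝ) ^ 2 * ((M2 * L ^ f * x ^ a : ℕ) : ℝ) +
            ((x ^ a : ℕ) : ℝ)) :=
          hb.trans (mul_le_mul_of_nonneg_left (by linarith) (Nat.cast_nonneg _))
        have e3 : rA A n ≤ C4 * ((Lg (wq e a0 x)) ^ 2 * (M2 * L ^ f * x ^ a) + x ^ a) := by
          exact_mod_cast e2
        calc rA A n ≤ _ := e3
          _ ≤ C4 * ((M2 + 1) * (L ^ (f + 2) * x ^ a)) := Nat.mul_le_mul_left _ e1
          _ = M3 * (L ^ (f + 2) * x ^ a) := by rw [hM3]; ring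
      have hfin : (rA A n) ^ (e + 2) ≤
          c' * (L ^ ((f + 2) * (e + 2)) * (8 * x ^ (e + 2) + l + 1) ^ a) := by
        calc (rA A n) ^ (e + 2) ≤ (M3 * (L ^ (f + 2) * x ^ a)) ^ (e + 2) :=
              Nat.pow_le_pow_left hnat _
          _ = M3 ^ (e + 2) * (L ^ ((f + 2) * (e + 2)) * (x ^ (e + 2)) ^ a) := a5 _ _ _ _ _ _
          _ ≤ c' * (L ^ ((f + 2) * (e + 2)) * (8 * x ^ (e + 2) + l + 1) ^ a) :=
              Nat.mul_le_mul (by omega) (Nat.mul_le_mul_left _ (Nat.pow_le_pow_left (by omega) a))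
      rw [← hL, he2] at hn3
      omega
    have hstep : ∀ i, lc a (g + 1) ((f + 2) * (e + 2)) c' A (8 * (x0 + (i + 1)) ^ (e + 2)) ≤
        lc a (g + 1) ((f + 2) * (e + 2)) c' A (8 * (x0 + i) ^ (e + 2)) + c6 * (x0 + i) ^ (g + 1) := by
      intro i
      have hweq := wq_eq e a0 (x0 + i)
      have hxx : x0 + (i + 1) = x0 + i + 1 := by omega
      have e1 := lc_window (A := A) (B := B) (a := a) (g := g) (f := f) (c := c) (u := wq e a0 (x0 + i))
        (κ := (x0 + i) ^ (e + 2)) (κ' := (x0 + (i + 1)) ^ (e + 2))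
        (by rw [hxx]; omega) (hquiet i)
      refine e1.trans (Nat.add_le_add_left ?_ _)
      have e5 : lc a g f c B (wq e a0 (x0 + i)) ≤ M1 * (x0 + i) ^ (g + 1) := by
        have hfew := hfewB (wq e a0 (x0 + i))
        rw [he] at hfew
        refine (Nat.pow_le_pow_iff_left (show e + 1 ≠ 0 by omega)).1 (hfew.trans ?_)
        have f1 := hw (x0 + i) (by omega)
        calc c * (wq e a0 (x0 + i)) ^ (g + 1) ≤ c * (cu * (x0 + i) ^ (e + 1)) ^ (g + 1) :=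
              Nat.mul_le_mul_left _ (Nat.pow_le_pow_left f1 (g + 1))
          _ = (c * cu ^ (g + 1)) * ((x0 + i) ^ (g + 1)) ^ (e + 1) := a2 _ _ _ _ _
          _ ≤ M1 ^ (e + 1) * ((x0 + i) ^ (g + 1)) ^ (e + 1) := by
              refine Nat.mul_le_mul_right _ ?_
              calc c * cu ^ (g + 1) ≤ M1 := by omega
                _ ≤ M1 ^ (e + 1) := Nat.le_self_pow (by omega) _
          _ = (M1 * (x0 + i) ^ (g + 1)) ^ (e + 1) := (mul_pow _ _ _).symm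
      have e6 : 1 ≤ (x0 + i) ^ (g + 1) := Nat.one_le_pow _ _ (hx1 i)
      have e8 : K0 * 1 ≤ K0 * (x0 + i) ^ (g + 1) := Nat.mul_le_mul_left _ e6
      have e7 : c6 * (x0 + i) ^ (g + 1) = K0 * (x0 + i) ^ (g + 1) + (x0 + i) ^ (g + 1) +
          11 * (M1 * (x0 + i) ^ (g + 1)) := by rw [hc6]; ring
      omega
    have hsum : ∀ i, lc a (g + 1) ((f + 2) * (e + 2)) c' A (8 * (x0 + i) ^ (e + 2)) ≤
        8 * x0 ^ (e + 2) + i * (c6 * (x0 + i) ^ (g + 1)) := by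
      intro i
      induction i with
      | zero =>
        rw [Nat.zero_mul]
        exact lc_le _ _ _ _ _ _
      | succ i ih =>
        refine (hstep i).trans ?_
        have e1 : (x0 + i) ^ (g + 1) ≤ (x0 + (i + 1)) ^ (g + 1) := Nat.pow_le_pow_left (by omega) (g + 1)
        have e2 : c6 * (x0 + i) ^ (g + 1) ≤ c6 * (x0 + (i + 1)) ^ (g + 1) := Nat.mul_le_mul_left _ e1
        have e3 : i * (c6 * (x0 + i) ^ (g + 1)) ≤ i * (c6 * (x0 + (i + 1)) ^ (g + 1)) :=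
          Nat.mul_le_mul_left _ e2
        have e4 : (i + 1) * (c6 * (x0 + (i + 1)) ^ (g + 1)) =
            i * (c6 * (x0 + (i + 1)) ^ (g + 1)) + c6 * (x0 + (i + 1)) ^ (g + 1) := by ring
        omega
    intro K
    rw [he2]
    by_cases hK : K ≤ 8 * x0 ^ (e + 2)
    · have hKa : K ^ a ≤ K * (8 * x0 ^ (e + 2)) ^ (e + 2) := by
        obtain ⟨a', rfl⟩ : ∃ a', a = a' + 1 := ⟨a - 1, by omega⟩
        have e1 : 1 ≤ x0 ^ (e + 2) := Nat.one_le_pow _ _ (hx1 0)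
        calc K ^ (a' + 1) = K * K ^ a' := by ring
          _ ≤ K * (8 * x0 ^ (e + 2)) ^ a' := Nat.mul_le_mul_left _ (Nat.pow_le_pow_left hK _)
          _ ≤ K * (8 * x0 ^ (e + 2)) ^ (e + 2) :=
              Nat.mul_le_mul_left _ (Nat.pow_le_pow_right (by omega) (by omega))
      calc (lc a (g + 1) ((f + 2) * (e + 2)) c' A K) ^ (e + 2) ≤ K ^ (e + 2) :=
            Nat.pow_le_pow_left (lc_le _ _ _ _ _ _) _
        _ = K ^ a * K ^ (g + 1) := by rw [← he2, pow_add]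
        _ ≤ (K * (8 * x0 ^ (e + 2)) ^ (e + 2)) * K ^ (g + 1) := Nat.mul_le_mul_right _ hKa
        _ = (8 * x0 ^ (e + 2)) ^ (e + 2) * K ^ (g + 1 + 1) := by ring
        _ ≤ c' * K ^ (g + 1 + 1) := Nat.mul_le_mul_right _ (by omega)
    · push Not at hK
      have hex : ∃ i, K ≤ 8 * (x0 + i) ^ (e + 2) := by
        refine ⟨K, ?_⟩
        have := hself2 (x0 + K)
        omega
      classical
      obtain ⟨m, hm, hmin⟩ : ∃ m, K ≤ 8 * (x0 + m) ^ (e + 2) ∧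
          ∀ i < m, ¬ K ≤ 8 * (x0 + i) ^ (e + 2) :=
        ⟨Nat.find hex, Nat.find_spec hex, fun i hi => Nat.find_min hex hi⟩
      have hm0 : m ≠ 0 := by
        rintro rfl
        rw [Nat.add_zero] at hm
        omega
      obtain ⟨i, rfl⟩ := Nat.exists_eq_succ_of_ne_zero hm0
      have hi : 8 * (x0 + i) ^ (e + 2) < K := not_le.1 (hmin i (Nat.lt_succ_self i))
      have e1 : lc a (g + 1) ((f + 2) * (e + 2)) c' A K ≤ c7 * (x0 + i) ^ (g + 2) := by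
        refine (lc_mono _ _ _ _ _ hm).trans ((hsum (i + 1)).trans ?_)
        have f1 : (x0 + (i + 1)) ^ (g + 1) ≤ 2 ^ (g + 1) * (x0 + i) ^ (g + 1) := by
          rw [← mul_pow]
          exact Nat.pow_le_pow_left (by omega) (g + 1)
        have f2 : (i + 1) * (c6 * (x0 + (i + 1)) ^ (g + 1)) ≤
            (2 * (x0 + i)) * (c6 * (2 ^ (g + 1) * (x0 + i) ^ (g + 1))) :=
          Nat.mul_le_mul (by omega) (Nat.mul_le_mul_left _ f1)
        have f3 : (2 * (x0 + i)) * (c6 * (2 ^ (g + 1) * (x0 + i) ^ (g + 1))) =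
            c6 * 2 ^ (g + 2) * (x0 + i) ^ (g + 2) := a3 _ _ _
        have f4 : 1 ≤ (x0 + i) ^ (g + 2) := Nat.one_le_pow _ _ (hx1 i)
        have f5 : 8 * x0 ^ (e + 2) * 1 ≤ 8 * x0 ^ (e + 2) * (x0 + i) ^ (g + 2) :=
          Nat.mul_le_mul_left _ f4
        have f6 : c7 * (x0 + i) ^ (g + 2) = 8 * x0 ^ (e + 2) * (x0 + i) ^ (g + 2) +
            c6 * 2 ^ (g + 2) * (x0 + i) ^ (g + 2) := by rw [hc7]; ring
        omega
      calc (lc a (g + 1) ((f + 2) * (e + 2)) c' A K) ^ (e + 2) ≤ (c7 * (x0 + i) ^ (g + 2)) ^ (e + 2) :=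
            Nat.pow_le_pow_left e1 _
        _ = c7 ^ (e + 2) * ((x0 + i) ^ (e + 2)) ^ (g + 2) := a4 _ _ _ _
        _ ≤ c7 ^ (e + 2) * K ^ (g + 2) :=
            Nat.mul_le_mul_left _ (Nat.pow_le_pow_left (by omega) _)
        _ ≤ c' * K ^ (g + 2) := Nat.mul_le_mul_right _ (by omega)


theorem qall_base : ∃ (A : Set ℕ) (c : ℕ), QAll 2 A c := by
  obtain ⟨A, c, h⟩ := qgood_base 2 (by norm_num)
  refine ⟨A, c, h.rep, h.cov, ?_⟩
  intro a g ha hag
  have ha' : a = 2 := by omega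
  have hg' : g = 0 := by omega
  subst ha' hg'
  refine ⟨0, c ^ 2, fun K => ?_⟩
  rw [few_top (by omega) h.rep' K]
  simp

theorem qall_exists (d : ℕ) (hd : 2 ≤ d) : ∃ (A : Set ℕ) (c : ℕ), QAll d A c := by
  induction d, hd using Nat.le_induction with
  | base => exact qall_base
  | succ d hd ih =>
    obtain ⟨B, c, hB⟩ := ih
    exact qall_succ hd hB

end Pool.Agent.Helper667_QS
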