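import Pool.Agent.Helper667_AS.Step

/-!
# Twisted wide blocks `{s + m (b + (s mod 9 ^ 2 ^ c))}`
-/

set_option autoImplicit false

namespace Pool.Agent.Helper667_QS

open Finset Pool.Agent.H125R2.ET Pool.Agent.Helper667_AS

/-- the modulus of the twist -/
def TT (c : ℕ) : ℕ := 9 ^ 2 ^ c

/-- the number of the values of `c` -/
def Lg (u : ℕ) : ℕ := Nat.log 2 u + 1

theorem TT_pos (c : ℕ) : 0 < TT c := by unfold TT; positivity

theorem TT_le (c : ℕ) : TT c ≤ 2 ^ (4 * 2 ^ c) := by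
  unfold TT
  calc 9 ^ 2 ^ c ≤ (2 ^ 4) ^ 2 ^ c := Nat.pow_le_pow_left (by norm_num) _
    _ = 2 ^ (4 * 2 ^ c) := by rw [← pow_mul]

theorem le_TT (c : ℕ) : (2 ^ 2 ^ c) ^ 2 ≤ TT c := by
  unfold TT
  calc (2 ^ 2 ^ c) ^ 2 = (2 ^ 2) ^ 2 ^ c := by rw [← pow_mul, ← pow_mul, mul_comm]
    _ ≤ 9 ^ 2 ^ c := Nat.pow_le_pow_left (by norm_num) _

theorem TT_eq (c : ℕ) : TT c = 3 ^ (2 * 2 ^ c) := by
  unfold TT
  rw [pow_mul]
  norm_num

/-- the twisted wide block -/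
def tw (m u : ℕ) (B S : Finset ℕ) : Finset ℕ :=
  (((range (Lg u)) ×ˢ (B ×ˢ S)).filter (fun x => 2 ^ (16 * 2 ^ x.1) ≤ x.2.1 ∧
    x.2.1 < 2 ^ (128 * 2 ^ x.1) ∧ x.2.1 + x.2.2 % TT x.1 < 2 ^ u)).image
    (fun x => x.2.2 + m * (x.2.1 + x.2.2 % TT x.1))

theorem mem_tw {m u : ℕ} {B S : Finset ℕ} {n : ℕ} :
    n ∈ tw m u B S ↔ ∃ c < Lg u, ∃ b ∈ B, ∃ s ∈ S, 2 ^ (16 * 2 ^ c) ≤ b ∧
      b < 2 ^ (128 * 2 ^ c) ∧ b + s % TT c < 2 ^ u ∧ s + m * (b + s % TT c) = n := by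
  unfold tw
  rw [mem_image]
  constructor
  · rintro ⟨⟨c, b, s⟩, h, rfl⟩
    rw [mem_filter, mem_product, mem_product, mem_range] at h
    exact ⟨c, h.1.1, b, h.1.2.1, s, h.1.2.2, h.2.1, h.2.2.1, h.2.2.2, rfl⟩
  · rintro ⟨c, hc, b, hb, s, hs, h1, h2, h3, rfl⟩
    exact ⟨(c, b, s), mem_filter.2 ⟨mem_product.2 ⟨mem_range.2 hc, mem_product.2 ⟨hb, hs⟩⟩,
      h1, h2, h3⟩, rfl⟩

theorem tw_sub (m u : ℕ) (B S : Finset ℕ) : tw m u B S ⊆ wd m (range (2 ^ u)) S := by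
  intro n hn
  obtain ⟨c, -, b, -, s, hs, -, -, h3, rfl⟩ := mem_tw.1 hn
  exact mem_wd.2 ⟨_, mem_range.2 h3, s, hs, rfl⟩

/-- the random twisted wide block -/
def twRFS (m u : ℕ) (B : Finset ℕ) (X : RFS) : RFS where
  Ω := X.Ω
  ft := X.ft
  ne := X.ne
  S := fun ω => tw m u B (X.S ω)

theorem mom_twRFS {m u : ℕ} {B V : Finset ℕ} {X : RFS} {lam : ℝ} (hlam : 0 ≤ lam) :
    (twRFS m u B X).mom lam V ≤ (wRFS m (range (2 ^ u)) X).mom lam V := by
  refine E_mono X (fun ω => ?_)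
  refine Real.exp_le_exp.2 (mul_le_mul_of_nonneg_left ?_ hlam)
  exact_mod_cast card_le_card (inter_subset_inter_right (tw_sub m u B (X.S ω)))

/-- the small modulus of the twist -/
theorem TT_le_of {c u b : ℕ} (h1 : 2 ^ (16 * 2 ^ c) ≤ b) (h2 : b < 2 ^ u) :
    16 * 2 ^ c < u ∧ TT c ≤ 2 ^ u := by
  have h3 : 16 * 2 ^ c < u := (Nat.pow_lt_pow_iff_right (by norm_num)).1 (lt_of_le_of_lt h1 h2)
  refine ⟨h3, (TT_le c).trans (Nat.pow_le_pow_right (by norm_num) (by omega))⟩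

/-- the elements of a finite set in a short interval -/
theorem card_short {B : Finset ℕ} {ρ x T : ℕ} (hρ : ∀ n, repF B B n ≤ ρ) :
    (((range T).filter (fun t => t ≤ x ∧ x - t ∈ B)).card) ^ 2 ≤ 2 * T * ρ := by
  classical
  set E := (range T).filter (fun t => t ≤ x ∧ x - t ∈ B) with hE
  have hmap : ∀ y ∈ E ×ˢ E, y.1 + y.2 ∈ range (2 * T) := by
    intro y hy
    rw [mem_product, hE, mem_filter, mem_filter, mem_range, mem_range] at hy
    rw [mem_range]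
    omega
  calc E.card ^ 2 = (E ×ˢ E).card := by rw [card_product, sq]
    _ = ∑ n ∈ range (2 * T), ((E ×ˢ E).filter (fun y => y.1 + y.2 = n)).card :=
        card_eq_sum_card_fiberwise hmap
    _ ≤ ∑ _n ∈ range (2 * T), ρ := by
        refine sum_le_sum (fun n _ => (le_trans ?_ (hρ (2 * x - n))))
        unfold repF
        refine card_le_card_of_injOn (fun y => (x - y.1, x - y.2)) ?_ ?_
        · intro y hy
          rw [mem_coe, mem_filter, mem_product, hE, mem_filter, mem_filter, mem_range,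
            mem_range] at hy
          rw [mem_coe, mem_filter, mem_product]
          refine ⟨⟨hy.1.1.2.2, hy.1.2.2.2⟩, ?_⟩
          simp only
          omega
        · rintro ⟨y1, y2⟩ hy ⟨z1, z2⟩ hz hyz
          rw [mem_coe, mem_filter, mem_product, hE, mem_filter, mem_filter] at hy hz
          simp only [Prod.mk.injEq] at hyz hy hz ⊢
          omega
    _ = 2 * T * ρ := by rw [sum_const, card_range, smul_eq_mul]

theorem card_sq_le {B : Finset ℕ} {ρ u : ℕ} (hB : ∀ b ∈ B, b < 2 ^ u) (hρ : ∀ n, repF B B n ≤ ρ) :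
    B.card ^ 2 ≤ 2 ^ (u + 1) * ρ := by
  classical
  have hmap : ∀ x ∈ B ×ˢ B, x.1 + x.2 ∈ range (2 ^ (u + 1)) := by
    intro x hx
    rw [mem_product] at hx
    have h1 := hB _ hx.1
    have h2 := hB _ hx.2
    rw [mem_range]
    have : 2 ^ (u + 1) = 2 ^ u + 2 ^ u := by ring
    omega
  calc B.card ^ 2 = (B ×ˢ B).card := by rw [card_product, sq]
    _ = ∑ n ∈ range (2 ^ (u + 1)), ((B ×ˢ B).filter (fun x => x.1 + x.2 = n)).card :=
        card_eq_sum_card_fiberwise hmap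
    _ ≤ ∑ _n ∈ range (2 ^ (u + 1)), ρ := sum_le_sum (fun n _ => hρ n)
    _ = 2 ^ (u + 1) * ρ := by rw [sum_const, card_range, smul_eq_mul]

end Pool.Agent.Helper667_QS
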